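import Mathlib
import Pool.Agent.H398R2.BV5
import Pool.Agent.H343R2.PV

set_option autoImplicit false

/-! Type I sums with the Polya-Vinogradov bound and a split of the long part. -/

open Finset

namespace Pool.Agent.Helper24K9.EL

open Pool.Agent.Helper112 Pool.Agent.Helper112.TI Pool.Agent.Helper112.TII
open Pool.Agent.Helper112.BLB Pool.Agent.H398R2.BV Pool.Agent.H410R2

theorem inner_log' {f : ℕ} (ψ : DirichletCharacter ℂ f) (Q : ℝ)
    (hQ : ∀ n : ℕ, ‖∑ i ∈ Icc 1 n, ψ ((i : ℕ) : ZMod f)‖ ≤ Q) (X : ℝ)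
    (hX : 1 ≤ X) (c M : ℕ) (hc : 1 ≤ c) (hcX : (c:ℝ) ≤ X) (hM : (M : ℝ) ≤ X) :
    ‖∑ b ∈ Icc 1 M, ψ (b : ZMod f) * ((Real.log (X / ((b * c : ℕ) : ℝ)) : ℝ) : ℂ)‖ ≤
      3 * Q * Real.log X := by
  have hL : 0 ≤ Real.log X := Real.log_nonneg hX
  have hc0 : (0:ℝ) < c := by exact_mod_cast hc
  have hQ0 : 0 ≤ Q := (norm_nonneg _).trans (hQ 0)
  have e : ∑ b ∈ Icc 1 M, ψ (b : ZMod f) * ((Real.log (X / ((b * c : ℕ) : ℝ)) : ℝ) : ℂ) =
      ((Real.log (X / c) : ℝ) : ℂ) * ∑ b ∈ Icc 1 M, ψ (b : ZMod f) -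
      ∑ b ∈ Icc 1 M, ψ (b : ZMod f) * ((Real.log b : ℝ) : ℂ) := by
    rw [mul_sum, ← sum_sub_distrib]
    apply sum_congr rfl
    intro b hb
    rw [mem_Icc] at hb
    have hb0 : (0:ℝ) < b := by exact_mod_cast hb.1
    have : Real.log (X / ((b * c : ℕ) : ℝ)) = Real.log (X / c) - Real.log b := by
      push_cast
      rw [← Real.log_div (by positivity) (by positivity)]
      congr 1
      field_simp
    rw [this]
    push_cast
    ring
  rw [e]
  refine (norm_sub_le _ _).trans ?_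
  have h1 := abel_mono (fun i => ψ (i : ZMod f)) Q hQ (fun n : ℕ => Real.log n)
    mono_log (by simp) M
  have h2 : ‖((Real.log (X / c) : ℝ) : ℂ) * ∑ b ∈ Icc 1 M, ψ (b : ZMod f)‖ ≤ Real.log X * Q := by
    rw [norm_mul, Complex.norm_real, Real.norm_eq_abs]
    have h3 : |Real.log (X / c)| ≤ Real.log X := by
      have hc1 : (1:ℝ) ≤ c := by exact_mod_cast hc
      rw [abs_of_nonneg]
      · apply Real.log_le_log (by positivity)
        exact div_le_self (by linarith) hc1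
      · apply Real.log_nonneg
        rwa [le_div_iff₀ hc0, one_mul]
    exact mul_le_mul h3 (hQ M) (norm_nonneg _) hL
  have h4 : Real.log M ≤ Real.log X := by
    rcases Nat.eq_zero_or_pos M with h | h
    · subst h; simpa using hL
    · exact Real.log_le_log (by exact_mod_cast h) hM
  have h5 : 2 * Q * Real.log M ≤ 2 * Q * Real.log X := mul_le_mul_of_nonneg_left h4 (by positivity)
  linarith

theorem inner_log_log' {f : ℕ} (ψ : DirichletCharacter ℂ f) (Q : ℝ)
    (hQ : ∀ n : ℕ, ‖∑ i ∈ Icc 1 n, ψ ((i : ℕ) : ZMod f)‖ ≤ Q) (X : ℝ)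
    (hX : 1 ≤ X) (c M : ℕ) (hc : 1 ≤ c) (hM : (M : ℝ) ≤ X) (hcX : (c:ℝ) ≤ X) :
    ‖∑ b ∈ Icc 1 M, ψ (b : ZMod f) * ((Real.log b : ℝ) : ℂ) *
      ((Real.log (X / ((b * c : ℕ) : ℝ)) : ℝ) : ℂ)‖ ≤ 4 * Q * Real.log X ^ 2 := by
  have hL : 0 ≤ Real.log X := Real.log_nonneg hX
  have hc0 : (0:ℝ) < c := by exact_mod_cast hc
  have hQ0 : 0 ≤ Q := (norm_nonneg _).trans (hQ 0)
  have e : ∑ b ∈ Icc 1 M, ψ (b : ZMod f) * ((Real.log b : ℝ) : ℂ) *
      ((Real.log (X / ((b * c : ℕ) : ℝ)) : ℝ) : ℂ) =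
      ((Real.log (X / c) : ℝ) : ℂ) * ∑ b ∈ Icc 1 M, ψ (b : ZMod f) * ((Real.log b : ℝ) : ℂ) -
      ∑ b ∈ Icc 1 M, ψ (b : ZMod f) * ((Real.log b ^ 2 : ℝ) : ℂ) := by
    rw [mul_sum, ← sum_sub_distrib]
    apply sum_congr rfl
    intro b hb
    rw [mem_Icc] at hb
    have hb0 : (0:ℝ) < b := by exact_mod_cast hb.1
    have : Real.log (X / ((b * c : ℕ) : ℝ)) = Real.log (X / c) - Real.log b := by
      push_cast
      rw [← Real.log_div (by positivity) (by positivity)]
      congr 1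
      field_simp
    rw [this]
    push_cast
    ring
  rw [e]
  refine (norm_sub_le _ _).trans ?_
  have h1 := abel_mono (fun i => ψ (i : ZMod f)) Q hQ (fun n : ℕ => Real.log n)
    mono_log (by simp) M
  have h1' := abel_mono (fun i => ψ (i : ZMod f)) Q hQ
    (fun n : ℕ => Real.log n ^ 2) mono_log_sq (by simp) M
  have h4 : Real.log M ≤ Real.log X := by
    rcases Nat.eq_zero_or_pos M with h | h
    · subst h; simpa using hL
    · exact Real.log_le_log (by exact_mod_cast h) hM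
  have h4' : Real.log M ^ 2 ≤ Real.log X ^ 2 :=
    pow_le_pow_left₀ (Real.log_natCast_nonneg M) h4 2
  have h3 : |Real.log (X / c)| ≤ Real.log X := by
    have hc1 : (1:ℝ) ≤ c := by exact_mod_cast hc
    rw [abs_of_nonneg]
    · apply Real.log_le_log (by positivity)
      exact div_le_self (by linarith) hc1
    · apply Real.log_nonneg
      rwa [le_div_iff₀ hc0, one_mul]
  have h2 : ‖((Real.log (X / c) : ℝ) : ℂ) *
      ∑ b ∈ Icc 1 M, ψ (b : ZMod f) * ((Real.log b : ℝ) : ℂ)‖ ≤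
      Real.log X * (2 * Q * Real.log X) := by
    rw [norm_mul, Complex.norm_real, Real.norm_eq_abs]
    apply mul_le_mul h3 _ (norm_nonneg _) hL
    refine h1.trans ?_
    exact mul_le_mul_of_nonneg_left h4 (by positivity)
  have h5 : 2 * Q * Real.log M ^ 2 ≤ 2 * Q * Real.log X ^ 2 :=
    mul_le_mul_of_nonneg_left h4' (by positivity)
  have h6 : Real.log X * (2 * Q * Real.log X) = 2 * Q * Real.log X ^ 2 := by ring
  linarith

/-- the convolution of the two short factors beyond `M0` -/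
noncomputable def cvM (U V M0 : ℕ) (c : ℕ) : ℝ := if M0 < c then (mu1 V * l1 U) c else 0

/-- the constant function -/
def one1 (_ : ℕ) : ℝ := 1

theorem abs_conv_le (U V c : ℕ) : |(mu1 V * l1 U) c| ≤ Real.log c := by
  rw [ArithmeticFunction.mul_apply]
  calc |∑ i ∈ c.divisorsAntidiagonal, mu1 V i.1 * l1 U i.2| ≤
      ∑ i ∈ c.divisorsAntidiagonal, |mu1 V i.1 * l1 U i.2| := abs_sum_le_sum_abs _ _
    _ ≤ ∑ i ∈ c.divisorsAntidiagonal, ArithmeticFunction.vonMangoldt i.2 := by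
        apply sum_le_sum
        intro i _
        rw [abs_mul, abs_of_nonneg (l1_nonneg U i.2)]
        have h1 : |mu1 V i.1| ≤ 1 := by
          rw [mu1_apply]
          split_ifs
          · exact_mod_cast ArithmeticFunction.abs_moebius_le_one
          · simp
        have h2 : l1 U i.2 ≤ ArithmeticFunction.vonMangoldt i.2 := by
          rw [l1_apply]
          split_ifs
          · exact le_rfl
          · exact ArithmeticFunction.vonMangoldt_nonneg
        calc |mu1 V i.1| * l1 U i.2 ≤ 1 * l1 U i.2 :=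
              mul_le_mul_of_nonneg_right h1 (l1_nonneg U i.2)
          _ ≤ _ := by rw [one_mul]; exact h2
    _ = Real.log c := by
        rw [Nat.sum_divisorsAntidiagonal' (f := fun _ d => ArithmeticFunction.vonMangoldt d)]
        exact ArithmeticFunction.vonMangoldt_sum

theorem conv_zero (U V c : ℕ) (h : U * V < c) : (mu1 V * l1 U) c = 0 := by
  rw [ArithmeticFunction.mul_apply]
  apply sum_eq_zero
  intro i hi
  rw [Nat.mem_divisorsAntidiagonal] at hi
  rw [mu1_apply, l1_apply]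
  by_cases h1 : i.1 ≤ V
  · by_cases h2 : i.2 ≤ U
    · exfalso
      have : i.1 * i.2 ≤ V * U := Nat.mul_le_mul h1 h2
      rw [hi.1, mul_comm] at this
      omega
    · rw [if_neg h2, mul_zero]
  · rw [if_neg h1, zero_mul]

theorem cvM_zero (U V M0 c : ℕ) (h : U * V < c) : cvM U V M0 c = 0 := by
  unfold cvM
  split_ifs
  · exact conv_zero U V c h
  · rfl

theorem abs_cvM_le (U V M0 c : ℕ) : |cvM U V M0 c| ≤ Real.log c := by
  unfold cvM
  split_ifs
  · exact abs_conv_le U V c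
  · rw [abs_zero]; exact Real.log_natCast_nonneg c

/-- Type I bound. -/
theorem typeI' (X : ℝ) (hX : 1 ≤ X) (U V M0 f : ℕ)
    (ψ : DirichletCharacter ℂ f) (Q : ℝ)
    (hQ : ∀ n : ℕ, ‖∑ i ∈ Icc 1 n, ψ ((i : ℕ) : ZMod f)‖ ≤ Q) :
    ‖TL X f ψ (fun n => ArithmeticFunction.vonMangoldt n - LamII U V n)‖ ≤
      (U + 4 * V * Q + 3 * M0 * Q) * Real.log X ^ 2 +
      ‖TL X f ψ (fun n => ∑ i ∈ n.divisorsAntidiagonal, one1 i.1 * cvM U V M0 i.2)‖ := by
  have hL : 0 ≤ Real.log X := Real.log_nonneg hX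
  have hQ0 : 0 ≤ Q := (norm_nonneg _).trans (hQ 0)
  set zt : ArithmeticFunction ℝ :=
    ((ArithmeticFunction.zeta : ArithmeticFunction ℕ) : ArithmeticFunction ℝ) with hzt
  set cs : ℕ → ℝ := fun c => if M0 < c then 0 else (mu1 V * l1 U) c with hcs
  have hsum : ∀ n, (zt * (mu1 V * l1 U)) n =
      (∑ i ∈ n.divisorsAntidiagonal, one1 i.1 * cvM U V M0 i.2) +
      ∑ i ∈ n.divisorsAntidiagonal, one1 i.1 * cs i.2 := by
    intro n
    rw [ArithmeticFunction.mul_apply, ← sum_add_distrib]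
    apply sum_congr rfl
    intro i hi
    rw [Nat.mem_divisorsAntidiagonal] at hi
    have hi1 : i.1 ≠ 0 := by
      rintro h
      rw [h] at hi
      simp at hi
      omega
    have hz : zt i.1 = 1 := by
      rw [hzt, ArithmeticFunction.natCoe_apply, ArithmeticFunction.zeta_apply, if_neg hi1]
      simp
    rw [hz]
    unfold one1 cvM
    rw [hcs]
    simp only
    split_ifs <;> ring
  have e : TL X f ψ (fun n => ArithmeticFunction.vonMangoldt n - LamII U V n) =
      TL X f ψ (fun n => l1 U n) + TL X f ψ (fun n => (ArithmeticFunction.log * mu1 V) n) -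
      (TL X f ψ (fun n => ∑ i ∈ n.divisorsAntidiagonal, one1 i.1 * cvM U V M0 i.2) +
        TL X f ψ (fun n => ∑ i ∈ n.divisorsAntidiagonal, one1 i.1 * cs i.2)) := by
    rw [← TL_add, ← TL_add, ← TL_sub]
    congr 1
    funext n
    rw [← hsum n]
    exact vaughan U V n
  rw [e]
  -- first
  have t1 : ‖TL X f ψ (fun n => l1 U n)‖ ≤ U * Real.log X ^ 2 := by
    unfold TL
    refine (norm_sum_le _ _).trans ?_
    calc ∑ n ∈ Icc 1 ⌊X⌋₊, ‖((l1 U n : ℝ) : ℂ) * ψ (n : ZMod f) *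
        ((Real.log (X / n) : ℝ) : ℂ)‖ ≤ ∑ n ∈ Icc 1 ⌊X⌋₊, l1 U n * Real.log X := by
          apply sum_le_sum
          intro n hn
          rw [mem_Icc] at hn
          have hn0 : (1:ℝ) ≤ n := by exact_mod_cast hn.1
          have hnX : (n:ℝ) ≤ X := (Nat.le_floor_iff (by linarith)).mp hn.2
          rw [norm_mul, norm_mul, Complex.norm_real, Complex.norm_real, Real.norm_eq_abs,
            Real.norm_eq_abs, abs_of_nonneg (l1_nonneg U n)]
          have h1 : |Real.log (X / n)| ≤ Real.log X := by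
            rw [abs_of_nonneg]
            · apply Real.log_le_log (by positivity)
              exact div_le_self (by linarith) hn0
            · apply Real.log_nonneg
              rwa [le_div_iff₀ (by linarith), one_mul]
          have h2 := ψ.norm_le_one (n : ZMod f)
          have h3 := l1_nonneg U n
          calc l1 U n * ‖ψ (n : ZMod f)‖ * |Real.log (X / n)| ≤ l1 U n * 1 * Real.log X := by
                gcongr
            _ = _ := by ring
      _ = (∑ n ∈ Icc 1 ⌊X⌋₊, l1 U n) * Real.log X := by rw [sum_mul]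
      _ ≤ (U * Real.log X) * Real.log X := mul_le_mul_of_nonneg_right (sum_l1 U X hX) hL
      _ = _ := by ring
  -- second
  have t2 : ‖TL X f ψ (fun n => (ArithmeticFunction.log * mu1 V) n)‖ ≤
      V * (4 * Q * Real.log X ^ 2) := by
    have e2 : TL X f ψ (fun n => (ArithmeticFunction.log * mu1 V) n) =
        ∑ c ∈ Icc 1 ⌊X⌋₊, ((mu1 V c : ℝ) : ℂ) * ψ (c : ZMod f) *
          ∑ b ∈ Icc 1 (⌊X⌋₊ / c), ψ (b : ZMod f) * ((Real.log b : ℝ) : ℂ) *
            ((Real.log (X / ((b * c : ℕ) : ℝ)) : ℝ) : ℂ) := by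
      have h1 : TL X f ψ (fun n => (ArithmeticFunction.log * mu1 V) n) =
          ∑ n ∈ Icc 1 ⌊X⌋₊, ∑ i ∈ n.divisorsAntidiagonal,
          ((mu1 V i.2 : ℝ) : ℂ) * ψ (i.2 : ZMod f) * (ψ (i.1 : ZMod f) *
            ((Real.log i.1 : ℝ) : ℂ) * ((Real.log (X / ((i.1 * i.2 : ℕ) : ℝ)) : ℝ) : ℂ)) := by
        unfold TL
        apply sum_congr rfl
        intro n _
        beta_reduce
        rw [ArithmeticFunction.mul_apply, Complex.ofReal_sum, sum_mul, sum_mul]
        apply sum_congr rfl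
        intro i hi
        rw [Nat.mem_divisorsAntidiagonal] at hi
        rw [← hi.1, ArithmeticFunction.log_apply]
        push_cast
        rw [map_mul]
        ring
      rw [h1, hyperC ⌊X⌋₊ (fun b c => ((mu1 V c : ℝ) : ℂ) * ψ (c : ZMod f) * (ψ (b : ZMod f) *
            ((Real.log b : ℝ) : ℂ) * ((Real.log (X / ((b * c : ℕ) : ℝ)) : ℝ) : ℂ)))]
      apply sum_congr rfl
      intro c _
      rw [mul_sum]
    rw [e2]
    refine (norm_sum_le _ _).trans ?_
    calc _ ≤ ∑ c ∈ Icc 1 ⌊X⌋₊, |mu1 V c| * (4 * Q * Real.log X ^ 2) := by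
          apply sum_le_sum
          intro c hc
          rw [mem_Icc] at hc
          have hcX : (c:ℝ) ≤ X := (Nat.le_floor_iff (by linarith)).mp hc.2
          have hMX : ((⌊X⌋₊ / c : ℕ) : ℝ) ≤ X :=
            (Nat.le_floor_iff (by linarith)).mp (Nat.div_le_self _ _)
          rw [norm_mul, norm_mul, Complex.norm_real, Real.norm_eq_abs]
          have h1 := inner_log_log' ψ Q hQ X hX c (⌊X⌋₊ / c) hc.1 hMX hcX
          have h2 := ψ.norm_le_one (c : ZMod f)
          have h3 := abs_nonneg (mu1 V c)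
          calc _ ≤ |mu1 V c| * 1 * (4 * Q * Real.log X ^ 2) := by gcongr
            _ = _ := by ring
      _ = (∑ c ∈ Icc 1 ⌊X⌋₊, |mu1 V c|) * (4 * Q * Real.log X ^ 2) := by rw [sum_mul]
      _ ≤ _ := mul_le_mul_of_nonneg_right (sum_mu1 V _) (by positivity)
  -- third
  have t3 : ‖TL X f ψ (fun n => ∑ i ∈ n.divisorsAntidiagonal, one1 i.1 * cs i.2)‖ ≤
      (M0 * Real.log X) * (3 * Q * Real.log X) := by
    have e3 : TL X f ψ (fun n => ∑ i ∈ n.divisorsAntidiagonal, one1 i.1 * cs i.2) =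
        ∑ c ∈ Icc 1 ⌊X⌋₊, ((cs c : ℝ) : ℂ) * ψ (c : ZMod f) *
          ∑ b ∈ Icc 1 (⌊X⌋₊ / c), ψ (b : ZMod f) *
            ((Real.log (X / ((b * c : ℕ) : ℝ)) : ℝ) : ℂ) := by
      have h1 : TL X f ψ (fun n => ∑ i ∈ n.divisorsAntidiagonal, one1 i.1 * cs i.2) =
          ∑ n ∈ Icc 1 ⌊X⌋₊, ∑ i ∈ n.divisorsAntidiagonal,
          ((cs i.2 : ℝ) : ℂ) * ψ (i.2 : ZMod f) * (ψ (i.1 : ZMod f) *
            ((Real.log (X / ((i.1 * i.2 : ℕ) : ℝ)) : ℝ) : ℂ)) := by
        unfold TL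
        apply sum_congr rfl
        intro n _
        beta_reduce
        rw [Complex.ofReal_sum, sum_mul, sum_mul]
        apply sum_congr rfl
        intro i hi
        rw [Nat.mem_divisorsAntidiagonal] at hi
        unfold one1
        rw [← hi.1]
        push_cast
        rw [map_mul]
        ring
      rw [h1, hyperC ⌊X⌋₊ (fun b c => ((cs c : ℝ) : ℂ) * ψ (c : ZMod f) *
        (ψ (b : ZMod f) * ((Real.log (X / ((b * c : ℕ) : ℝ)) : ℝ) : ℂ)))]
      apply sum_congr rfl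
      intro c _
      rw [mul_sum]
    rw [e3]
    have hcsum : ∑ c ∈ Icc 1 ⌊X⌋₊, |cs c| ≤ M0 * Real.log X := by
      calc ∑ c ∈ Icc 1 ⌊X⌋₊, |cs c| ≤ ∑ c ∈ Icc 1 ⌊X⌋₊, (if c ≤ M0 then Real.log X else 0) := by
            apply sum_le_sum
            intro c hc
            rw [mem_Icc] at hc
            rw [hcs]
            simp only
            by_cases h : M0 < c
            · rw [if_pos h, if_neg (by omega), abs_zero]
            · rw [if_neg h, if_pos (by omega)]
              refine (abs_conv_le U V c).trans ?_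
              exact Real.log_le_log (by exact_mod_cast hc.1)
                ((Nat.le_floor_iff (by linarith)).mp hc.2)
        _ = (((Icc 1 ⌊X⌋₊).filter (fun n => n ≤ M0)).card : ℝ) * Real.log X := by
            rw [← sum_filter, sum_const, nsmul_eq_mul]
        _ ≤ ((Icc 1 M0).card : ℝ) * Real.log X := by
            apply mul_le_mul_of_nonneg_right _ hL
            norm_cast
            apply card_le_card
            intro n hn
            rw [mem_filter, mem_Icc] at hn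
            rw [mem_Icc]
            exact ⟨hn.1.1, hn.2⟩
        _ = _ := by simp
    refine (norm_sum_le _ _).trans ?_
    calc _ ≤ ∑ c ∈ Icc 1 ⌊X⌋₊, |cs c| * (3 * Q * Real.log X) := by
          apply sum_le_sum
          intro c hc
          rw [mem_Icc] at hc
          have hcX : (c:ℝ) ≤ X := (Nat.le_floor_iff (by linarith)).mp hc.2
          have hMX : ((⌊X⌋₊ / c : ℕ) : ℝ) ≤ X :=
            (Nat.le_floor_iff (by linarith)).mp (Nat.div_le_self _ _)
          rw [norm_mul, norm_mul, Complex.norm_real, Real.norm_eq_abs]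
          have h1 := inner_log' ψ Q hQ X hX c (⌊X⌋₊ / c) hc.1 hcX hMX
          have h2 := ψ.norm_le_one (c : ZMod f)
          have h3 := abs_nonneg (cs c)
          calc _ ≤ |cs c| * 1 * (3 * Q * Real.log X) := by gcongr
            _ = _ := by ring
      _ = (∑ c ∈ Icc 1 ⌊X⌋₊, |cs c|) * (3 * Q * Real.log X) := by rw [sum_mul]
      _ ≤ _ := mul_le_mul_of_nonneg_right hcsum (by positivity)
  refine (norm_sub_le _ _).trans ?_
  have t12 := norm_add_le (TL X f ψ (fun n => l1 U n))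
    (TL X f ψ (fun n => (ArithmeticFunction.log * mu1 V) n))
  have t34 := norm_add_le (TL X f ψ (fun n => ∑ i ∈ n.divisorsAntidiagonal, one1 i.1 * cvM U V M0 i.2))
    (TL X f ψ (fun n => ∑ i ∈ n.divisorsAntidiagonal, one1 i.1 * cs i.2))
  have e5 : (U + 4 * V * Q + 3 * M0 * Q) * Real.log X ^ 2 = U * Real.log X ^ 2 +
    V * (4 * Q * Real.log X ^ 2) + (M0 * Real.log X) * (3 * Q * Real.log X) := by ring
  rw [e5]
  linarith

theorem A_min (k N : ℕ) (β : ℕ → ℝ) (f : ℕ) (χ : DirichletCharacter ℂ f)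
    (h : ∀ c, N < c → β c = 0) : A k β f χ = A (min k N) β f χ := by
  unfold A
  symm
  apply sum_subset (Icc_subset_Icc_right (min_le_left _ _))
  intro c hc hc'
  rw [mem_Icc] at hc hc'
  have : N < c := by
    by_contra hcon
    apply hc'
    exact ⟨hc.1, le_min hc.2 (by omega)⟩
  rw [h c this]
  simp

theorem P_min (j k N : ℕ) (α β : ℕ → ℝ) (f : ℕ) (h : ∀ c, N < c → β c = 0) :
    P j k α β f = P j (min k N) α β f := by
  unfold P
  apply sum_congr rfl
  intro χ _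
  rw [A_min k N β f χ h]

theorem block_cv (X : ℝ) (hX : 1 ≤ X) (U V M0 F0 F1 : ℕ) (hM : 1 ≤ M0)
    (h0 : 1 ≤ F0) (h1 : 1 ≤ F1) (t : ℝ) (ht1 : 1 ≤ t) (ht2 : t ≤ X) :
    ∑ f ∈ Icc F0 F1, (1 / (Nat.totient f : ℝ)) * P ⌊t⌋₊ ⌊X / t⌋₊ one1 (cvM U V M0) f ≤
      12 * (1 + Real.log F1) * (Real.sqrt X / F0 + (Real.sqrt (X / M0) + Real.sqrt (U * V)) + F1) *
        (Real.sqrt X * Real.log X) := by
  have hL : 0 ≤ Real.log X := Real.log_nonneg hX
  have hlogF : 0 ≤ Real.log F1 := Real.log_natCast_nonneg F1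
  have ht0 : 0 < t := by linarith
  have hXt : 1 ≤ X / t := by rw [le_div_iff₀ ht0]; linarith
  have hM0 : (0:ℝ) < M0 := by exact_mod_cast hM
  have hRHS : 0 ≤ 12 * (1 + Real.log F1) *
      (Real.sqrt X / F0 + (Real.sqrt (X / M0) + Real.sqrt (U * V)) + F1) *
        (Real.sqrt X * Real.log X) := by positivity
  have hmin : ∀ f, P ⌊t⌋₊ ⌊X / t⌋₊ one1 (cvM U V M0) f =
      P ⌊t⌋₊ (min ⌊X / t⌋₊ (U * V)) one1 (cvM U V M0) f := fun f =>
    P_min _ _ _ _ _ f (fun c hc => cvM_zero U V M0 c hc)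
  simp only [hmin]
  set y := min ⌊X / t⌋₊ (U * V) with hy
  refine (step45 ⌊t⌋₊ y one1 (cvM U V M0) F0 F1 h0 h1).trans ?_
  rcases Nat.lt_or_ge M0 y with hUt | hUt
  swap
  · have : ∑ c ∈ Icc 1 y, cvM U V M0 c ^ 2 = 0 := by
      apply sum_eq_zero
      intro c hc
      rw [mem_Icc] at hc
      have : cvM U V M0 c = 0 := by
        unfold cvM
        rw [if_neg (by omega)]
      rw [this]
      simp
    rw [this]
    simpa using hRHS
  have hx1 : (⌊t⌋₊ : ℝ) ≤ t := Nat.floor_le (by linarith)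
  have hyf : y ≤ ⌊X / t⌋₊ := min_le_left _ _
  have hy1 : (y : ℝ) ≤ X / t := le_trans (by exact_mod_cast hyf) (Nat.floor_le (by linarith))
  have hy2 : (y : ℝ) ≤ U * V := by exact_mod_cast min_le_right _ _
  have hMr : (M0 : ℝ) ≤ y := by exact_mod_cast hUt.le
  have hx2 : (⌊t⌋₊ : ℝ) ≤ X / M0 := by
    refine hx1.trans ?_
    rw [le_div_iff₀ hM0]
    have := hMr.trans hy1
    rw [le_div_iff₀ ht0] at this
    linarith
  have hxy : (⌊t⌋₊ : ℝ) * (y : ℝ) ≤ X := by
    calc (⌊t⌋₊ : ℝ) * (y : ℝ) ≤ t * (X / t) :=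
          mul_le_mul hx1 hy1 (by positivity) (by linarith)
      _ = X := by field_simp
  have hy3 : (y : ℝ) ≤ X := hy1.trans (div_le_self (by linarith) ht1)
  have s1 : Real.sqrt (∑ b ∈ Icc 1 ⌊t⌋₊, one1 b ^ 2) = Real.sqrt ⌊t⌋₊ := by
    congr 1
    unfold one1
    simp
  have s2 : Real.sqrt (∑ c ∈ Icc 1 y, cvM U V M0 c ^ 2) ≤ Real.sqrt y * Real.log X := by
    rw [Real.sqrt_le_left (by positivity)]
    rw [mul_pow, Real.sq_sqrt (by positivity)]
    calc ∑ c ∈ Icc 1 y, cvM U V M0 c ^ 2 ≤ ∑ c ∈ Icc 1 y, Real.log X ^ 2 := by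
          apply sum_le_sum
          intro c hc
          rw [mem_Icc] at hc
          rw [← sq_abs]
          apply pow_le_pow_left₀ (abs_nonneg _)
          refine (abs_cvM_le U V M0 c).trans ?_
          apply log_natCast_le c X hX
          exact le_trans (by exact_mod_cast hc.2) hy3
      _ = y * Real.log X ^ 2 := by
          rw [sum_const, nsmul_eq_mul, Nat.card_Icc, Nat.add_sub_cancel]
  rw [s1]
  have s3 : Real.sqrt ⌊t⌋₊ * Real.sqrt (∑ c ∈ Icc 1 y, cvM U V M0 c ^ 2) ≤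
      Real.sqrt X * Real.log X := by
    calc Real.sqrt ⌊t⌋₊ * Real.sqrt (∑ c ∈ Icc 1 y, cvM U V M0 c ^ 2) ≤
        Real.sqrt ⌊t⌋₊ * (Real.sqrt y * Real.log X) :=
          mul_le_mul_of_nonneg_left s2 (Real.sqrt_nonneg _)
      _ = Real.sqrt ((⌊t⌋₊ : ℝ) * (y : ℝ)) * Real.log X := by
          rw [Real.sqrt_mul (by positivity)]; ring
      _ ≤ _ := by
          apply mul_le_mul_of_nonneg_right _ hL
          exact Real.sqrt_le_sqrt hxy
  have s4 : Real.sqrt ((⌊t⌋₊ : ℝ) * (y : ℝ)) ≤ Real.sqrt X := Real.sqrt_le_sqrt hxy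
  have s5 : Real.sqrt ⌊t⌋₊ ≤ Real.sqrt (X / M0) := Real.sqrt_le_sqrt hx2
  have s6 : Real.sqrt y ≤ Real.sqrt (U * V) := Real.sqrt_le_sqrt hy2
  gcongr

open Classical in
/-- the long part of the type I sums over a block of moduli -/
theorem cv_block (X : ℝ) (hX : 1 ≤ X) (U V M0 F0 F1 : ℕ) (hM : 1 ≤ M0)
    (h0 : 1 ≤ F0) (h1 : 1 ≤ F1) :
    ∑ f ∈ Icc F0 F1, (1 / (Nat.totient f : ℝ)) *
      ∑ ψ ∈ (univ : Finset (DirichletCharacter ℂ f)).filter (fun ψ => ψ.IsPrimitive),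
      ‖TL X f ψ (fun n => ∑ i ∈ n.divisorsAntidiagonal, one1 i.1 * cvM U V M0 i.2)‖ ≤
      12 * (1 + Real.log F1) * (Real.sqrt X / F0 + (Real.sqrt (X / M0) + Real.sqrt (U * V)) + F1) *
        (Real.sqrt X * Real.log X) * Real.log X :=
  sum_TL_le X hX (Icc F0 F1) (fun f => 1 / (Nat.totient f : ℝ)) (fun f => by positivity)
    one1 (cvM U V M0) _ (fun t ht1 ht2 => block_cv X hX U V M0 F0 F1 hM h0 h1 t ht1 ht2)

end Pool.Agent.Helper24K9.EL
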