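import Mathlib
import Pool.Agent.Helper24K9.EL.TI
import Pool.Agent.H398R2.BV6
import Pool.Agent.H343R2.EH.BVLog

set_option autoImplicit false

/-! A mean value theorem of Bombieri-Vinogradov type for sparse sets of moduli: the character sums. -/

open Finset Filter Topology

namespace Pool.Agent.Helper24K9.EL

open Pool.Agent.Helper112 Pool.Agent.Helper112.TI Pool.Agent.Helper112.TII
open Pool.Agent.Helper112.BLB Pool.Agent.H398R2.BV Pool.Agent.H410R2

/-- the bound for incomplete character sums -/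
noncomputable def Qf (f : ℕ) : ℝ := Real.sqrt f * (1 + Real.log f)

theorem one_le_Qf {f : ℕ} (hf : 2 ≤ f) : 1 ≤ Qf f := by
  unfold Qf
  have h1 : (1:ℝ) ≤ f := by exact_mod_cast (by omega : 1 ≤ f)
  have h2 : 1 ≤ Real.sqrt f := by rw [Real.one_le_sqrt]; exact h1
  have h3 : 0 ≤ Real.log f := Real.log_nonneg h1
  nlinarith

theorem psiLog_split (X : ℝ) (hX : 1 ≤ X) (W f : ℕ) (hW : 1 ≤ W) (hf : 2 ≤ f)
    (ψ : DirichletCharacter ℂ f) (hψ : ψ ∈ Prim f) :
    ‖psiLog X f ψ‖ ≤ 8 * W * Qf f * Real.log X ^ 2 +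
      (‖TL X f ψ (LamII W W)‖ +
      ‖TL X f ψ (fun n => ∑ i ∈ n.divisorsAntidiagonal, one1 i.1 * cvM W W W i.2)‖) := by
  classical
  have hprim : ψ.IsPrimitive := by
    unfold Prim at hψ
    exact (mem_filter.1 hψ).2
  have h1 := typeI' X hX W W W f ψ (Qf f) (fun n => H343.PVaux.PV_plain f n hf ψ hprim)
  have h2 : psiLog X f ψ =
      TL X f ψ (fun n => ArithmeticFunction.vonMangoldt n - LamII W W n) +
        TL X f ψ (LamII W W) := by
    rw [← TL_add]
    unfold psiLog TL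
    apply sum_congr rfl
    intro n _
    congr 2
    push_cast
    ring
  rw [h2]
  refine (norm_add_le _ _).trans ?_
  have hQ := one_le_Qf hf
  have hL : 0 ≤ Real.log X ^ 2 := by positivity
  have hW' : (1:ℝ) ≤ W := by exact_mod_cast hW
  have h3 : ((W:ℝ) + 4 * W * Qf f + 3 * W * Qf f) * Real.log X ^ 2 ≤ 8 * W * Qf f * Real.log X ^ 2 := by
    apply mul_le_mul_of_nonneg_right _ hL
    have : (W:ℝ) * 1 ≤ W * Qf f := mul_le_mul_of_nonneg_left hQ (by linarith)
    linarith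
  linarith

theorem key_exp (X e : ℝ) (hX : 1 ≤ X) (he : 0 < e) (he2 : e ≤ 1 / 16) (W : ℕ)
    (hW1 : X ^ ((1:ℝ) / 3) ≤ W) (hW2 : (W:ℝ) ≤ 2 * X ^ ((1:ℝ) / 3)) (B' : ℕ) (hL : 1 ≤ Real.log X) (y : ℝ)
    (hy1 : Real.log X ^ (4 * B') ≤ y) (hy2 : y ≤ 2 * X ^ (1 / 3 - 4 * e)) :
    y ^ (1 / 2 + e) * (2 * Real.sqrt X / y + (2 * Real.sqrt (X / W) + W) + y) * Real.sqrt X ≤
      2 * X / Real.log X ^ B' + 12 * X ^ (1 - e) := by
  have hX0 : 0 < X := by linarith
  have hy0 : 1 ≤ y := (one_le_pow₀ hL).trans hy1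
  have hy0' : 0 < y := by linarith
  set L := Real.log X with hLd
  have hsX : Real.sqrt X = X ^ ((1:ℝ) / 2) := Real.sqrt_eq_rpow X
  have hX13 : 0 < X ^ ((1:ℝ) / 3) := by positivity
  have hyX : y ≤ 2 * X ^ ((1:ℝ) / 3) := by
    refine hy2.trans ?_
    have : X ^ (1 / 3 - 4 * e) ≤ X ^ ((1:ℝ) / 3) := Real.rpow_le_rpow_of_exponent_le hX (by linarith)
    linarith
  -- first term
  have h1 : y ^ (1 / 2 + e) * (2 * Real.sqrt X / y) * Real.sqrt X ≤ 2 * X / L ^ B' := by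
    have e1 : y ^ (1 / 2 + e) * (2 * Real.sqrt X / y) * Real.sqrt X =
        2 * (Real.sqrt X * Real.sqrt X) * (y ^ (1 / 2 + e) / y) := by ring
    have e2 : y ^ (1 / 2 + e) / y = y ^ (e - 1 / 2) := by
      rw [← Real.rpow_sub_one hy0'.ne']
      congr 1; ring
    rw [e1, Real.mul_self_sqrt hX0.le, e2]
    have h2 : y ^ (e - 1 / 2) ≤ 1 / L ^ B' := by
      have h3 : y ^ (e - 1 / 2) ≤ y ^ (-(1:ℝ) / 4) := Real.rpow_le_rpow_of_exponent_le hy0 (by linarith)
      have h4 : y ^ (-(1:ℝ) / 4) ≤ (L ^ (4 * B')) ^ (-(1:ℝ) / 4) :=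
        Real.rpow_le_rpow_of_nonpos (by positivity) hy1 (by norm_num)
      have h5 : (L ^ (4 * B')) ^ (-(1:ℝ) / 4) = 1 / L ^ B' := by
        rw [← Real.rpow_natCast, ← Real.rpow_mul (by linarith), one_div, ← Real.rpow_natCast,
          ← Real.rpow_neg (by linarith)]
        congr 1
        push_cast
        ring
      rw [h5] at h4
      exact h3.trans h4
    calc 2 * X * y ^ (e - 1 / 2) ≤ 2 * X * (1 / L ^ B') := by gcongr
      _ = _ := by ring
  -- others
  have hsW : Real.sqrt (X / W) ≤ X ^ ((1:ℝ) / 3) := by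
    have h2 : X / W ≤ X ^ ((2:ℝ) / 3) := by
      have hWp : (0:ℝ) < W := lt_of_lt_of_le hX13 hW1
      rw [div_le_iff₀ hWp]
      calc X = X ^ ((2:ℝ) / 3) * X ^ ((1:ℝ) / 3) := by
            rw [← Real.rpow_add hX0]; norm_num
        _ ≤ _ := by gcongr
    calc Real.sqrt (X / W) ≤ Real.sqrt (X ^ ((2:ℝ) / 3)) := Real.sqrt_le_sqrt h2
      _ = X ^ ((1:ℝ) / 3) := by
          rw [Real.sqrt_eq_rpow, ← Real.rpow_mul hX0.le]; norm_num
  have h2 : (2 * Real.sqrt (X / W) + W) + y ≤ 6 * X ^ ((1:ℝ) / 3) := by linarith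
  have h3 : y ^ (1 / 2 + e) ≤ 2 * X ^ ((1 / 3 - 4 * e) * (1 / 2 + e)) := by
    calc y ^ (1 / 2 + e) ≤ (2 * X ^ (1 / 3 - 4 * e)) ^ (1 / 2 + e) :=
          Real.rpow_le_rpow hy0'.le hy2 (by linarith)
      _ = 2 ^ (1 / 2 + e) * X ^ ((1 / 3 - 4 * e) * (1 / 2 + e)) := by
          rw [Real.mul_rpow (by norm_num) (by positivity), ← Real.rpow_mul hX0.le]
      _ ≤ 2 * X ^ ((1 / 3 - 4 * e) * (1 / 2 + e)) := by
          apply mul_le_mul_of_nonneg_right _ (by positivity)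
          calc (2:ℝ) ^ (1 / 2 + e) ≤ 2 ^ (1:ℝ) :=
                Real.rpow_le_rpow_of_exponent_le (by norm_num) (by linarith)
            _ = 2 := by norm_num
  have h4 : y ^ (1 / 2 + e) * ((2 * Real.sqrt (X / W) + W) + y) * Real.sqrt X ≤ 12 * X ^ (1 - e) := by
    calc y ^ (1 / 2 + e) * ((2 * Real.sqrt (X / W) + W) + y) * Real.sqrt X ≤
        (2 * X ^ ((1 / 3 - 4 * e) * (1 / 2 + e))) * (6 * X ^ ((1:ℝ) / 3)) * X ^ ((1:ℝ) / 2) := by
          rw [hsX]
          gcongr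
      _ = 12 * (X ^ ((1 / 3 - 4 * e) * (1 / 2 + e)) * X ^ ((1:ℝ) / 3) * X ^ ((1:ℝ) / 2)) := by ring
      _ = 12 * X ^ ((1 / 3 - 4 * e) * (1 / 2 + e) + 1 / 3 + 1 / 2) := by
          rw [← Real.rpow_add hX0, ← Real.rpow_add hX0]
      _ ≤ 12 * X ^ (1 - e) := by
          apply mul_le_mul_of_nonneg_left _ (by norm_num)
          apply Real.rpow_le_rpow_of_exponent_le hX
          nlinarith
  calc y ^ (1 / 2 + e) * (2 * Real.sqrt X / y + (2 * Real.sqrt (X / W) + W) + y) * Real.sqrt X =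
      y ^ (1 / 2 + e) * (2 * Real.sqrt X / y) * Real.sqrt X +
        y ^ (1 / 2 + e) * ((2 * Real.sqrt (X / W) + W) + y) * Real.sqrt X := by ring
    _ ≤ _ := add_le_add h1 h4

/-- the inner sum of the bilinear parts -/
noncomputable def T2 (X : ℝ) (W f : ℕ) : ℝ := ∑ ψ ∈ Prim f, (‖TL X f ψ (LamII W W)‖ +
      ‖TL X f ψ (fun n => ∑ i ∈ n.divisorsAntidiagonal, one1 i.1 * cvM W W W i.2)‖)

theorem T2_nonneg (X : ℝ) (W f : ℕ) : 0 ≤ T2 X W f :=
  sum_nonneg fun _ _ => add_nonneg (norm_nonneg _) (norm_nonneg _)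

theorem T2_block (X : ℝ) (hX : 1 ≤ X) (W F0 F1 : ℕ) (hW : 1 ≤ W) (h0 : 1 ≤ F0) (h1 : 1 ≤ F1) :
    ∑ f ∈ Icc F0 F1, (1 / (Nat.totient f : ℝ)) * T2 X W f ≤
      24 * (1 + Real.log F1) * (Real.sqrt X / F0 + (2 * Real.sqrt (X / W) + W) + F1) *
        Real.sqrt X * (1 + Real.log X) ^ 4 := by
  classical
  have a1 := typeII_block X hX W W F0 F1 hW hW h0 h1
  have a2 := cv_block X hX W W W F0 F1 hW h0 h1
  have hL : 0 ≤ Real.log X := Real.log_nonneg hX
  have hlogF : 0 ≤ Real.log F1 := Real.log_natCast_nonneg F1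
  have hsW : Real.sqrt ((W:ℝ) * W) = W := Real.sqrt_mul_self (by positivity)
  rw [hsW] at a2
  have e1 : ∑ f ∈ Icc F0 F1, (1 / (Nat.totient f : ℝ)) * T2 X W f =
      (∑ f ∈ Icc F0 F1, (1 / (Nat.totient f : ℝ)) *
      ∑ ψ ∈ (univ : Finset (DirichletCharacter ℂ f)).filter (fun ψ => ψ.IsPrimitive),
      ‖TL X f ψ (LamII W W)‖) + ∑ f ∈ Icc F0 F1, (1 / (Nat.totient f : ℝ)) *
      ∑ ψ ∈ (univ : Finset (DirichletCharacter ℂ f)).filter (fun ψ => ψ.IsPrimitive),
      ‖TL X f ψ (fun n => ∑ i ∈ n.divisorsAntidiagonal, one1 i.1 * cvM W W W i.2)‖ := by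
    rw [← sum_add_distrib]
    apply sum_congr rfl
    intro f _
    rw [← mul_add, ← sum_add_distrib]
    rfl
  rw [e1]
  refine (add_le_add a1 a2).trans ?_
  set Y := Real.sqrt X / F0 + (2 * Real.sqrt (X / W) + W) + F1 with hY
  have hY1 : Real.sqrt X / F0 + (Real.sqrt (X / W) + Real.sqrt (X / W)) + F1 ≤ Y := by
    rw [hY]
    have : (0:ℝ) ≤ W := by positivity
    linarith
  have hY2 : Real.sqrt X / F0 + (Real.sqrt (X / W) + W) + F1 ≤ Y := by
    rw [hY]
    have : 0 ≤ Real.sqrt (X / W) := Real.sqrt_nonneg _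
    linarith
  have hY0 : 0 ≤ Y := by rw [hY]; positivity
  have p1 : (1 + Real.log X) ^ 3 * Real.log X ≤ (1 + Real.log X) ^ 4 := by
    rw [pow_succ (1 + Real.log X) 3]
    apply mul_le_mul_of_nonneg_left (by linarith) (by positivity)
  have p2 : Real.log X * Real.log X ≤ (1 + Real.log X) ^ 4 := by
    calc Real.log X * Real.log X ≤ (1 + Real.log X) * (1 + Real.log X) := by gcongr <;> linarith
      _ = (1 + Real.log X) ^ 2 := by ring
      _ ≤ (1 + Real.log X) ^ 4 := pow_le_pow_right₀ (by linarith) (by norm_num)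
  have q1 : 12 * (1 + Real.log F1) * (Real.sqrt X / F0 + (Real.sqrt (X / W) + Real.sqrt (X / W)) + F1) *
        (Real.sqrt X * (1 + Real.log X) ^ 3) * Real.log X ≤
      12 * (1 + Real.log F1) * Y * Real.sqrt X * (1 + Real.log X) ^ 4 := by
    calc _ = 12 * (1 + Real.log F1) * (Real.sqrt X / F0 + (Real.sqrt (X / W) + Real.sqrt (X / W)) + F1) *
        Real.sqrt X * ((1 + Real.log X) ^ 3 * Real.log X) := by ring
      _ ≤ _ := by gcongr
  have q2 : 12 * (1 + Real.log F1) * (Real.sqrt X / F0 + (Real.sqrt (X / W) + W) + F1) *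
        (Real.sqrt X * Real.log X) * Real.log X ≤
      12 * (1 + Real.log F1) * Y * Real.sqrt X * (1 + Real.log X) ^ 4 := by
    calc _ = 12 * (1 + Real.log F1) * (Real.sqrt X / F0 + (Real.sqrt (X / W) + W) + F1) *
        Real.sqrt X * (Real.log X * Real.log X) := by ring
      _ ≤ _ := by gcongr
  linarith

/-- one dyadic block of the bilinear parts -/
theorem T2_dyadic (X e : ℝ) (hX : 1 ≤ X) (he : 0 < e) (W : ℕ) (hW : 1 ≤ W) (j : ℕ) (S : Finset ℕ)
    (hS : S ⊆ Icc (2 ^ j) (2 ^ (j + 1))) :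
    ∑ f ∈ S, (f:ℝ) ^ (e - 1 / 2) * T2 X W f ≤
      24 * (1 + Real.log ((2:ℝ) ^ (j + 1))) * (1 + Real.log X) ^ 4 *
      (((2:ℝ) ^ (j + 1)) ^ (1 / 2 + e) *
        (2 * Real.sqrt X / 2 ^ (j + 1) + (2 * Real.sqrt (X / W) + W) + 2 ^ (j + 1)) * Real.sqrt X) := by
  have h1 := T2_block X hX W (2 ^ j) (2 ^ (j + 1)) hW Nat.one_le_two_pow Nat.one_le_two_pow
  push_cast at h1
  set y : ℝ := 2 ^ (j + 1) with hy
  have hy0 : 0 < y := by positivity
  have h2 : ∑ f ∈ S, (f:ℝ) ^ (e - 1 / 2) * T2 X W f ≤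
      y ^ (1 / 2 + e) * ∑ f ∈ Icc (2 ^ j) (2 ^ (j + 1)), (1 / (Nat.totient f : ℝ)) * T2 X W f := by
    rw [mul_sum]
    refine le_trans ?_ (sum_le_sum_of_subset_of_nonneg hS ?_)
    · apply sum_le_sum
      intro f hfS
      have hf := hS hfS
      rw [mem_Icc] at hf
      have hf0 : 0 < f := lt_of_lt_of_le (by positivity) hf.1
      have hf0r : (0:ℝ) < f := by exact_mod_cast hf0
      have hf2 : (f:ℝ) ≤ y := by rw [hy]; exact_mod_cast hf.2
      have hφ : (0:ℝ) < Nat.totient f := by exact_mod_cast Nat.totient_pos.mpr hf0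
      have hφf : (Nat.totient f : ℝ) ≤ f := by exact_mod_cast Nat.totient_le f
      rw [← mul_assoc]
      apply mul_le_mul_of_nonneg_right _ (T2_nonneg X W f)
      have e1 : (f:ℝ) ^ (e - 1 / 2) = (f:ℝ) ^ (1 / 2 + e) * (1 / f) := by
        rw [mul_one_div, ← Real.rpow_sub_one hf0r.ne']
        congr 1; ring
      rw [e1]
      have h4 : (f:ℝ) ^ (1 / 2 + e) ≤ y ^ (1 / 2 + e) := Real.rpow_le_rpow hf0r.le hf2 (by linarith)
      have h5 : 1 / (f:ℝ) ≤ 1 / (Nat.totient f : ℝ) := one_div_le_one_div_of_le hφ hφf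
      gcongr
    · intro f _ _
      have := T2_nonneg X W f
      positivity
  refine h2.trans ?_
  refine (mul_le_mul_of_nonneg_left h1 (by positivity)).trans (le_of_eq ?_)
  have e2 : Real.sqrt X / 2 ^ j = 2 * Real.sqrt X / y := by
    rw [hy, pow_succ]
    field_simp
  rw [e2]
  ring

theorem T2_total (X e : ℝ) (B' : ℕ) (hX : 4 ≤ X) (hL1 : 1 ≤ Real.log X) (he : 0 < e) (he2 : e ≤ 1 / 16)
    (W : ℕ) (hW1 : X ^ ((1:ℝ) / 3) ≤ W) (hW2 : (W:ℝ) ≤ 2 * X ^ ((1:ℝ) / 3)) (S : Finset ℕ)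
    (hS : ∀ f ∈ S, 2 ≤ f ∧ Real.log X ^ (4 * B') ≤ f ∧ (f:ℝ) ≤ X ^ (1 / 3 - 4 * e)) :
    ∑ f ∈ S, (f:ℝ) ^ (e - 1 / 2) * T2 X W f ≤
      24 * (1 + Real.log X) ^ 6 * (2 * X / Real.log X ^ B' + 12 * X ^ (1 - e)) := by
  have hX0 : 0 < X := by linarith
  have hX1 : 1 ≤ X := by linarith
  set L := Real.log X with hL
  have hp : 0 < X ^ ((1:ℝ) / 3) := by positivity
  have hWn : 1 ≤ W := by
    by_contra h
    have : W = 0 := by omega
    subst this
    simp at hW1
    linarith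
  have hE0 : 0 ≤ 2 * X / L ^ B' + 12 * X ^ (1 - e) := by positivity
  have hmaps : ∀ f ∈ S, Nat.log 2 f ∈ range (⌊L⌋₊ + 1) := by
    intro f hf
    obtain ⟨h2, _, h3⟩ := hS f hf
    rw [mem_range, Nat.lt_succ_iff]
    apply Nat.le_floor
    have h4 : ((2:ℝ) ^ (Nat.log 2 f)) ≤ X ^ ((1:ℝ) / 2) := by
      calc ((2:ℝ) ^ (Nat.log 2 f)) ≤ f := by exact_mod_cast Nat.pow_log_le_self 2 (by omega)
        _ ≤ X ^ (1 / 3 - 4 * e) := h3
        _ ≤ _ := Real.rpow_le_rpow_of_exponent_le hX1 (by linarith)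
    have h5 := Real.log_le_log (by positivity) h4
    rw [Real.log_pow, Real.log_rpow hX0] at h5
    have h6 : (0.5:ℝ) < Real.log 2 := by
      have := Real.log_two_gt_d9
      linarith
    have h7 : (0:ℝ) ≤ (Nat.log 2 f : ℝ) := by positivity
    nlinarith
  rw [← sum_fiberwise_of_maps_to hmaps]
  have hblock : ∀ j ∈ range (⌊L⌋₊ + 1), ∑ f ∈ S.filter (fun f => Nat.log 2 f = j),
      (f:ℝ) ^ (e - 1 / 2) * T2 X W f ≤
      24 * (1 + L) ^ 5 * (2 * X / L ^ B' + 12 * X ^ (1 - e)) := by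
    intro j _
    rcases (S.filter (fun f => Nat.log 2 f = j)).eq_empty_or_nonempty with hemp | ⟨f0, hf0⟩
    · rw [hemp, sum_empty]
      positivity
    have hsub : S.filter (fun f => Nat.log 2 f = j) ⊆ Icc (2 ^ j) (2 ^ (j + 1)) := by
      intro f hf
      rw [mem_filter] at hf
      obtain ⟨h1, h2⟩ := hf
      obtain ⟨h3, _, _⟩ := hS f h1
      rw [mem_Icc, ← h2]
      exact ⟨Nat.pow_log_le_self 2 (by omega), (Nat.lt_pow_succ_log_self (by norm_num) f).le⟩
    refine (T2_dyadic X e hX1 he W hWn j _ hsub).trans ?_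
    rw [mem_filter] at hf0
    obtain ⟨h1, h2⟩ := hf0
    obtain ⟨h3, h4, h5⟩ := hS f0 h1
    set y : ℝ := 2 ^ (j + 1) with hy
    have hy2j : (2:ℝ) ^ j = y / 2 := by rw [hy, pow_succ]; ring
    have hj1 : (2:ℝ) ^ j ≤ f0 := by
      rw [← h2]; exact_mod_cast Nat.pow_log_le_self 2 (by omega)
    have hj2 : (f0:ℝ) ≤ y := by
      rw [hy, ← h2]; exact_mod_cast (Nat.lt_pow_succ_log_self (by norm_num) f0).le
    have hyl : L ^ (4 * B') ≤ y := h4.trans hj2
    have hyu : y ≤ 2 * X ^ (1 / 3 - 4 * e) := by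
      have : y / 2 ≤ X ^ (1 / 3 - 4 * e) := by rw [← hy2j]; exact hj1.trans h5
      linarith
    have hkey := key_exp X e hX1 he he2 W hW1 hW2 B' hL1 y hyl hyu
    rw [← hL] at hkey
    have hy0 : 1 ≤ y := (one_le_pow₀ hL1).trans hyl
    have hyX : y ≤ X := by
      have h6 : X ^ (1 / 3 - 4 * e) ≤ X ^ ((1:ℝ) / 2) :=
        Real.rpow_le_rpow_of_exponent_le hX1 (by linarith)
      have h7 : X ^ ((1:ℝ) / 2) = Real.sqrt X := (Real.sqrt_eq_rpow X).symm
      have h8 : Real.sqrt X * Real.sqrt X = X := Real.mul_self_sqrt hX0.le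
      have h9 : 2 ≤ Real.sqrt X := Real.le_sqrt_of_sq_le (by norm_num; linarith)
      nlinarith
    have hly : Real.log y ≤ L := Real.log_le_log (by linarith) hyX
    calc 24 * (1 + Real.log y) * (1 + L) ^ 4 *
      (y ^ (1 / 2 + e) * (2 * Real.sqrt X / y + (2 * Real.sqrt (X / W) + W) + y) * Real.sqrt X)
        ≤ 24 * (1 + L) * (1 + L) ^ 4 * (2 * X / L ^ B' + 12 * X ^ (1 - e)) := by
          have : 0 ≤ Real.log y := Real.log_nonneg hy0
          gcongr
      _ = _ := by ring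
  refine (sum_le_sum hblock).trans ?_
  rw [sum_const, nsmul_eq_mul, card_range]
  have hfl : ((⌊L⌋₊ + 1 : ℕ) : ℝ) ≤ 1 + L := by
    push_cast
    have := Nat.floor_le (show 0 ≤ L by linarith)
    linarith
  calc ((⌊L⌋₊ + 1 : ℕ) : ℝ) * (24 * (1 + L) ^ 5 * (2 * X / L ^ B' + 12 * X ^ (1 - e)))
      ≤ (1 + L) * (24 * (1 + L) ^ 5 * (2 * X / L ^ B' + 12 * X ^ (1 - e))) := by gcongr
    _ = _ := by ring

/-- the mean value theorem for the character sums -/
theorem chars_total (e : ℝ) (he : 0 < e) (he2 : e ≤ 1 / 16) (A : ℕ) :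
    ∃ X₀ : ℝ, ∀ X : ℝ, X₀ ≤ X → ∀ F : ℕ, (F : ℝ) ≤ X ^ (1 / 3 - 4 * e) →
      ∑ f ∈ Icc 2 F, (f:ℝ) ^ (e - 1 / 2) * ∑ ψ ∈ Prim f, ‖psiLog X f ψ‖ ≤ X / (Real.log X) ^ A := by
  classical
  set B' := A + 7 with hB'
  set B := 4 * B' with hB
  set A' := A + 2 * B + 1 with hA'
  obtain ⟨x₀, hx₀⟩ := H343E.sw A' B
  have hlog : Tendsto Real.log atTop atTop := Real.tendsto_log_atTop
  have ev : ∀ᶠ X : ℝ in atTop, ∀ F : ℕ, (F : ℝ) ≤ X ^ (1 / 3 - 4 * e) →
      ∑ f ∈ Icc 2 F, (f:ℝ) ^ (e - 1 / 2) * ∑ ψ ∈ Prim f, ‖psiLog X f ψ‖ ≤ X / (Real.log X) ^ A := by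
    filter_upwards [eventually_ge_atTop x₀, eventually_ge_atTop (4:ℝ),
      hlog.eventually_ge_atTop 12288, ev_log (4 * 18432) (6 + A) e he,
      ev_log (4 * 32) (3 + A) e he] with X h1 h2 h3 h4 h5 F hF
    have hX0 : 0 < X := by linarith
    have hX1 : 1 ≤ X := by linarith
    set L := Real.log X with hL
    have hL0 : 0 < L := by linarith
    have hL1 : 1 ≤ L := by linarith
    have hXA : 0 < X / L ^ A := by positivity
    set v : ℕ → ℝ := fun f => (f:ℝ) ^ (e - 1 / 2) with hv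
    have hv0 : ∀ f, 0 ≤ v f := fun f => by rw [hv]; positivity
    have hv1 : ∀ f, 1 ≤ f → v f ≤ 1 := by
      intro f hf
      rw [hv]
      exact Real.rpow_le_one_of_one_le_of_nonpos (by exact_mod_cast hf) (by linarith)
    set Sg : ℕ → ℝ := fun f => v f * ∑ ψ ∈ Prim f, ‖psiLog X f ψ‖ with hSg
    have hSg0 : ∀ f, 0 ≤ Sg f := fun f => mul_nonneg (hv0 f) (sum_nonneg fun _ _ => norm_nonneg _)
    set G := ⌊L ^ B⌋₊ with hG
    have hGle : (G : ℝ) ≤ L ^ B := Nat.floor_le (by positivity)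
    set S := (Icc 2 F).filter (fun f => G < f) with hS
    have hsplit : ∑ f ∈ Icc 2 F, Sg f ≤ ∑ f ∈ Icc 2 G, Sg f + ∑ f ∈ S, Sg f := by
      rw [← sum_filter_add_sum_filter_not (Icc 2 F) (fun f => f ≤ G)]
      apply add_le_add
      · apply sum_le_sum_of_subset_of_nonneg
        · intro f hf
          rw [mem_filter, mem_Icc] at hf
          rw [mem_Icc]
          exact ⟨hf.1.1, hf.2⟩
        · intro f _ _
          exact hSg0 f
      · apply le_of_eq
        apply sum_congr _ (fun _ _ => rfl)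
        rw [hS]
        apply filter_congr
        intro f _
        exact not_le
    refine hsplit.trans ?_
    -- small part
    have hsmall : ∑ f ∈ Icc 2 G, Sg f ≤ (1 / 4) * (X / L ^ A) := by
      have h8 : ∀ f ∈ Icc 2 G, Sg f ≤ G * (X / L ^ A') := by
        intro f hf
        rw [mem_Icc] at hf
        have hfG : (f:ℝ) ≤ G := by exact_mod_cast hf.2
        have hφ : (Nat.totient f : ℝ) ≤ f := by exact_mod_cast Nat.totient_le f
        rw [hSg]
        simp only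
        calc v f * ∑ ψ ∈ Prim f, ‖psiLog X f ψ‖ ≤ 1 * ∑ ψ ∈ Prim f, (X / L ^ A') := by
              apply mul_le_mul (hv1 f (by omega)) _ (sum_nonneg fun _ _ => norm_nonneg _) zero_le_one
              apply sum_le_sum
              intro ψ hψ
              apply hx₀ X h1 f (by omega)
              · exact hfG.trans hGle
              · unfold Prim at hψ
                exact (mem_filter.1 hψ).2
          _ = ((Prim f).card : ℝ) * (X / L ^ A') := by rw [one_mul, sum_const, nsmul_eq_mul]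
          _ ≤ G * (X / L ^ A') := by
              apply mul_le_mul_of_nonneg_right _ (by positivity)
              exact (card_prim_le (by omega)).trans (hφ.trans hfG)
      calc ∑ f ∈ Icc 2 G, Sg f ≤ ∑ f ∈ Icc 2 G, G * (X / L ^ A') := sum_le_sum h8
        _ = ((Icc 2 G).card : ℝ) * (G * (X / L ^ A')) := by rw [sum_const, nsmul_eq_mul]
        _ ≤ (G : ℝ) * (G * (X / L ^ A')) := by
            apply mul_le_mul_of_nonneg_right _ (by positivity)
            rw [Nat.card_Icc]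
            have : G + 1 - 2 ≤ G := by omega
            exact_mod_cast this
        _ ≤ L ^ B * (L ^ B * (X / L ^ A')) := by gcongr
        _ = (1 / L) * (X / L ^ A) := by
            rw [hA', pow_add, pow_add, pow_one, two_mul, pow_add]
            field_simp
        _ ≤ (1 / 4) * (X / L ^ A) := by
            apply mul_le_mul_of_nonneg_right _ hXA.le
            apply one_div_le_one_div_of_le (by norm_num)
            linarith
    -- large part
    set W := ⌈X ^ ((1:ℝ) / 3)⌉₊ with hW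
    have hX13 : 1 ≤ X ^ ((1:ℝ) / 3) := Real.one_le_rpow hX1 (by norm_num)
    have hW1 : X ^ ((1:ℝ) / 3) ≤ W := Nat.le_ceil _
    have hW2 : (W : ℝ) ≤ 2 * X ^ ((1:ℝ) / 3) := by
      have := Nat.ceil_lt_add_one (show 0 ≤ X ^ ((1:ℝ) / 3) by positivity)
      linarith
    have hW3 : 1 ≤ W := by
      have : (1:ℝ) ≤ W := hX13.trans hW1
      exact_mod_cast this
    have hSsub : S ⊆ Icc 2 F := filter_subset _ _
    have hlarge : ∑ f ∈ S, Sg f ≤
        (∑ f ∈ S, v f * ∑ _ψ ∈ Prim f, 8 * (W:ℝ) * Qf f * L ^ 2) + ∑ f ∈ S, v f * T2 X W f := by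
      rw [← sum_add_distrib]
      apply sum_le_sum
      intro f hf
      have hf2 := hSsub hf
      rw [mem_Icc] at hf2
      unfold T2
      rw [← mul_add, ← sum_add_distrib]
      rw [hSg]
      apply mul_le_mul_of_nonneg_left _ (hv0 f)
      apply sum_le_sum
      intro ψ hψ
      exact psiLog_split X hX1 W f hW3 hf2.1 ψ hψ
    -- type I
    have hFX : (F:ℝ) ≤ X := by
      refine hF.trans ?_
      calc X ^ (1 / 3 - 4 * e) ≤ X ^ (1:ℝ) := Real.rpow_le_rpow_of_exponent_le hX1 (by linarith)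
        _ = X := Real.rpow_one X
    have hI : ∑ f ∈ S, v f * ∑ _ψ ∈ Prim f, 8 * (W:ℝ) * Qf f * L ^ 2 ≤ (1 / 4) * (X / L ^ A) := by
      have h8 : ∀ f ∈ S, v f * ∑ _ψ ∈ Prim f, 8 * (W:ℝ) * Qf f * L ^ 2 ≤
          (F:ℝ) ^ (1 + e) * (8 * W * (1 + L) * L ^ 2) := by
        intro f hf
        have hf2 := hSsub hf
        rw [mem_Icc] at hf2
        have hf0 : (0:ℝ) < f := by exact_mod_cast (by omega : 0 < f)
        have hf1 : (1:ℝ) ≤ f := by exact_mod_cast (by omega : 1 ≤ f)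
        have hfF : (f:ℝ) ≤ F := by exact_mod_cast hf2.2
        have hlf : Real.log f ≤ L := Real.log_le_log hf0 (hfF.trans hFX)
        have hlf0 : 0 ≤ Real.log f := Real.log_nonneg hf1
        have hφ : (Nat.totient f : ℝ) ≤ f := by exact_mod_cast Nat.totient_le f
        have hQ : Qf f ≤ Real.sqrt f * (1 + L) := by
          unfold Qf
          gcongr
        have hQ0 : 0 ≤ Qf f := by unfold Qf; positivity
        rw [sum_const, nsmul_eq_mul]
        calc v f * (((Prim f).card : ℝ) * (8 * W * Qf f * L ^ 2)) ≤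
            v f * ((f:ℝ) * (8 * W * (Real.sqrt f * (1 + L)) * L ^ 2)) := by
              apply mul_le_mul_of_nonneg_left _ (hv0 f)
              apply mul_le_mul ((card_prim_le (by omega)).trans hφ) _ (by positivity) hf0.le
              gcongr
          _ = ((f:ℝ) ^ (e - 1 / 2) * f * (f:ℝ) ^ ((1:ℝ) / 2)) * (8 * W * (1 + L) * L ^ 2) := by
              rw [hv, Real.sqrt_eq_rpow]; ring
          _ = (f:ℝ) ^ (1 + e) * (8 * W * (1 + L) * L ^ 2) := by
              congr 1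
              rw [← Real.rpow_add_one hf0.ne', ← Real.rpow_add hf0]
              congr 1; ring
          _ ≤ _ := by gcongr
      have hcard : ((S.card : ℕ) : ℝ) ≤ F := by
        have h9 := card_le_card hSsub
        rw [Nat.card_Icc] at h9
        have : S.card ≤ F := by omega
        exact_mod_cast this
      rcases Nat.eq_zero_or_pos F with hF0 | hF0
      · have : S = ∅ := by
          rw [← subset_empty]
          refine hSsub.trans ?_
          rw [hF0]; simp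
        rw [this, sum_empty]
        positivity
      have hF0r : (0:ℝ) < F := by exact_mod_cast hF0
      have hexp : (F:ℝ) * (F:ℝ) ^ (1 + e) * W ≤ 2 * X ^ (1 - e) := by
        have e1 : (F:ℝ) * (F:ℝ) ^ (1 + e) = (F:ℝ) ^ (2 + e) := by
          rw [mul_comm, ← Real.rpow_add_one hF0r.ne']
          congr 1; ring
        rw [e1]
        calc (F:ℝ) ^ (2 + e) * W ≤ (X ^ (1 / 3 - 4 * e)) ^ (2 + e) * (2 * X ^ ((1:ℝ) / 3)) := by
              gcongr
          _ = 2 * X ^ ((1 / 3 - 4 * e) * (2 + e) + 1 / 3) := by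
              rw [← Real.rpow_mul hX0.le, Real.rpow_add hX0]; ring
          _ ≤ 2 * X ^ (1 - e) := by
              apply mul_le_mul_of_nonneg_left _ (by norm_num)
              apply Real.rpow_le_rpow_of_exponent_le hX1
              nlinarith
      have hXd' : X ^ (1 - e) = X / X ^ e := by rw [Real.rpow_sub hX0, Real.rpow_one]
      have hXe : 0 < X ^ e := by positivity
      calc ∑ f ∈ S, v f * ∑ _ψ ∈ Prim f, 8 * (W:ℝ) * Qf f * L ^ 2 ≤
          ∑ f ∈ S, (F:ℝ) ^ (1 + e) * (8 * W * (1 + L) * L ^ 2) := sum_le_sum h8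
        _ = (S.card : ℝ) * ((F:ℝ) ^ (1 + e) * (8 * W * (1 + L) * L ^ 2)) := by
            rw [sum_const, nsmul_eq_mul]
        _ ≤ F * ((F:ℝ) ^ (1 + e) * (8 * W * (1 + L) * L ^ 2)) := by gcongr
        _ = 8 * (1 + L) * L ^ 2 * (F * (F:ℝ) ^ (1 + e) * W) := by ring
        _ ≤ 8 * (L + L) * L ^ 2 * (2 * (X / X ^ e)) := by
            rw [← hXd']
            gcongr
        _ = (1 / 4) * ((4 * 32 * L ^ (3 + A)) / X ^ e) * (X / L ^ A) := by
            rw [pow_add]
            field_simp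
            ring
        _ ≤ (1 / 4) * 1 * (X / L ^ A) := by
            gcongr
            rw [div_le_one hXe]
            exact h5
        _ = _ := by ring
    -- type II
    have hII : ∑ f ∈ S, v f * T2 X W f ≤ (1 / 2) * (X / L ^ A) := by
      have h8 := T2_total X e B' h2 hL1 he he2 W hW1 hW2 S (by
        intro f hf
        rw [hS, mem_filter, mem_Icc] at hf
        refine ⟨hf.1.1, ?_, ?_⟩
        · rw [← hL, ← hB]
          have : L ^ B < f := Nat.lt_of_floor_lt hf.2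
          exact this.le
        · calc (f:ℝ) ≤ F := by exact_mod_cast hf.1.2
            _ ≤ _ := hF)
      rw [← hL] at h8
      refine h8.trans ?_
      have hL6 : (1 + L) ^ 6 ≤ 64 * L ^ 6 := by
        calc (1 + L) ^ 6 ≤ (2 * L) ^ 6 := pow_le_pow_left₀ (by linarith) (by linarith) 6
          _ = 64 * L ^ 6 := by ring
      have hXd' : X ^ (1 - e) = X / X ^ e := by rw [Real.rpow_sub hX0, Real.rpow_one]
      have hXd0 : 0 < X ^ e := by positivity
      have e1 : 24 * (64 * L ^ 6) * (2 * X / L ^ B') ≤ (1 / 4) * (X / L ^ A) := by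
        calc 24 * (64 * L ^ 6) * (2 * X / L ^ B') = (3072 / L) * (X / L ^ A) := by
              rw [hB', pow_add]
              field_simp
              ring
          _ ≤ (1 / 4) * (X / L ^ A) := by
              apply mul_le_mul_of_nonneg_right _ hXA.le
              rw [div_le_iff₀ hL0]
              linarith
      have e2 : 24 * (64 * L ^ 6) * (12 * X ^ (1 - e)) ≤ (1 / 4) * (X / L ^ A) := by
        calc 24 * (64 * L ^ 6) * (12 * X ^ (1 - e)) =
            (1 / 4) * ((4 * 18432 * L ^ (6 + A)) / X ^ e) * (X / L ^ A) := by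
              rw [hXd', pow_add]
              field_simp
              ring
          _ ≤ (1 / 4) * 1 * (X / L ^ A) := by
              gcongr
              rw [div_le_one hXd0]
              exact h4
          _ = _ := by ring
      calc 24 * (1 + L) ^ 6 * (2 * X / L ^ B' + 12 * X ^ (1 - e)) ≤
          24 * (64 * L ^ 6) * (2 * X / L ^ B' + 12 * X ^ (1 - e)) := by gcongr
        _ = 24 * (64 * L ^ 6) * (2 * X / L ^ B') + 24 * (64 * L ^ 6) * (12 * X ^ (1 - e)) := by ring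
        _ ≤ _ := by linarith
    linarith
  exact eventually_atTop.1 ev

/-- primes in progressions to sparse sets of moduli, log-weighted -/
theorem bv_sparse (e : ℝ) (he : 0 < e) (he2 : e ≤ 1 / 16) (A : ℕ) :
    ∃ X₀ : ℝ, ∀ X : ℝ, X₀ ≤ X → ∀ (T : Finset ℕ) (m a : ℕ → ℕ) (W0 : ℝ), 0 ≤ W0 →
      (∀ t ∈ T, 1 ≤ m t ∧ (m t : ℝ) ≤ X ^ (1 / 3 - 4 * e) ∧ (a t).Coprime (m t)) →
      (∀ f : ℕ, 2 ≤ f → (∃ t ∈ T, f ∣ m t) →
        ∑ t ∈ T.filter (fun t => f ∣ m t), 1 / (Nat.totient (m t) : ℝ) ≤ W0 * (f:ℝ) ^ (e - 1 / 2)) →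
      ∑ t ∈ T, |psiLogAP X (m t) (a t) - psiLog1 X / (Nat.totient (m t) : ℝ)| ≤
        W0 * (X / (Real.log X) ^ A) + T.card * (4 * Real.log X ^ 3) := by
  classical
  obtain ⟨X₀, hX₀⟩ := chars_total e he he2 A
  refine ⟨max X₀ 3, ?_⟩
  intro X hX T m a W0 hW0 hT hw
  have hXX : X₀ ≤ X := (le_max_left _ _).trans hX
  have hX3 : 3 ≤ X := (le_max_right _ _).trans hX
  have hX1 : 1 ≤ X := by linarith
  set F := ⌊X ^ (1 / 3 - 4 * e)⌋₊ with hF
  have hFle : (F:ℝ) ≤ X ^ (1 / 3 - 4 * e) := Nat.floor_le (by positivity)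
  have h1 := hX₀ X hXX F hFle
  have hL0 : 0 ≤ Real.log X := Real.log_nonneg hX1
  set g : ℕ → ℝ := fun f => ∑ ψ ∈ Prim f, ‖psiLog X f ψ‖ with hg
  have hg0 : ∀ f, 0 ≤ g f := fun f => sum_nonneg fun _ _ => norm_nonneg _
  have hpt : ∀ t ∈ T, |psiLogAP X (m t) (a t) - psiLog1 X / (Nat.totient (m t) : ℝ)| ≤
      (∑ f ∈ Icc 2 F, if f ∣ m t then (1 / (Nat.totient (m t) : ℝ)) * g f else 0) +
        4 * Real.log X ^ 3 := by
    intro t ht
    obtain ⟨h2, h3, h4⟩ := hT t ht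
    have h5 := disc_le X hX1 (m t) (a t) h2 h4
    refine h5.trans (add_le_add ?_ ?_)
    · rw [mul_sum, ← sum_filter]
      apply sum_le_sum_of_subset_of_nonneg
      · intro f hf
        rw [mem_filter, Nat.mem_divisors] at hf
        rw [mem_filter, mem_Icc]
        have hf0 : 0 < f := Nat.pos_of_dvd_of_pos hf.1.1 (by omega)
        refine ⟨⟨by omega, ?_⟩, hf.1.1⟩
        have h6 : f ≤ m t := Nat.le_of_dvd (by omega) hf.1.1
        apply Nat.le_floor
        exact le_trans (by exact_mod_cast h6) h3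
      · intro f _ _
        exact mul_nonneg (by positivity) (hg0 f)
    · have h6 := omega_le_log (m t) h2
      have h7 : (m t : ℝ) ≤ X := by
        refine h3.trans ?_
        calc X ^ (1 / 3 - 4 * e) ≤ X ^ (1:ℝ) := Real.rpow_le_rpow_of_exponent_le hX1 (by linarith)
          _ = X := Real.rpow_one X
      have h8 : Real.log (m t) ≤ Real.log X := Real.log_le_log (by exact_mod_cast h2) h7
      have h9 : ((m t).primeFactors.card : ℝ) ≤ 2 * Real.log X := by linarith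
      calc 2 * (((m t).primeFactors.card : ℝ) * Real.log X ^ 2) ≤
          2 * ((2 * Real.log X) * Real.log X ^ 2) := by gcongr
        _ = _ := by ring
  refine (sum_le_sum hpt).trans ?_
  rw [sum_add_distrib, sum_const, nsmul_eq_mul]
  apply add_le_add _ le_rfl
  rw [sum_comm]
  have h2 : ∀ f ∈ Icc 2 F, ∑ t ∈ T, (if f ∣ m t then (1 / (Nat.totient (m t) : ℝ)) * g f else 0) ≤
      W0 * ((f:ℝ) ^ (e - 1 / 2) * g f) := by
    intro f hf
    rw [mem_Icc] at hf
    rw [← sum_filter, ← sum_mul, ← mul_assoc]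
    apply mul_le_mul_of_nonneg_right _ (hg0 f)
    by_cases hex : ∃ t ∈ T, f ∣ m t
    · exact hw f hf.1 hex
    · have : T.filter (fun t => f ∣ m t) = ∅ := by
        rw [filter_eq_empty_iff]
        intro t ht h
        exact hex ⟨t, ht, h⟩
      rw [this, sum_empty]
      positivity
  refine (sum_le_sum h2).trans ?_
  rw [← mul_sum]
  exact mul_le_mul_of_nonneg_left h1 hW0

end Pool.Agent.Helper24K9.EL
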