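import Mathlib
import Pool.Agent.Helper24K9.EL.BVS
import Pool.Agent.H343R2.EH.Primes
import Pool.Agent.H343R2.EH.Unsmooth
import Pool.Agent.Helper507.PNT

set_option autoImplicit false

/-! Lower bound for the number of primes in progressions to sparse sets of moduli. -/

open Finset Filter Topology

namespace Pool.Agent.Helper24K9.EL

open Pool.Agent.H398R2.BV Pool.Agent.H410R2 H343E

theorem psi1_ge (η : ℝ) (hη : 0 < η) : ∃ x₀ : ℝ, ∀ x : ℝ, x₀ ≤ x → (1 - η) * x ≤ psi1 x := by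
  have h := Helper507.PNT.psi_div_tendsto.eventually (Ici_mem_nhds (show 1 - η < 1 by linarith))
  obtain ⟨x₀, hx₀⟩ := eventually_atTop.1 h
  refine ⟨max x₀ 1, fun x hx => ?_⟩
  have h1 := hx₀ x ((le_max_left _ _).trans hx)
  have hx0 : 0 < x := lt_of_lt_of_le one_pos ((le_max_right _ _).trans hx)
  replace h1 : 1 - η ≤ Chebyshev.psi x / x := h1
  rw [le_div_iff₀ hx0] at h1
  refine h1.trans (le_of_eq ?_)
  unfold Chebyshev.psi psi1
  rfl

theorem NPa_le_NP (x q a : ℕ) : NPa x q a ≤ NP x := by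
  unfold NPa NP
  apply sum_le_sum_of_subset_of_nonneg
  · intro m hm
    rw [mem_filter] at hm ⊢
    exact ⟨hm.1, hm.2.1⟩
  · intro m _ _
    exact div_nonneg ArithmeticFunction.vonMangoldt_nonneg (Real.log_natCast_nonneg m)

theorem piAP_ge (X m a : ℕ) (hX : 2 ≤ X) :
    psiAP X m a ≤ Real.log X * (piAP X m a + 3 * (√(X : ℝ) * Real.log X)) := by
  have hXr : (2:ℝ) ≤ X := by exact_mod_cast hX
  have hL : 0 ≤ Real.log X := Real.log_nonneg (by linarith)
  have h1 : psiAP X m a ≤ Real.log X * ∑ n ∈ Icc 2 X, ArithmeticFunction.vonMangoldt n *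
      (if n ≡ a [MOD m] then 1 else 0) / Real.log n := by
    unfold psiAP
    rw [Nat.floor_natCast, sum_filter, mul_sum]
    have hI : Icc 1 X = insert 1 (Icc 2 X) := by
      ext n; simp only [mem_insert, mem_Icc]; omega
    rw [hI, sum_insert (by simp)]
    have h0 : (if 1 ≡ a [MOD m] then ArithmeticFunction.vonMangoldt 1 else (0:ℝ)) = 0 := by
      simp
    rw [h0, zero_add]
    apply sum_le_sum
    intro n hn
    rw [mem_Icc] at hn
    have hn2 : (2:ℝ) ≤ n := by exact_mod_cast hn.1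
    have hln : 0 < Real.log n := Real.log_pos (by linarith)
    have hlnX : Real.log n ≤ Real.log X := Real.log_le_log (by linarith) (by exact_mod_cast hn.2)
    split_ifs
    · rw [mul_one, ← mul_div_assoc, le_div_iff₀ hln, mul_comm (Real.log X)]
      exact mul_le_mul_of_nonneg_left hlnX ArithmeticFunction.vonMangoldt_nonneg
    · simp
  refine h1.trans ?_
  rw [piAP_split]
  apply mul_le_mul_of_nonneg_left _ hL
  have h2 := NPa_le_NP X m a
  have h3 := NP_le X (by omega)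
  linarith

/-- Lower bound for the primes in the classes `a t` to the moduli `m t`. -/
theorem primes_low (e : ℝ) (he : 0 < e) (he2 : e ≤ 1 / 20) (A : ℕ) (η : ℝ) (hη : 0 < η) (hη2 : η ≤ 1 / 4) :
    ∃ X₁ : ℕ, ∀ X : ℕ, X₁ ≤ X → ∀ (T : Finset ℕ) (m a : ℕ → ℕ) (W0 : ℝ), 0 ≤ W0 →
      (∀ t ∈ T, 1 ≤ m t ∧ (m t : ℝ) ≤ (X:ℝ) ^ (1 / 3 - 5 * e) ∧ (a t).Coprime (m t)) →
      (∀ f : ℕ, 2 ≤ f → (∃ t ∈ T, f ∣ m t) →
        ∑ t ∈ T.filter (fun t => f ∣ m t), 1 / (Nat.totient (m t) : ℝ) ≤ W0 * (f:ℝ) ^ (e - 1 / 2)) →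
      (1 - 3 * η) * (X / Real.log X) * (∑ t ∈ T, 1 / (Nat.totient (m t) : ℝ)) -
        W0 * (X / (Real.log X) ^ A) - T.card * (√(X : ℝ) * Real.log X ^ 3) ≤
      ∑ t ∈ T, piAP X (m t) (a t) := by
  classical
  obtain ⟨X₀, hX₀⟩ := bv_sparse e he (by linarith) (A + 1)
  obtain ⟨x₁, hx₁⟩ := psi1_ge η hη
  have hlog : Tendsto Real.log atTop atTop := Real.tendsto_log_atTop
  have hexp0 : 0 < Real.exp (-η) := Real.exp_pos _
  have ht : Tendsto (fun X : ℝ => X * Real.exp (-η)) atTop atTop :=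
    tendsto_id.atTop_mul_const hexp0
  have ev : ∀ᶠ X : ℝ in atTop, X₀ ≤ X ∧ X₀ ≤ X * Real.exp (-η) ∧ x₁ ≤ X * Real.exp (-η) ∧ 4 ≤ X ∧
      2 * η ≤ Real.log X ∧ (2 / η) * 2 ^ (A + 1) ≤ Real.log X ∧ 8 / η + 3 ≤ Real.log X ∧
      1 ≤ X ^ (e / 2) * (Real.exp (-η)) ∧ (1:ℝ) ≤ Real.log X := by
    filter_upwards [eventually_ge_atTop X₀, ht.eventually_ge_atTop X₀, ht.eventually_ge_atTop x₁,
      eventually_ge_atTop (4:ℝ), hlog.eventually_ge_atTop (2 * η),
      hlog.eventually_ge_atTop ((2 / η) * 2 ^ (A + 1)), hlog.eventually_ge_atTop (8 / η + 3),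
      ((tendsto_rpow_atTop (show 0 < e / 2 by positivity)).atTop_mul_const hexp0).eventually_ge_atTop 1,
      hlog.eventually_ge_atTop 1]
      with X h1 h2 h3 h4 h5 h6 h7 h8 h9
    exact ⟨h1, h2, h3, h4, h5, h6, h7, h8, h9⟩
  obtain ⟨X₁, hX₁⟩ := eventually_atTop.1 (tendsto_natCast_atTop_atTop (R := ℝ) |>.eventually ev)
  refine ⟨X₁, ?_⟩
  intro X hX T m a W0 hW0 hT hw
  obtain ⟨g1, g2, g3, g4, g5, g6, g7, g8, g9⟩ := hX₁ X hX
  have hX2 : 2 ≤ X := by
    have : (2:ℝ) ≤ X := by linarith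
    exact_mod_cast this
  set x' : ℝ := X * Real.exp (-η) with hx'
  have hX0 : (0:ℝ) < X := by linarith
  have hX1 : (1:ℝ) ≤ X := by linarith
  have hx'0 : 0 < x' := by positivity
  have hback : x' * Real.exp η = X := by
    rw [hx', mul_assoc, ← Real.exp_add]; simp
  have hx'X : x' ≤ X := by
    rw [hx']
    have : Real.exp (-η) ≤ 1 := Real.exp_le_one_iff.2 (by linarith)
    nlinarith
  set L := Real.log X with hL
  have hL0 : 0 < L := by linarith
  have hlx' : Real.log x' = L - η := by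
    rw [hx', Real.log_mul hX0.ne' hexp0.ne', Real.log_exp]; ring
  -- the two error sums
  have E1 := hX₀ X g1 T m a W0 hW0 (fun t ht => by
    obtain ⟨h1, h2, h3⟩ := hT t ht
    refine ⟨h1, h2.trans ?_, h3⟩
    exact Real.rpow_le_rpow_of_exponent_le hX1 (by linarith)) hw
  have E2 := hX₀ x' g2 T m a W0 hW0 (fun t ht => by
    obtain ⟨h1, h2, h3⟩ := hT t ht
    refine ⟨h1, h2.trans ?_, h3⟩
    have hs : 0 < 1 / 3 - 4 * e := by linarith
    have h4 : (X:ℝ) ^ (1 / 3 - 5 * e) ≤ (X:ℝ) ^ (1 / 3 - 4 * e) * ((X:ℝ) ^ (e / 2) * ((X:ℝ) ^ (e / 2)))⁻¹ := by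
      rw [← Real.rpow_add hX0, ← Real.rpow_neg hX0.le, ← Real.rpow_add hX0]
      apply Real.rpow_le_rpow_of_exponent_le hX1
      linarith
    refine h4.trans ?_
    have h5 : x' ^ (1 / 3 - 4 * e) = (X:ℝ) ^ (1 / 3 - 4 * e) * Real.exp (-η) ^ (1 / 3 - 4 * e) := by
      rw [hx', Real.mul_rpow hX0.le hexp0.le]
    rw [h5]
    apply mul_le_mul_of_nonneg_left _ (by positivity)
    have h6 : Real.exp (-η) ≤ Real.exp (-η) ^ (1 / 3 - 4 * e) := by
      rw [← Real.exp_mul]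
      apply Real.exp_le_exp.2
      nlinarith
    refine le_trans ?_ h6
    rw [inv_le_comm₀ (by positivity) hexp0]
    have h7 : (Real.exp (-η))⁻¹ ≤ (X:ℝ) ^ (e / 2) := by
      rw [inv_le_iff_one_le_mul₀ hexp0]
      exact g8
    have h8 : 1 ≤ (X:ℝ) ^ (e / 2) := Real.one_le_rpow hX1 (by positivity)
    calc (Real.exp (-η))⁻¹ ≤ (X:ℝ) ^ (e / 2) := h7
      _ = (X:ℝ) ^ (e / 2) * 1 := (mul_one _).symm
      _ ≤ _ := mul_le_mul_of_nonneg_left h8 (by positivity)) hw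
  set S1 : ℝ := ∑ t ∈ T, 1 / (Nat.totient (m t) : ℝ) with hS1
  have hS10 : 0 ≤ S1 := sum_nonneg fun t _ => by positivity
  -- pointwise
  have hpt : ∀ t ∈ T, η * (1 - η) * x' * (1 / (Nat.totient (m t) : ℝ)) -
      |psiLogAP X (m t) (a t) - psiLog1 X / (Nat.totient (m t) : ℝ)| -
      |psiLogAP x' (m t) (a t) - psiLog1 x' / (Nat.totient (m t) : ℝ)| ≤
      η * L * (piAP X (m t) (a t) + 3 * (√(X : ℝ) * L)) := by
    intro t ht
    have a1 := (psiLP_diff (fun n => n ≡ a t [MOD m t]) hx'0 hη).2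
    have b1 := (psiLP_diff (fun _ => True) hx'0 hη).1
    rw [hback] at a1 b1
    simp only [← psiAP_eq, ← psiLogAP_eq, ← psi1_eq, ← psiLog1_eq] at a1 b1
    have c1 := piAP_ge X (m t) (a t) hX2
    have c2 := hx₁ x' g3
    set Φ : ℝ := 1 / (Nat.totient (m t) : ℝ) with hΦ
    have hΦ0 : 0 ≤ Φ := by positivity
    have d1 : η * (1 - η) * x' * Φ ≤ (psiLog1 X - psiLog1 x') * Φ := by
      apply mul_le_mul_of_nonneg_right _ hΦ0
      calc η * (1 - η) * x' = η * ((1 - η) * x') := by ring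
        _ ≤ η * psi1 x' := by gcongr
        _ ≤ _ := b1
    have d2 : psiLog1 X / (Nat.totient (m t) : ℝ) = psiLog1 X * Φ := by rw [hΦ]; ring
    have d3 : psiLog1 x' / (Nat.totient (m t) : ℝ) = psiLog1 x' * Φ := by rw [hΦ]; ring
    rw [d2, d3]
    have d4 := neg_abs_le (psiLogAP X (m t) (a t) - psiLog1 X * Φ)
    have d5 := le_abs_self (psiLogAP x' (m t) (a t) - psiLog1 x' * Φ)
    have d6 : η * psiAP X (m t) (a t) ≤ η * L * (piAP X (m t) (a t) + 3 * (√(X : ℝ) * L)) := by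
      calc η * psiAP X (m t) (a t) ≤ η * (L * (piAP X (m t) (a t) + 3 * (√(X : ℝ) * L))) := by
            apply mul_le_mul_of_nonneg_left c1 hη.le
        _ = _ := by ring
    linarith
  have hsum := sum_le_sum hpt
  rw [sum_sub_distrib, sum_sub_distrib, ← mul_sum, ← hS1, ← mul_sum, sum_add_distrib, sum_const,
    nsmul_eq_mul] at hsum
  -- error sizes
  have hLA : 0 < L ^ A := by positivity
  have r1 : (X:ℝ) / L ^ (A + 1) ≤ (η / 2) * (X / L ^ A) := by
    rw [pow_succ, ← div_div]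
    have h1 : (2:ℝ) / η ≤ L := by
      have h2 : (1:ℝ) ≤ 2 ^ (A + 1) := one_le_pow₀ (by norm_num)
      have h3 : 0 < 2 / η := by positivity
      nlinarith
    rw [div_le_iff₀ hL0]
    have h2 : 2 ≤ L * η := by rwa [div_le_iff₀ hη] at h1
    have h3 : 0 ≤ (X:ℝ) / L ^ A := by positivity
    calc (X:ℝ) / L ^ A = 1 * (X / L ^ A) := by ring
      _ ≤ (L * η / 2) * (X / L ^ A) := by
          apply mul_le_mul_of_nonneg_right _ h3; linarith
      _ = _ := by ring
  have hlx'2 : L / 2 ≤ Real.log x' := by rw [hlx']; linarith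
  have r2 : x' / Real.log x' ^ (A + 1) ≤ (η / 2) * (X / L ^ A) := by
    calc x' / Real.log x' ^ (A + 1) ≤ X / (L / 2) ^ (A + 1) := by
          apply div_le_div₀ hX0.le hx'X (by positivity)
          exact pow_le_pow_left₀ (by linarith) hlx'2 _
      _ = (2 ^ (A + 1) / L) * (X / L ^ A) := by
          rw [div_pow, pow_succ L]; field_simp
      _ ≤ (η / 2) * (X / L ^ A) := by
          apply mul_le_mul_of_nonneg_right _ (by positivity)
          rw [div_le_iff₀ hL0]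
          have h1 : (2 / η) * 2 ^ (A + 1) * (η / 2) = 2 ^ (A + 1) := by field_simp
          rw [← h1]
          calc (2 / η) * 2 ^ (A + 1) * (η / 2) ≤ L * (η / 2) := by gcongr
            _ = _ := by ring
  have hlx'L : Real.log x' ≤ L := by rw [hlx']; linarith
  have hlx'0 : 0 ≤ Real.log x' := by linarith
  have r3 : Real.log x' ^ 3 ≤ L ^ 3 := pow_le_pow_left₀ hlx'0 hlx'L 3
  have hTc : (0:ℝ) ≤ T.card := Nat.cast_nonneg _
  have E1' : ∑ t ∈ T, |psiLogAP X (m t) (a t) - psiLog1 X / (Nat.totient (m t) : ℝ)| ≤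
      W0 * ((η / 2) * (X / L ^ A)) + T.card * (4 * L ^ 3) := by
    refine E1.trans ?_
    gcongr
  have E2' : ∑ t ∈ T, |psiLogAP x' (m t) (a t) - psiLog1 x' / (Nat.totient (m t) : ℝ)| ≤
      W0 * ((η / 2) * (X / L ^ A)) + T.card * (4 * L ^ 3) := by
    refine E2.trans ?_
    gcongr
  have hx'low : (1 - η) * X ≤ x' := by
    rw [hx', mul_comm]
    apply mul_le_mul_of_nonneg_left _ hX0.le
    have := Real.add_one_le_exp (-η)
    linarith
  have hmain : η * ((1 - 3 * η) * X * S1) ≤ η * (1 - η) * x' * S1 := by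
    have h1 : (1 - 3 * η) * X ≤ (1 - η) * x' := by
      calc (1 - 3 * η) * X ≤ (1 - η) * ((1 - η) * X) := by nlinarith [sq_nonneg η]
        _ ≤ _ := mul_le_mul_of_nonneg_left hx'low (by linarith)
    calc η * ((1 - 3 * η) * X * S1) = (η * S1) * ((1 - 3 * η) * X) := by ring
      _ ≤ (η * S1) * ((1 - η) * x') := mul_le_mul_of_nonneg_left h1 (by positivity)
      _ = _ := by ring
  set P := ∑ t ∈ T, piAP X (m t) (a t) with hP
  have hcomb : η * ((1 - 3 * η) * X * S1) - (W0 * (η * (X / L ^ A)) + T.card * (8 * L ^ 3)) ≤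
      η * L * (P + T.card * (3 * (√(X : ℝ) * L))) := by linarith
  have hηL : 0 < η * L := by positivity
  have hdiv : (η * ((1 - 3 * η) * X * S1) - (W0 * (η * (X / L ^ A)) + T.card * (8 * L ^ 3))) / (η * L) ≤
      P + T.card * (3 * (√(X : ℝ) * L)) := by
    rw [div_le_iff₀ hηL]; linarith
  have e1 : (η * ((1 - 3 * η) * X * S1) - (W0 * (η * (X / L ^ A)) + T.card * (8 * L ^ 3))) / (η * L) =
      (1 - 3 * η) * (X / L) * S1 - W0 * (X / L ^ A) / L - T.card * ((8 / η) * L ^ 2) := by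
    field_simp
    ring
  rw [e1] at hdiv
  have hsq : 1 ≤ √(X : ℝ) := by rw [Real.one_le_sqrt]; exact hX1
  have s1 : W0 * (X / L ^ A) / L ≤ W0 * (X / L ^ A) := div_le_self (by positivity) g9
  have s2 : (T.card : ℝ) * ((8 / η) * L ^ 2) + T.card * (3 * (√(X : ℝ) * L)) ≤ T.card * (√(X : ℝ) * L ^ 3) := by
    rw [← mul_add]
    apply mul_le_mul_of_nonneg_left _ hTc
    have h1 : (8 / η) * L ^ 2 ≤ (8 / η) * (√(X : ℝ) * L ^ 2) := by
      apply mul_le_mul_of_nonneg_left _ (by positivity)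
      have : 0 ≤ L ^ 2 := by positivity
      nlinarith
    have h2 : 3 * (√(X : ℝ) * L) ≤ 3 * (√(X : ℝ) * L ^ 2) := by
      apply mul_le_mul_of_nonneg_left _ (by norm_num)
      apply mul_le_mul_of_nonneg_left _ (by positivity)
      nlinarith
    calc (8 / η) * L ^ 2 + 3 * (√(X : ℝ) * L) ≤ (8 / η + 3) * (√(X : ℝ) * L ^ 2) := by linarith
      _ ≤ L * (√(X : ℝ) * L ^ 2) := by gcongr
      _ = _ := by ring
  linarith

end Pool.Agent.Helper24K9.EL
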