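import Mathlib
import Pool.Agent.Erdos456.Tot
import Pool.Agent.H398R2.BA1
import Pool.Agent.H373R2.T4.DivB

set_option autoImplicit false

/-! Lines `h + k g` in the space of the coefficients of quadratic polynomials: basic facts. -/

open Finset Filter Topology

namespace Pool.Agent.Helper24K9.EL

open Pool.Agent.Erdos456

/-- a line `h + k g`, `g = α t² + β t + γ`, `h = a t² + b t + c` -/
structure Ln where
  α : ℤ
  β : ℤ
  γ : ℤ
  a : ℤ
  b : ℤ
  c : ℤ
  hg : 0 < α ∨ (α = 0 ∧ 0 < β ∧ 0 < a)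
  hR : (α * c - γ * a) ^ 2 ≠ (α * b - β * a) * (β * c - γ * b)

namespace Ln

variable (l : Ln)

/-- the values of `g` -/
def G (t : ℕ) : ℤ := l.α * (t : ℤ) ^ 2 + l.β * t + l.γ

/-- the values of `h` -/
def H (t : ℕ) : ℤ := l.a * (t : ℤ) ^ 2 + l.b * t + l.c

/-- the values of `g` as natural numbers -/
def g (t : ℕ) : ℕ := (l.G t).toNat

/-- the sum of the absolute values of the coefficients of `g` and `h` -/
def S : ℕ := l.α.natAbs + l.β.natAbs + l.γ.natAbs + l.a.natAbs + l.b.natAbs + l.c.natAbs + 1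

/-- from here on all is positive and increasing -/
def t0 : ℕ := 2 * l.S

/-- from here on `k g + h` is nonnegative -/
def k0 : ℕ := 2 * l.S

lemma abs_le_S : |l.α| + |l.β| + |l.γ| + |l.a| + |l.b| + |l.c| + 1 = (l.S : ℤ) := by
  unfold S
  push_cast
  simp only [Int.natCast_natAbs]

lemma S_pos : (1 : ℤ) ≤ l.S := by
  rw [← abs_le_S]
  have := abs_nonneg l.α
  have := abs_nonneg l.β
  have := abs_nonneg l.γ
  have := abs_nonneg l.a
  have := abs_nonneg l.b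
  have := abs_nonneg l.c
  linarith

lemma S_pos' : 1 ≤ l.S := by exact_mod_cast l.S_pos

/-- `2 G t ≥ t² ` if `α > 0` -/
lemma two_G_ge_sq (h : 0 < l.α) {t : ℕ} (ht : l.t0 ≤ t) : (t : ℤ) ^ 2 ≤ 2 * l.G t := by
  have hS := l.abs_le_S
  have h1 : (2 * l.S : ℤ) ≤ t := by exact_mod_cast ht
  have hb := neg_abs_le l.β
  have hc := neg_abs_le l.γ
  have := abs_nonneg l.α
  have := abs_nonneg l.β
  have := abs_nonneg l.γ
  have := abs_nonneg l.a
  have := abs_nonneg l.b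
  have := abs_nonneg l.c
  have ht0 : (0 : ℤ) ≤ t := by positivity
  have ht1 : (1 : ℤ) ≤ t := by linarith [l.S_pos]
  unfold G
  have h2 : (t : ℤ) ^ 2 ≤ l.α * (t : ℤ) ^ 2 := by nlinarith [sq_nonneg (t : ℤ)]
  have h3 : -(|l.β| * t) ≤ l.β * t := by nlinarith
  have h4 : -(|l.γ| * t) ≤ l.γ := by nlinarith
  have h5 : 2 * (|l.β| + |l.γ|) * t ≤ (t : ℤ) ^ 2 := by nlinarith
  nlinarith

/-- `2 G t ≥ t` -/
lemma two_G_ge {t : ℕ} (ht : l.t0 ≤ t) : (t : ℤ) ≤ 2 * l.G t := by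
  rcases l.hg with h | ⟨h1, h2, h3⟩
  · have h1 := l.two_G_ge_sq h ht
    have h2 : (2 * l.S : ℤ) ≤ t := by exact_mod_cast ht
    have h3 := l.S_pos
    nlinarith
  · have hS := l.abs_le_S
    have h4 : (2 * l.S : ℤ) ≤ t := by exact_mod_cast ht
    have hc := neg_abs_le l.γ
    have := abs_nonneg l.α
    have := abs_nonneg l.β
    have := abs_nonneg l.γ
    have := abs_nonneg l.a
    have := abs_nonneg l.b
    have := abs_nonneg l.c
    have ht0 : (0 : ℤ) ≤ t := by positivity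
    unfold G
    rw [h1]
    nlinarith

lemma G_pos {t : ℕ} (ht : l.t0 ≤ t) : 1 ≤ l.G t := by
  have h1 := l.two_G_ge ht
  have h2 : (2 * l.S : ℤ) ≤ t := by exact_mod_cast ht
  have h3 := l.S_pos
  linarith

lemma g_cast {t : ℕ} (ht : l.t0 ≤ t) : ((l.g t : ℕ) : ℤ) = l.G t :=
  Int.toNat_of_nonneg (by have := l.G_pos ht; linarith)

lemma g_pos {t : ℕ} (ht : l.t0 ≤ t) : 1 ≤ l.g t := by
  have h1 := l.g_cast ht
  have h2 := l.G_pos ht
  rw [← h1] at h2
  exact_mod_cast h2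

lemma G_lt {s t : ℕ} (hs : l.t0 ≤ s) (hst : s < t) : l.G s < l.G t := by
  have hS := l.abs_le_S
  have h1 : (2 * l.S : ℤ) ≤ s := by exact_mod_cast hs
  have hst' : (s : ℤ) < t := by exact_mod_cast hst
  have hb := neg_abs_le l.β
  have := abs_nonneg l.α
  have := abs_nonneg l.β
  have := abs_nonneg l.γ
  have := abs_nonneg l.a
  have := abs_nonneg l.b
  have := abs_nonneg l.c
  have e : l.G t - l.G s = ((t : ℤ) - s) * (l.α * (t + s) + l.β) := by
    unfold G; ring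
  have h2 : 0 < l.α * ((t : ℤ) + s) + l.β := by
    rcases l.hg with h | ⟨h3, h4, h5⟩
    · nlinarith
    · rw [h3]; linarith
  have h3 : 0 < ((t : ℤ) - s) * (l.α * (t + s) + l.β) := mul_pos (by linarith) h2
  linarith

lemma G_le {s t : ℕ} (hs : l.t0 ≤ s) (hst : s ≤ t) : l.G s ≤ l.G t := by
  rcases hst.lt_or_eq with h | h
  · exact (l.G_lt hs h).le
  · rw [h]

lemma g_le {s t : ℕ} (hs : l.t0 ≤ s) (hst : s ≤ t) : l.g s ≤ l.g t := Int.toNat_le_toNat (l.G_le hs hst)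

lemma abs_H_le {t : ℕ} (ht : 1 ≤ t) : |l.H t| ≤ l.S * (t : ℤ) ^ 2 := by
  have hS := l.abs_le_S
  have ht' : (1 : ℤ) ≤ t := by exact_mod_cast ht
  have := abs_nonneg l.α
  have := abs_nonneg l.β
  have := abs_nonneg l.γ
  have := abs_nonneg l.a
  have := abs_nonneg l.b
  have := abs_nonneg l.c
  unfold H
  have ht2 : (t : ℤ) ≤ (t : ℤ) ^ 2 := by nlinarith
  have ht3 : (1 : ℤ) ≤ (t : ℤ) ^ 2 := by nlinarith
  calc |l.a * (t : ℤ) ^ 2 + l.b * t + l.c| ≤ |l.a * (t : ℤ) ^ 2| + |l.b * t| + |l.c| := by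
        exact (abs_add_le _ _).trans (add_le_add (abs_add_le _ _) le_rfl)
    _ = |l.a| * (t : ℤ) ^ 2 + |l.b| * t + |l.c| := by
        rw [abs_mul, abs_mul, abs_of_nonneg (show (0 : ℤ) ≤ (t : ℤ) ^ 2 by positivity),
          abs_of_nonneg (show (0 : ℤ) ≤ (t : ℤ) by positivity)]
    _ ≤ |l.a| * (t : ℤ) ^ 2 + |l.b| * (t : ℤ) ^ 2 + |l.c| * (t : ℤ) ^ 2 := by nlinarith
    _ ≤ l.S * (t : ℤ) ^ 2 := by rw [← hS]; nlinarith

lemma G_le_sq {t : ℕ} (ht : 1 ≤ t) : l.G t ≤ l.S * (t : ℤ) ^ 2 := by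
  have hS := l.abs_le_S
  have ht' : (1 : ℤ) ≤ t := by exact_mod_cast ht
  have := abs_nonneg l.α
  have := abs_nonneg l.β
  have := abs_nonneg l.γ
  have := abs_nonneg l.a
  have := abs_nonneg l.b
  have := abs_nonneg l.c
  have := le_abs_self l.α
  have := le_abs_self l.β
  have := le_abs_self l.γ
  unfold G
  have ht2 : (t : ℤ) ≤ (t : ℤ) ^ 2 := by nlinarith
  have ht3 : (1 : ℤ) ≤ (t : ℤ) ^ 2 := by nlinarith
  calc l.α * (t : ℤ) ^ 2 + l.β * t + l.γ ≤ |l.α| * (t : ℤ) ^ 2 + |l.β| * (t : ℤ) ^ 2 + |l.γ| * (t : ℤ) ^ 2 := by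
        nlinarith
    _ ≤ l.S * (t : ℤ) ^ 2 := by rw [← hS]; nlinarith

/-- `|H t| ≤ 2 S t G t` -/
lemma abs_H_le_G {t : ℕ} (ht : l.t0 ≤ t) : |l.H t| ≤ 2 * l.S * t * l.G t := by
  have hS1 := l.S_pos
  have h1 : (2 * l.S : ℤ) ≤ t := by exact_mod_cast ht
  have ht1 : 1 ≤ t := by
    have : (1 : ℤ) ≤ t := by linarith
    exact_mod_cast this
  have h2 := l.abs_H_le ht1
  have h3 := l.two_G_ge ht
  have ht0 : (0 : ℤ) ≤ l.S * t := by positivity
  nlinarith

/-- `k₀ G t + H t ≥ 0` -/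
lemma k0_spec {t : ℕ} (ht : l.t0 ≤ t) : 0 ≤ (l.k0 : ℤ) * l.G t + l.H t := by
  have hS1 := l.S_pos
  have h1 : (2 * l.S : ℤ) ≤ t := by exact_mod_cast ht
  have ht1 : 1 ≤ t := by
    have : (1 : ℤ) ≤ t := by linarith
    exact_mod_cast this
  have hk : (l.k0 : ℤ) = 2 * l.S := by unfold k0; push_cast; ring
  rw [hk]
  rcases l.hg with h | ⟨h2, h3, h4⟩
  · have h2 := l.abs_H_le ht1
    have h3 := l.two_G_ge_sq h ht
    have h4 := neg_abs_le (l.H t)
    nlinarith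
  · have hG := l.G_pos ht
    have hS := l.abs_le_S
    have hb := neg_abs_le l.b
    have hc := neg_abs_le l.c
    have := abs_nonneg l.α
    have := abs_nonneg l.β
    have := abs_nonneg l.γ
    have := abs_nonneg l.a
    have := abs_nonneg l.b
    have := abs_nonneg l.c
    have hH : 0 ≤ l.H t := by
      unfold H
      have ht0 : (0 : ℤ) ≤ t := by positivity
      have e1 : (t : ℤ) ^ 2 ≤ l.a * (t : ℤ) ^ 2 := by nlinarith [sq_nonneg (t : ℤ)]
      nlinarith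
    nlinarith

/-- `G m ≥ (1 - 4 η) G n` if `m ≥ (1 - η) n - 1` and `n` is large -/
lemma ratio (η : ℝ) (hη : 0 < η) (hη1 : η ≤ 1 / 4) : ∃ n₁ : ℕ, ∀ n : ℕ, n₁ ≤ n → ∀ m : ℕ,
    (1 - η) * n - 1 ≤ m → m ≤ n → (1 - 4 * η) * (l.G n : ℝ) ≤ l.G m := by
  refine ⟨⌈(4 * l.S : ℝ) / η⌉₊, fun n hn m hm hmn => ?_⟩
  have hS1 : (1 : ℝ) ≤ l.S := by exact_mod_cast l.S_pos'
  have hn' : (4 * l.S : ℝ) / η ≤ n := (Nat.le_ceil _).trans (by exact_mod_cast hn)
  rw [div_le_iff₀ hη] at hn'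
  have hS : |(l.α:ℝ)| + |(l.β:ℝ)| + |(l.γ:ℝ)| + |(l.a:ℝ)| + |(l.b:ℝ)| + |(l.c:ℝ)| + 1 = (l.S : ℝ) := by
    exact_mod_cast l.abs_le_S
  have p1 := abs_nonneg (l.α:ℝ)
  have p2 := abs_nonneg (l.β:ℝ)
  have p3 := abs_nonneg (l.γ:ℝ)
  have p4 := abs_nonneg (l.a:ℝ)
  have p5 := abs_nonneg (l.b:ℝ)
  have p6 := abs_nonneg (l.c:ℝ)
  have q1 := neg_abs_le (l.α:ℝ)
  have q2 := neg_abs_le (l.β:ℝ)
  have q3 := neg_abs_le (l.γ:ℝ)
  have q4 := le_abs_self (l.α:ℝ)
  have q5 := le_abs_self (l.β:ℝ)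
  have q6 := le_abs_self (l.γ:ℝ)
  have hn1 : (16:ℝ) ≤ n := by nlinarith
  have hm0 : (0:ℝ) ≤ m := Nat.cast_nonneg m
  have hmn' : (m:ℝ) ≤ n := by exact_mod_cast hmn
  unfold G
  push_cast
  rcases l.hg with h | ⟨h2, h3, h4⟩
  · have hα : (1:ℝ) ≤ l.α := by exact_mod_cast h
    have h1 : ((1 - η) * n - 1) ^ 2 ≤ (m:ℝ) ^ 2 := by
      apply pow_le_pow_left₀ _ hm
      nlinarith
    have h2 : (1 - 2 * η) * (n:ℝ) ^ 2 - 2 * n ≤ (m:ℝ) ^ 2 := by nlinarith [sq_nonneg (η * n), sq_nonneg η]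
    have h3 : (l.β:ℝ) * ((m:ℝ) - (1 - 4 * η) * n) ≥ -(|(l.β:ℝ)| * n) := by
      have h4 : |(m:ℝ) - (1 - 4 * η) * n| ≤ n := by
        rw [abs_le]; constructor <;> nlinarith
      have h5 := neg_abs_le ((l.β:ℝ) * ((m:ℝ) - (1 - 4 * η) * n))
      rw [abs_mul] at h5
      have h6 := mul_le_mul_of_nonneg_left h4 p2
      linarith
    have h4 : (l.γ:ℝ) * (4 * η) ≥ -|(l.γ:ℝ)| := by nlinarith
    have h5 : (l.α:ℝ) * ((m:ℝ) ^ 2 - (1 - 4 * η) * n ^ 2) ≥ l.α * (2 * η * n ^ 2 - 2 * n) := by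
      apply mul_le_mul_of_nonneg_left _ (by linarith)
      linarith
    have h6 : (l.α:ℝ) * (2 * η * n ^ 2 - 2 * n) ≥ |(l.β:ℝ)| * n + |(l.γ:ℝ)| := by
      have h7 : 2 * η * (n:ℝ) ^ 2 ≥ 8 * l.S * n := by nlinarith
      have h8 : (l.α:ℝ) * (2 * η * n ^ 2 - 2 * n) ≥ 1 * (2 * η * n ^ 2 - 2 * n) := by
        apply mul_le_mul_of_nonneg_right hα
        nlinarith
      nlinarith
    nlinarith
  · have hα : (l.α:ℝ) = 0 := by exact_mod_cast h2
    have hβ : (1:ℝ) ≤ l.β := by exact_mod_cast h3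
    rw [hα]
    have h5 : (l.β:ℝ) * (3 * η * n - 1) ≤ l.β * ((m:ℝ) - (1 - 4 * η) * n) := by
      apply mul_le_mul_of_nonneg_left _ (by linarith)
      linarith
    have h6 : (l.γ:ℝ) * (4 * η) ≥ -|(l.γ:ℝ)| := by nlinarith
    have h7 : 3 * η * (n:ℝ) - 1 ≥ |(l.γ:ℝ)| := by nlinarith
    have h8 : 1 * (3 * η * (n:ℝ) - 1) ≤ (l.β:ℝ) * (3 * η * n - 1) := by
      apply mul_le_mul_of_nonneg_right hβ
      linarith
    nlinarith

end Ln

/-- `n / φ(n)` is at most the number of prime factors plus one -/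
lemma prod_le_card (S : Finset ℕ) (hS : ∀ p ∈ S, 2 ≤ p) : ∏ p ∈ S, (1 - (p:ℝ)⁻¹)⁻¹ ≤ S.card + 1 := by
  induction S using Finset.induction_on_max with
  | empty => simp
  | insert M S hM ih =>
    have hMS : M ∉ S := fun h => lt_irrefl M (hM M h)
    rw [prod_insert hMS, card_insert_of_notMem hMS]
    have ih' := ih fun p hp => hS p (mem_insert_of_mem hp)
    have hM2 : 2 ≤ M := hS M (mem_insert_self _ _)
    have hsub : S ⊆ Ico 2 M := by
      intro p hp
      rw [mem_Ico]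
      exact ⟨hS p (mem_insert_of_mem hp), hM p hp⟩
    have hcard := card_le_card hsub
    rw [Nat.card_Ico] at hcard
    have h1 : (S.card : ℝ) + 2 ≤ M := by
      have : S.card + 2 ≤ M := by omega
      exact_mod_cast this
    have hc0 : (0:ℝ) ≤ S.card := Nat.cast_nonneg _
    have hM0 : (0:ℝ) < M := by linarith
    have h2 : (1 - (M:ℝ)⁻¹)⁻¹ = 1 + 1 / ((M:ℝ) - 1) := by
      have h3 : (M:ℝ) - 1 ≠ 0 := by
        have : (0:ℝ) < (M:ℝ) - 1 := by linarith
        exact this.ne'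
      have h4 : 1 - (M:ℝ)⁻¹ = ((M:ℝ) - 1) / M := by field_simp
      rw [h4, inv_div]
      field_simp
      ring
    have h3 : 1 / ((M:ℝ) - 1) ≤ 1 / ((S.card : ℝ) + 1) := one_div_le_one_div_of_le (by linarith) (by linarith)
    have h4 : 0 ≤ ∏ p ∈ S, (1 - (p:ℝ)⁻¹)⁻¹ := by
      apply prod_nonneg
      intro p hp
      have h5 : (2:ℝ) ≤ p := by exact_mod_cast hS p (mem_insert_of_mem hp)
      have h6 : (p:ℝ)⁻¹ ≤ 1 := inv_le_one_of_one_le₀ (by linarith)
      exact inv_nonneg.2 (by linarith)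
    rw [h2]
    push_cast
    calc (1 + 1 / ((M:ℝ) - 1)) * ∏ p ∈ S, (1 - (p:ℝ)⁻¹)⁻¹ ≤ (1 + 1 / ((S.card : ℝ) + 1)) * (S.card + 1) := by
          apply mul_le_mul (by linarith) ih' h4 (by positivity)
      _ = S.card + 1 + 1 := by field_simp

lemma GG_le_log {n : ℕ} (hn : 1 ≤ n) : GG n ≤ 1 + 2 * Real.log n := by
  rw [GG_eq_prod (by omega)]
  have h1 := prod_le_card n.primeFactors (fun p hp => (Nat.prime_of_mem_primeFactors hp).two_le)
  have h2 := Pool.Agent.H398R2.BV.omega_le_log n hn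
  linarith

lemma one_div_totient_le_log {n : ℕ} (hn : 1 ≤ n) : 1 / (Nat.totient n : ℝ) ≤ (1 + 2 * Real.log n) / n := by
  have h1 := GG_le_log hn
  have hn0 : (0:ℝ) < n := by exact_mod_cast hn
  have hφ : (0:ℝ) < Nat.totient n := by exact_mod_cast Nat.totient_pos.2 (by omega)
  unfold GG at h1
  rw [div_le_iff₀ hφ] at h1
  rw [div_le_div_iff₀ hφ hn0]
  linarith

/-- the number of `t ≤ n` in a class modulo `d` -/
lemma card_class (S : Finset ℕ) (n d : ℕ) (hd : 0 < d) (hS : S ⊆ Icc 1 n)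
    (h : ∀ s ∈ S, ∀ t ∈ S, s ≡ t [MOD d]) : (S.card : ℝ) ≤ (n : ℝ) / d + 1 := by
  have h1 : S.card ≤ (range (n / d + 1)).card := by
    apply card_le_card_of_injOn (fun s => s / d)
    · intro s hs
      have h2 := mem_Icc.1 (hS hs)
      simp only [coe_range, Set.mem_Iio]
      exact Nat.lt_succ_of_le (Nat.div_le_div_right h2.2)
    · intro s hs t ht hst
      have h3 : s % d = t % d := h s hs t ht
      have h4 : s / d = t / d := hst
      rw [← Nat.div_add_mod s d, ← Nat.div_add_mod t d, h3, h4]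
  rw [card_range] at h1
  have h2 : ((n / d : ℕ) : ℝ) ≤ (n : ℝ) / d := Nat.cast_div_le
  calc (S.card : ℝ) ≤ ((n / d + 1 : ℕ) : ℝ) := by exact_mod_cast h1
    _ = ((n / d : ℕ) : ℝ) + 1 := by push_cast; ring
    _ ≤ _ := by linarith

/-- solutions of a linear congruence -/
lemma card_lin (n d : ℕ) (hd : 0 < d) (A B : ℤ) (hA : 0 < A) :
    ((((Icc 1 n).filter (fun t : ℕ => (d : ℤ) ∣ A * t + B)).card : ℕ) : ℝ) ≤ A * ((n : ℝ) / d + 1) := by
  classical
  -- fibres of `t mod d / gcd`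
  set e := Nat.gcd A.natAbs d with he
  have he0 : 0 < e := Nat.gcd_pos_of_pos_right _ hd
  obtain ⟨d', hd'⟩ : e ∣ d := Nat.gcd_dvd_right _ _
  have hd'0 : 0 < d' := by
    rcases Nat.eq_zero_or_pos d' with h | h
    · rw [h, mul_zero] at hd'; omega
    · exact h
  have heA : e ≤ A.natAbs := Nat.le_of_dvd (Int.natAbs_pos.2 hA.ne') (Nat.gcd_dvd_left _ _)
  have h1 := card_class ((Icc 1 n).filter (fun t : ℕ => (d : ℤ) ∣ A * t + B)) n d' hd'0 (filter_subset _ _) (by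
    intro s hs t ht
    rw [mem_filter] at hs ht
    rw [Nat.modEq_iff_dvd]
    have h2 : (d : ℤ) ∣ A * ((t : ℤ) - s) := by
      have := dvd_sub ht.2 hs.2
      have e1 : A * (t : ℤ) + B - (A * s + B) = A * ((t : ℤ) - s) := by ring
      rwa [e1] at this
    obtain ⟨A', hA'⟩ : (e : ℤ) ∣ A := by
      rw [Int.natCast_dvd]; exact Nat.gcd_dvd_left _ _
    have h3 : (e : ℤ) * d' ∣ (e : ℤ) * (A' * ((t : ℤ) - s)) := by
      have e1 : (e : ℤ) * d' = d := by exact_mod_cast hd'.symm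
      have e2 : (e : ℤ) * (A' * ((t : ℤ) - s)) = A * ((t : ℤ) - s) := by rw [hA']; ring
      rw [e1, e2]; exact h2
    have h4 : (d' : ℤ) ∣ A' * ((t : ℤ) - s) :=
      Int.dvd_of_mul_dvd_mul_left (by exact_mod_cast he0.ne') h3
    have h5 : IsCoprime (d' : ℤ) A' := by
      rw [Int.isCoprime_iff_gcd_eq_one]
      have h6 : Nat.gcd A.natAbs d = e * Nat.gcd A'.natAbs d' := by
        rw [hA', Int.natAbs_mul, Int.natAbs_natCast, hd', Nat.gcd_mul_left]
      have h7 : e * Nat.gcd A'.natAbs d' = e * 1 := by rw [← h6, mul_one]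
      have h8 := Nat.eq_of_mul_eq_mul_left he0 h7
      unfold Int.gcd
      rw [Int.natAbs_natCast, Nat.gcd_comm]
      exact h8
    exact h5.dvd_of_dvd_mul_left h4)
  refine h1.trans ?_
  have hA1 : (1:ℝ) ≤ A := by exact_mod_cast hA
  have hd0 : (0:ℝ) < d := by exact_mod_cast hd
  have hd'0r : (0:ℝ) < d' := by exact_mod_cast hd'0
  have heAr : (e:ℝ) ≤ A := by
    have : (e : ℤ) ≤ A := by
      have h9 : (e : ℤ) ≤ (A.natAbs : ℤ) := by exact_mod_cast heA
      rwa [Int.natCast_natAbs, abs_of_pos hA] at h9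
    exact_mod_cast this
  have e3 : (n:ℝ) / d' = e * ((n:ℝ) / d) := by
    have : (d:ℝ) = e * d' := by exact_mod_cast hd'
    have he0r : (0:ℝ) < e := by exact_mod_cast he0
    rw [this]; field_simp
  rw [e3, mul_add, mul_one]
  have : (e:ℝ) * ((n:ℝ) / d) ≤ A * ((n:ℝ) / d) := by gcongr
  linarith

/-- the number of `t ≤ n` with `f ∣ α t² + β t + γ`, `α > 0` -/
lemma card_quad (n f : ℕ) (hf : 0 < f) (α β γ : ℤ) (hα : 0 < α) :
    ((((Icc 1 n).filter (fun t : ℕ => (f : ℤ) ∣ α * (t : ℤ) ^ 2 + β * t + γ)).card : ℕ) : ℝ) ≤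
      f.divisors.card * (2 * α * ((n : ℝ) / Real.sqrt f + 1)) := by
  classical
  set S := (Icc 1 n).filter (fun t : ℕ => (f : ℤ) ∣ α * (t : ℤ) ^ 2 + β * t + γ) with hS
  have hα1 : (1:ℝ) ≤ α := by exact_mod_cast hα
  have hf0 : (0:ℝ) < f := by exact_mod_cast hf
  have hsf : 0 < Real.sqrt f := Real.sqrt_pos.2 hf0
  rcases S.eq_empty_or_nonempty with h | ⟨t₁, ht₁⟩
  · rw [h, card_empty]
    have : (0:ℝ) < α := by linarith
    push_cast
    positivity
  have ht₁' := mem_filter.1 ht₁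
  set U : ℕ → Finset ℕ := fun d => (Icc 1 n).filter (fun t : ℕ => (d : ℤ) ∣ (t : ℤ) - t₁) with hU
  set V : ℕ → Finset ℕ := fun d => (Icc 1 n).filter (fun t : ℕ => ((f / d : ℕ) : ℤ) ∣ α * t + (α * t₁ + β)) with hV
  have hsub : S ⊆ f.divisors.biUnion (fun d => U d ∩ V d) := by
    intro t ht
    have ht' := mem_filter.1 ht
    rw [mem_biUnion]
    set d := Nat.gcd f ((t : ℤ) - t₁).natAbs with hd
    have hdf : d ∣ f := Nat.gcd_dvd_left _ _
    refine ⟨d, Nat.mem_divisors.2 ⟨hdf, hf.ne'⟩, ?_⟩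
    rw [mem_inter]
    constructor
    · rw [hU]; simp only; rw [mem_filter]
      exact ⟨ht'.1, Int.natCast_dvd.2 (Nat.gcd_dvd_right _ _)⟩
    · rw [hV]; simp only; rw [mem_filter]
      refine ⟨ht'.1, ?_⟩
      have h1 : (f : ℤ) ∣ ((t : ℤ) - t₁) * (α * t + (α * t₁ + β)) := by
        have := dvd_sub ht'.2 ht₁'.2
        have e1 : α * (t : ℤ) ^ 2 + β * t + γ - (α * (t₁ : ℤ) ^ 2 + β * t₁ + γ) =
          ((t : ℤ) - t₁) * (α * t + (α * t₁ + β)) := by ring
        rwa [e1] at this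
      have h2 : f ∣ ((t : ℤ) - t₁).natAbs * (α * t + (α * t₁ + β)).natAbs := by
        rw [← Int.natAbs_mul]; exact Int.natCast_dvd.1 h1
      have h3 : f / d ∣ (α * t + (α * t₁ + β)).natAbs := by
        have hd0 : 0 < d := Nat.gcd_pos_of_pos_left _ hf
        have hcop : Nat.Coprime (f / d) (((t : ℤ) - t₁).natAbs / d) := Nat.coprime_div_gcd_div_gcd hd0
        have h4 : f / d ∣ (((t : ℤ) - t₁).natAbs / d) * (α * t + (α * t₁ + β)).natAbs := by
          obtain ⟨u, hu⟩ := hdf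
          obtain ⟨w, hw⟩ : d ∣ ((t : ℤ) - t₁).natAbs := Nat.gcd_dvd_right _ _
          rw [hw, hu] at h2
          rw [hw]
          have e5 : f / d = u := by
            conv_lhs => rw [hu]
            exact Nat.mul_div_cancel_left u hd0
          rw [e5, Nat.mul_div_cancel_left w hd0]
          rw [mul_assoc] at h2
          exact Nat.dvd_of_mul_dvd_mul_left hd0 h2
        exact hcop.dvd_of_dvd_mul_left h4
      exact Int.natCast_dvd.2 h3
  have hbd : ∀ d ∈ f.divisors, (((U d ∩ V d).card : ℕ) : ℝ) ≤ 2 * α * ((n : ℝ) / Real.sqrt f + 1) := by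
    intro d hd
    have hdf := (Nat.mem_divisors.1 hd).1
    have hd0 : 0 < d := Nat.pos_of_dvd_of_pos hdf hf
    have hd0r : (0:ℝ) < d := by exact_mod_cast hd0
    by_cases hds : Real.sqrt f ≤ d
    · have h1 : ((U d).card : ℝ) ≤ (n:ℝ) / d + 1 := by
        apply card_class _ n d hd0 (filter_subset _ _)
        intro s hs t ht
        simp only [hU, mem_filter] at hs ht
        rw [Nat.modEq_iff_dvd]
        have := dvd_sub ht.2 hs.2
        have e1 : (t : ℤ) - t₁ - (s - t₁) = t - s := by ring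
        rwa [e1] at this
      have h2 : ((U d ∩ V d).card : ℝ) ≤ (U d).card := by exact_mod_cast card_le_card inter_subset_left
      have h3 : (n:ℝ) / d ≤ n / Real.sqrt f := div_le_div_of_nonneg_left (Nat.cast_nonneg n) hsf hds
      have h4 : 0 ≤ (n:ℝ) / Real.sqrt f := by positivity
      nlinarith
    · push Not at hds
      obtain ⟨u, hu⟩ := hdf
      have e5 : f / d = u := by
        conv_lhs => rw [hu]
        exact Nat.mul_div_cancel_left u hd0
      have hu0 : 0 < u := by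
        rcases Nat.eq_zero_or_pos u with h | h
        · rw [h, mul_zero] at hu; omega
        · exact h
      have hu0r : (0:ℝ) < u := by exact_mod_cast hu0
      have hus : Real.sqrt f ≤ u := by
        have h1 : Real.sqrt f * Real.sqrt f = d * u := by
          rw [Real.mul_self_sqrt hf0.le]; exact_mod_cast hu
        by_contra hcon
        push Not at hcon
        have h2 : (d:ℝ) * u < Real.sqrt f * Real.sqrt f := by
          apply mul_lt_mul'' hds hcon hd0r.le hu0r.le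
        linarith
      have h1 := card_lin n u hu0 α (α * t₁ + β) hα
      have h2 : ((U d ∩ V d).card : ℝ) ≤
          (((Icc 1 n).filter (fun t : ℕ => (u : ℤ) ∣ α * t + (α * t₁ + β))).card : ℝ) := by
        have : (U d ∩ V d).card ≤ ((Icc 1 n).filter (fun t : ℕ => (u : ℤ) ∣ α * t + (α * t₁ + β))).card := by
          apply card_le_card
          intro t ht
          have h3 := (mem_inter.1 ht).2
          rw [hV] at h3
          simp only at h3
          rw [e5] at h3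
          exact h3
        exact_mod_cast this
      have h3 : (n:ℝ) / u ≤ n / Real.sqrt f := div_le_div_of_nonneg_left (Nat.cast_nonneg n) hsf hus
      have h4 : 0 ≤ (n:ℝ) / u := by positivity
      nlinarith
  have h1 : (S.card : ℝ) ≤ ∑ d ∈ f.divisors, (((U d ∩ V d).card : ℕ) : ℝ) := by
    have := (card_le_card hsub).trans card_biUnion_le
    exact_mod_cast this
  refine h1.trans ((sum_le_sum hbd).trans (le_of_eq ?_))
  rw [sum_const, nsmul_eq_mul]

end Pool.Agent.Helper24K9.EL
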