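import Mathlib
import Pool.Agent.W218.HF.Mom
import Pool.Agent.W218.HF.Second
import Pool.Agent.H373R2.BH.Local
import Pool.Agent.Helper24K9.EL.Ln

set_option autoImplicit false

/-! Sixth moments of `n / φ(n)` on the values of a quadratic polynomial. -/

open Finset

namespace Pool.Agent.Helper24K9.EL

open Pool.Agent.Erdos456 Pool.Agent.Erdos456.Mert Pool.Agent.W218.HF

lemma prod_mertens' (k : ℕ) (hk : 1 ≤ k) : ∃ C : ℝ, 0 < C ∧ ∀ X : ℕ, 1 ≤ X →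
    ∏ p ∈ PP X, (1 + (k : ℝ) / (p : ℝ)) ≤ C * X := by
  obtain ⟨C, hC⟩ := mertens_inv
  have hk0 : (0:ℝ) < k := by exact_mod_cast hk
  refine ⟨Real.exp (k * C) * ((k:ℝ) ^ k) * 3, by positivity, ?_⟩
  intro X hX
  set N := max X 3 with hN
  have hN3 : 3 ≤ N := le_max_right _ _
  have hNr : (3 : ℝ) ≤ N := by exact_mod_cast hN3
  have hNX : (N : ℝ) ≤ 3 * X := by
    have : N ≤ 3 * X := by omega
    exact_mod_cast this
  have h0 := hC N hN3
  have hl1 : 1 ≤ Real.log N := by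
    rw [Real.le_log_iff_exp_le (by linarith)]
    have := Real.exp_one_lt_d9
    linarith
  have h1 : ∏ p ∈ PP X, (1 + (k:ℝ) / (p : ℝ)) ≤ Real.exp (∑ p ∈ PP X, (k:ℝ) / (p : ℝ)) :=
    prod_exp_le _ _ fun p _ => by positivity
  have h2 : ∑ p ∈ PP X, (k:ℝ) / (p : ℝ) ≤ k * (Real.log (Real.log N) + C) := by
    have : ∑ p ∈ PP X, (k:ℝ) / (p : ℝ) ≤ ∑ p ∈ PP N, (k:ℝ) / (p : ℝ) := by
      apply sum_le_sum_of_subset_of_nonneg _ fun p _ _ => by positivity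
      intro p hp
      simp only [PP, mem_filter, mem_Icc] at hp ⊢
      exact ⟨⟨hp.1.1, hp.1.2.trans (le_max_left _ _)⟩, hp.2⟩
    have e : ∑ p ∈ PP N, (k:ℝ) / (p : ℝ) = k * ∑ p ∈ PP N, (1 : ℝ) / p := by
      rw [mul_sum]; apply sum_congr rfl; intro p _; ring
    rw [e] at this
    have h3 := (abs_le.1 h0).2
    refine this.trans (mul_le_mul_of_nonneg_left (by linarith) hk0.le)
  have h3 : Real.exp (∑ p ∈ PP X, (k:ℝ) / (p : ℝ)) ≤ Real.exp (k * C) * (Real.log N) ^ k := by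
    calc Real.exp (∑ p ∈ PP X, (k:ℝ) / (p : ℝ)) ≤ Real.exp (k * (Real.log (Real.log N) + C)) :=
          Real.exp_le_exp.2 h2
      _ = Real.exp (k * C) * Real.exp ((k : ℕ) * Real.log (Real.log N)) := by
          rw [← Real.exp_add]; congr 1; ring
      _ = _ := by rw [Real.exp_nat_mul (Real.log (Real.log N)) k, Real.exp_log (by linarith)]
  have h4 : (Real.log N) ^ k ≤ (k:ℝ) ^ k * N := by
    have h5 := Real.log_le_rpow_div (x := (N : ℝ)) (by linarith) (show (0 : ℝ) < 1 / k by positivity)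
    have h6 : Real.log N ≤ k * (N : ℝ) ^ (1 / k : ℝ) := by
      calc Real.log N ≤ (N : ℝ) ^ (1 / k : ℝ) / (1 / k) := h5
        _ = _ := by field_simp
    calc (Real.log N) ^ k ≤ (k * (N : ℝ) ^ (1 / k : ℝ)) ^ k :=
          pow_le_pow_left₀ (by linarith) h6 _
      _ = (k:ℝ) ^ k * ((N : ℝ) ^ (1 / k : ℝ)) ^ k := by rw [mul_pow]
      _ = (k:ℝ) ^ k * N := by
          rw [← Real.rpow_natCast ((N : ℝ) ^ (1 / k : ℝ)) k, ← Real.rpow_mul (by linarith),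
            one_div, inv_mul_cancel₀ hk0.ne', Real.rpow_one]
  calc ∏ p ∈ PP X, (1 + (k:ℝ) / (p : ℝ)) ≤ Real.exp (k * C) * (Real.log N) ^ k := h1.trans h3
    _ ≤ Real.exp (k * C) * ((k:ℝ) ^ k * N) := by gcongr
    _ ≤ Real.exp (k * C) * ((k:ℝ) ^ k * (3 * X)) := by gcongr
    _ = _ := by ring

/-- a quadratic polynomial has at most two roots modulo a prime not dividing all coefficients -/
lemma two_roots {p : ℕ} (hp : p.Prime) (α β γ : ℤ)
    (h : ¬ ((p : ℤ) ∣ α ∧ (p : ℤ) ∣ β ∧ (p : ℤ) ∣ γ)) :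
    ((range p).filter (fun r : ℕ => (p : ℤ) ∣ α * (r : ℤ) ^ 2 + β * r + γ)).card ≤ 2 := by
  by_contra hcon
  push Not at hcon
  obtain ⟨r, hr, s, hs, t, ht, hrs, hrt, hst⟩ := Finset.two_lt_card.1 hcon
  rw [mem_filter, mem_range] at hr hs ht
  have hpz : Prime (p : ℤ) := Nat.prime_iff_prime_int.1 hp
  have hdist : ∀ u v : ℕ, u < p → v < p → u ≠ v → ¬ (p : ℤ) ∣ (u : ℤ) - v := by
    intro u v hu hv huv hdv
    apply huv
    have h1 : v ≡ u [MOD p] := (Nat.modEq_iff_dvd).2 hdv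
    exact (Nat.ModEq.eq_of_lt_of_lt h1 hv hu).symm
  have key : ∀ u v : ℕ, u < p → v < p → u ≠ v → (p : ℤ) ∣ α * (u : ℤ) ^ 2 + β * u + γ →
      (p : ℤ) ∣ α * (v : ℤ) ^ 2 + β * v + γ → (p : ℤ) ∣ α * ((u : ℤ) + v) + β := by
    intro u v hu hv huv h1 h2
    have h3 : (p : ℤ) ∣ ((u : ℤ) - v) * (α * ((u : ℤ) + v) + β) := by
      have := dvd_sub h1 h2
      have e : α * (u : ℤ) ^ 2 + β * u + γ - (α * (v : ℤ) ^ 2 + β * v + γ) =
        ((u : ℤ) - v) * (α * ((u : ℤ) + v) + β) := by ring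
      rwa [e] at this
    rcases hpz.dvd_or_dvd h3 with h4 | h4
    · exact absurd h4 (hdist u v hu hv huv)
    · exact h4
  have h1 := key r s hr.1 hs.1 hrs hr.2 hs.2
  have h2 := key r t hr.1 ht.1 hrt hr.2 ht.2
  have h3 : (p : ℤ) ∣ α * ((s : ℤ) - t) := by
    have := dvd_sub h1 h2
    have e : α * ((r : ℤ) + s) + β - (α * ((r : ℤ) + t) + β) = α * ((s : ℤ) - t) := by ring
    rwa [e] at this
  have hα : (p : ℤ) ∣ α := by
    rcases hpz.dvd_or_dvd h3 with h4 | h4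
    · exact h4
    · exact absurd h4 (hdist s t hs.1 ht.1 hst)
  have hβ : (p : ℤ) ∣ β := by
    have := dvd_sub h1 (hα.mul_right ((r : ℤ) + s))
    have e : α * ((r : ℤ) + s) + β - α * ((r : ℤ) + s) = β := by ring
    rwa [e] at this
  have hγ : (p : ℤ) ∣ γ := by
    have := dvd_sub hr.2 (dvd_add (hα.mul_right ((r : ℤ) ^ 2)) (hβ.mul_right (r : ℤ)))
    have e : α * (r : ℤ) ^ 2 + β * r + γ - (α * (r : ℤ) ^ 2 + β * r) = γ := by ring
    rwa [e] at this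
  exact h ⟨hα, hβ, hγ⟩

/-- the number of `t ≤ X` where `α t² + β t + γ` is divisible by all primes of `S` -/
lemma count_dvd2 {X : ℕ} {α β γ : ℤ} (S : Finset ℕ) (hS : ∀ p ∈ S, p.Prime)
    (hg : ∀ p ∈ S, ¬ ((p : ℤ) ∣ α ∧ (p : ℤ) ∣ β ∧ (p : ℤ) ∣ γ)) :
    ((((Icc 1 X).filter (fun t : ℕ => ∀ p ∈ S, p ∣ (α * (t : ℤ) ^ 2 + β * t + γ).natAbs)).card : ℕ) : ℝ) ≤
      (X : ℝ) * ∏ p ∈ S, (2 / (p : ℝ)) + ∏ _p ∈ S, (2 : ℝ) := by
  set P := ∏ p ∈ S, p with hP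
  have hP0 : 0 < P := prod_pos fun p hp => (hS p hp).pos
  set A := (Icc 1 X).filter (fun t : ℕ => ∀ p ∈ S, p ∣ (α * (t : ℤ) ^ 2 + β * t + γ).natAbs) with hA
  set R := (range P).filter (fun r => ∀ p ∈ S, (p : ℤ) ∣ α * ((r % p : ℕ) : ℤ) ^ 2 + β * ((r % p : ℕ) : ℤ) + γ) with hR
  have hRc : (R.card : ℝ) ≤ ∏ _p ∈ S, (2 : ℝ) := by
    have h1 := Pool.Agent.H373R2.BH.crt_count S hS (fun p r => (p : ℤ) ∣ α * (r : ℤ) ^ 2 + β * (r : ℤ) + γ)
    rw [← hP] at h1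
    have h2 : R.card ≤ ∏ _p ∈ S, 2 := by
      rw [hR, h1]
      exact prod_le_prod' fun p hp => two_roots (hS p hp) α β γ (hg p hp)
    calc (R.card : ℝ) ≤ ((∏ _p ∈ S, 2 : ℕ) : ℝ) := by exact_mod_cast h2
      _ = _ := by push_cast; rfl
  have hmod : ∀ (p t : ℕ), (p : ℤ) ∣ (α * (t : ℤ) ^ 2 + β * t + γ) →
      (p : ℤ) ∣ α * ((t % p : ℕ) : ℤ) ^ 2 + β * ((t % p : ℕ) : ℤ) + γ := by
    intro p t h
    have h1 : (p : ℤ) ∣ (t : ℤ) - ((t % p : ℕ) : ℤ) := by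
      refine ⟨((t / p : ℕ) : ℤ), ?_⟩
      have := Nat.div_add_mod t p
      have h2 : ((p * (t / p) + t % p : ℕ) : ℤ) = t := by exact_mod_cast this
      push_cast at h2 ⊢
      linarith
    have h2 := dvd_sub h (h1.mul_right (α * ((t : ℤ) + ((t % p : ℕ) : ℤ)) + β))
    have e : α * (t : ℤ) ^ 2 + β * t + γ - ((t : ℤ) - ((t % p : ℕ) : ℤ)) * (α * ((t : ℤ) + ((t % p : ℕ) : ℤ)) + β) =
      α * ((t % p : ℕ) : ℤ) ^ 2 + β * ((t % p : ℕ) : ℤ) + γ := by ring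
    rwa [e] at h2
  have hmaps : ∀ t ∈ A, t % P ∈ R := by
    intro t ht
    rw [hA, mem_filter] at ht
    rw [hR, mem_filter, mem_range]
    refine ⟨Nat.mod_lt _ hP0, fun p hp => ?_⟩
    rw [Nat.mod_mod_of_dvd _ (dvd_prod_of_mem (fun p => p) hp)]
    exact hmod p t (Int.natCast_dvd.2 (ht.2 p hp))
  have h1 : (A.card : ℝ) = ∑ r ∈ R, (((A.filter (fun t => t % P = r)).card : ℕ) : ℝ) := by
    have := Finset.card_eq_sum_card_fiberwise (f := fun t => t % P) (s := A) (t := R) hmaps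
    exact_mod_cast this
  have h2 : ∀ r ∈ R, (((A.filter (fun t => t % P = r)).card : ℕ) : ℝ) ≤ (X : ℝ) / P + 1 := by
    intro r _
    apply card_congr_le _ ((filter_subset _ _).trans (filter_subset _ _))
    intro s hs t ht
    rw [mem_filter] at hs ht
    show s % P = t % P
    rw [hs.2, ht.2]
  have h3 : (A.card : ℝ) ≤ R.card * ((X : ℝ) / P + 1) := by
    rw [h1]
    refine (sum_le_sum h2).trans (le_of_eq ?_)
    rw [sum_const, nsmul_eq_mul]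
  have hXP : 0 ≤ (X : ℝ) / P + 1 := by positivity
  have e : (∏ _p ∈ S, (2 : ℝ)) * ((X : ℝ) / P + 1) =
      (X : ℝ) * ∏ p ∈ S, (2 / (p : ℝ)) + ∏ _p ∈ S, (2 : ℝ) := by
    rw [prod_div_distrib, hP]
    push_cast
    ring
  rw [← e]
  exact h3.trans (mul_le_mul_of_nonneg_right hRc hXP)

/-- the sixth moment on the values of a quadratic polynomial -/
theorem momQ (α β γ : ℤ) (hne : α ≠ 0 ∨ β ≠ 0 ∨ γ ≠ 0) : ∃ C : ℝ, 0 < C ∧ ∀ X : ℕ, 1 ≤ X →
    ∑ t ∈ Icc 1 X, (GG (α * (t : ℤ) ^ 2 + β * t + γ).natAbs) ^ 6 ≤ C * X := by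
  obtain ⟨C₁, hC₁, hM⟩ := prod_mertens' 252 (by norm_num)
  set g := Int.gcd α (Int.gcd β γ) with hg
  have hg0 : 0 < g := by
    rw [hg, Int.gcd_pos_iff]
    rcases hne with h | h | h
    · exact Or.inl h
    · right
      have := Int.gcd_pos_iff.2 (Or.inl h : β ≠ 0 ∨ γ ≠ 0)
      exact_mod_cast this.ne'
    · right
      have := Int.gcd_pos_iff.2 (Or.inr h : β ≠ 0 ∨ γ ≠ 0)
      exact_mod_cast this.ne'
  set S0 : ℕ := α.natAbs + β.natAbs + γ.natAbs + 1 with hS0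
  refine ⟨Real.exp 6 ^ 6 * (GG g ^ 6 * (Real.exp 504 + C₁ * S0)), by
    have := GG_pos hg0
    positivity, ?_⟩
  intro X hX
  have hXr : (1 : ℝ) ≤ X := by exact_mod_cast hX
  have hS1 : (1:ℝ) ≤ S0 := by
    have : 1 ≤ S0 := by omega
    exact_mod_cast this
  set Y : ℕ := S0 * X with hY
  have hY1 : 1 ≤ Y := Nat.mul_pos (by omega) (by omega)
  have hYr : (Y : ℝ) = S0 * X := by rw [hY]; push_cast; ring
  set W : Finset ℕ := (PP Y).filter (fun p => ¬ p ∣ g) with hW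
  have hWp : ∀ p ∈ W, p.Prime := fun p hp => by
    rw [hW, mem_filter, mem_filter] at hp; exact hp.1.2
  set w : Finset ℕ → ℝ := fun S => ∏ p ∈ S, (126 / (p : ℝ)) with hw
  have hw0 : ∀ S, 0 ≤ w S := fun S => prod_nonneg fun p _ => by positivity
  -- size
  have hbd : ∀ t ∈ Icc 1 X, (((α * (t : ℤ) ^ 2 + β * t + γ).natAbs : ℕ) : ℝ) ≤ Real.exp (4 * Y) := by
    intro t ht
    rw [mem_Icc] at ht
    have h1 : (α * (t : ℤ) ^ 2 + β * t + γ).natAbs ≤ S0 * X ^ 2 := by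
      calc (α * (t : ℤ) ^ 2 + β * t + γ).natAbs ≤ (α * (t : ℤ) ^ 2).natAbs + (β * t).natAbs + γ.natAbs :=
            (Int.natAbs_add_le _ _).trans (Nat.add_le_add_right (Int.natAbs_add_le _ _) _)
        _ = α.natAbs * t ^ 2 + β.natAbs * t + γ.natAbs := by
            rw [Int.natAbs_mul, Int.natAbs_mul, Int.natAbs_pow, Int.natAbs_natCast]
        _ ≤ α.natAbs * X ^ 2 + β.natAbs * X ^ 2 + γ.natAbs * X ^ 2 := by
            have h2 : t ^ 2 ≤ X ^ 2 := Nat.pow_le_pow_left ht.2 2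
            have h3 : t ≤ X ^ 2 := by nlinarith [ht.2]
            have h4 : 1 ≤ X ^ 2 := Nat.one_le_pow _ _ (by omega)
            have h5 : γ.natAbs ≤ γ.natAbs * X ^ 2 := Nat.le_mul_of_pos_right _ (by omega)
            gcongr
        _ ≤ S0 * X ^ 2 := by rw [hS0]; nlinarith
    have h2 : (((α * (t : ℤ) ^ 2 + β * t + γ).natAbs : ℕ) : ℝ) ≤ S0 * (X : ℝ) ^ 2 := by exact_mod_cast h1
    have h3 : (Y : ℝ) + 1 ≤ Real.exp Y := Real.add_one_le_exp _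
    have h4 : (S0 : ℝ) * (X : ℝ) ^ 2 ≤ (Y : ℝ) ^ 2 := by rw [hYr]; nlinarith
    have hY0 : (0:ℝ) ≤ Y := Nat.cast_nonneg _
    have h5 : (Y : ℝ) ^ 2 ≤ Real.exp Y ^ 2 := pow_le_pow_left₀ hY0 (by linarith) 2
    have h6 : Real.exp Y ^ 2 ≤ Real.exp (4 * Y) := by
      rw [← Real.exp_nat_mul]
      apply Real.exp_le_exp.2
      push_cast
      linarith
    linarith
  -- pointwise bound
  have hpt : ∀ t ∈ Icc 1 X, (GG (α * (t : ℤ) ^ 2 + β * t + γ).natAbs) ^ 6 ≤ Real.exp 6 ^ 6 * (GG g ^ 6 *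
      ∑ S ∈ W.powerset, if (∀ p ∈ S, p ∣ (α * (t : ℤ) ^ 2 + β * t + γ).natAbs) then w S else 0) := by
    intro t ht
    set m := (α * (t : ℤ) ^ 2 + β * t + γ).natAbs with hm
    have hR0 : 0 ≤ ∑ S ∈ W.powerset, (if (∀ p ∈ S, p ∣ m) then w S else 0) :=
      sum_nonneg fun S _ => by split_ifs; exacts [hw0 S, le_rfl]
    rcases Nat.eq_zero_or_pos m with h0 | h0
    · rw [h0] at hR0 ⊢
      rw [GG_zero]
      have := GG_nonneg g
      have : (0 : ℝ) ^ 6 = 0 := by norm_num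
      rw [this]
      positivity
    have h1 := GG_le_small h0 hY1 (hbd t ht)
    set F := (PP Y).filter (fun p => p ∣ m) with hF
    have hFp : ∀ p ∈ F, p.Prime := fun p hp => by
      rw [hF, mem_filter, mem_filter] at hp; exact hp.1.2
    have hsp := Finset.prod_filter_mul_prod_filter_not F (fun p => p ∣ g)
      (fun p : ℕ => (1 - (p : ℝ)⁻¹)⁻¹)
    have h2 : ∏ p ∈ F.filter (fun p => p ∣ g), (1 - (p : ℝ)⁻¹)⁻¹ ≤ GG g := by
      rw [GG_eq_prod hg0]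
      apply Finset.prod_le_prod_of_subset_of_one_le
      · intro p hp
        rw [mem_filter] at hp
        rw [Nat.mem_primeFactors]
        exact ⟨hFp p hp.1, hp.2, hg0.ne'⟩
      · intro p hp
        rw [mem_filter] at hp
        exact zero_le_one.trans (factor_ge_one (hFp p hp.1))
      · intro p hp _
        exact factor_ge_one (Nat.prime_of_mem_primeFactors hp)
    set V := F.filter (fun p => ¬ p ∣ g) with hV
    have hV0 : 0 ≤ ∏ p ∈ V, (1 - (p : ℝ)⁻¹)⁻¹ := prod_nonneg fun p hp => by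
      rw [hV, mem_filter] at hp
      exact zero_le_one.trans (factor_ge_one (hFp p hp.1))
    have h3 : GG m ≤ Real.exp 6 * (GG g * ∏ p ∈ V, (1 - (p : ℝ)⁻¹)⁻¹) := by
      refine h1.trans ?_
      rw [← hsp]
      gcongr
    have h4 : (∏ p ∈ V, (1 - (p : ℝ)⁻¹)⁻¹) ^ 6 ≤ ∏ p ∈ V, (1 + 126 / (p : ℝ)) := by
      rw [← prod_pow]
      apply prod_le_prod
      · intro p hp
        have : 0 ≤ (1 - (p : ℝ)⁻¹)⁻¹ := by
          rw [hV, mem_filter] at hp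
          exact zero_le_one.trans (factor_ge_one (hFp p hp.1))
        positivity
      · intro p hp
        rw [hV, mem_filter] at hp
        exact six_factor (hFp p hp.1)
    have h5 : ∏ p ∈ V, (1 + 126 / (p : ℝ)) =
        ∑ S ∈ W.powerset, if (∀ p ∈ S, p ∣ m) then w S else 0 := by
      rw [prod_one_add, ← sum_filter]
      apply sum_congr _ fun _ _ => rfl
      ext S
      simp only [mem_powerset, mem_filter, subset_iff, hV, hW, hF]
      constructor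
      · intro h
        exact ⟨fun p hp => ⟨(h hp).1.1, (h hp).2⟩, fun p hp => (h hp).1.2⟩
      · rintro ⟨h, h'⟩ p hp
        exact ⟨⟨(h hp).1, h' p hp⟩, (h hp).2⟩
    rw [← h5]
    calc GG m ^ 6 ≤ (Real.exp 6 * (GG g * ∏ p ∈ V, (1 - (p : ℝ)⁻¹)⁻¹)) ^ 6 :=
          pow_le_pow_left₀ (GG_nonneg m) h3 6
      _ = Real.exp 6 ^ 6 * (GG g ^ 6 * (∏ p ∈ V, (1 - (p : ℝ)⁻¹)⁻¹) ^ 6) := by ring
      _ ≤ _ := by
          have := GG_nonneg g
          gcongr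
  refine (sum_le_sum hpt).trans ?_
  rw [← mul_sum, ← mul_sum, sum_comm]
  have hin : ∀ S ∈ W.powerset, ∑ t ∈ Icc 1 X,
      (if (∀ p ∈ S, p ∣ (α * (t : ℤ) ^ 2 + β * t + γ).natAbs) then w S else 0) ≤
      X * ∏ p ∈ S, (252 / (p : ℝ) ^ 2) + ∏ p ∈ S, (252 / (p : ℝ)) := by
    intro S hS
    rw [mem_powerset] at hS
    rw [← sum_filter, sum_const, nsmul_eq_mul]
    have h1 := count_dvd2 (X := X) (α := α) (β := β) (γ := γ) S (fun p hp => hWp p (hS hp)) (fun p hp => by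
      have h2 := hS hp
      rw [hW, mem_filter] at h2
      rintro ⟨h3, h4, h5⟩
      apply h2.2
      have h6 : (p : ℤ) ∣ (Int.gcd β γ : ℤ) := Int.dvd_coe_gcd h4 h5
      have h7 : (p : ℤ) ∣ (Int.gcd α (Int.gcd β γ) : ℤ) := Int.dvd_coe_gcd h3 h6
      exact_mod_cast h7)
    have h2 := mul_le_mul_of_nonneg_right h1 (hw0 S)
    refine h2.trans (le_of_eq ?_)
    have e : (∏ p ∈ S, (2 / (p : ℝ))) * w S = ∏ p ∈ S, (252 / (p : ℝ) ^ 2) := by
      rw [hw, ← prod_mul_distrib]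
      apply prod_congr rfl
      intro p _
      ring
    have e' : (∏ _p ∈ S, (2 : ℝ)) * w S = ∏ p ∈ S, (252 / (p : ℝ)) := by
      rw [hw, ← prod_mul_distrib]
      apply prod_congr rfl
      intro p _
      ring
    rw [add_mul, mul_assoc, e, e']
  have hsum := sum_le_sum hin
  rw [sum_add_distrib, ← mul_sum] at hsum
  have e1 : ∑ S ∈ W.powerset, ∏ p ∈ S, (252 / (p : ℝ) ^ 2) = ∏ p ∈ W, (1 + 252 / (p : ℝ) ^ 2) :=
    (prod_one_add _).symm
  have e2 : ∑ S ∈ W.powerset, ∏ p ∈ S, (252 / (p : ℝ)) = ∏ p ∈ W, (1 + 252 / (p : ℝ)) := (prod_one_add _).symm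
  rw [e1, e2] at hsum
  have h1 : ∏ p ∈ W, (1 + 252 / (p : ℝ) ^ 2) ≤ Real.exp 504 := by
    refine (prod_exp_le W _ fun p _ => by positivity).trans (Real.exp_le_exp.2 ?_)
    have h3 := sum_inv_sq_PP Y
    have h4 : ∑ p ∈ PP Y, 252 / (p : ℝ) ^ 2 = 2 * ∑ p ∈ PP Y, 126 / (p : ℝ) ^ 2 := by
      rw [mul_sum]; apply sum_congr rfl; intro p _; ring
    have h5 : ∑ p ∈ W, 252 / (p : ℝ) ^ 2 ≤ ∑ p ∈ PP Y, 252 / (p : ℝ) ^ 2 :=
      sum_le_sum_of_subset_of_nonneg (filter_subset _ _) fun p _ _ => by positivity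
    linarith
  have h2 : ∏ p ∈ W, (1 + 252 / (p : ℝ)) ≤ C₁ * Y := by
    have h3 := hM Y hY1
    push_cast at h3
    refine le_trans ?_ h3
    apply Finset.prod_le_prod_of_subset_of_one_le (filter_subset _ _)
    · intro p _; positivity
    · intro p _ _
      have : (0 : ℝ) ≤ 252 / (p : ℝ) := by positivity
      linarith
  have hGg := GG_nonneg g
  calc Real.exp 6 ^ 6 * (GG g ^ 6 * ∑ S ∈ W.powerset, ∑ t ∈ Icc 1 X,
        (if (∀ p ∈ S, p ∣ (α * (t : ℤ) ^ 2 + β * t + γ).natAbs) then w S else 0))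
      ≤ Real.exp 6 ^ 6 * (GG g ^ 6 * (X * Real.exp 504 + C₁ * Y)) := by
        gcongr
        exact hsum.trans (by gcongr)
    _ = _ := by rw [hYr]; ring

/-- the sixth moment on the values of a linear polynomial, uniformly -/
theorem momL : ∃ C : ℝ, 0 < C ∧ ∀ (X : ℕ) (u v : ℤ), 1 ≤ X → (u ≠ 0 ∨ v ≠ 0) →
    (∀ t ∈ Icc 1 X, (((u * t + v).natAbs : ℕ) : ℝ) ≤ Real.exp (4 * X)) →
    ∑ t ∈ Icc 1 X, (GG (u * t + v).natAbs) ^ 6 ≤ C * (GG (Int.gcd u v)) ^ 6 * X := by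
  obtain ⟨C, hC, h⟩ := mom
  refine ⟨max C 1, by positivity, ?_⟩
  intro X u v hX hne hbd
  have hXr : (1 : ℝ) ≤ X := by exact_mod_cast hX
  have hG0 : 0 ≤ GG (Int.gcd u v) := GG_nonneg _
  have fin : ∀ (α : ℕ) (β : ℤ), 0 < α → Nat.gcd α β.natAbs = Int.gcd u v →
      (∀ t : ℕ, ((α : ℤ) * t - β).natAbs = (u * t + v).natAbs) →
      ∑ t ∈ Icc 1 X, (GG (u * t + v).natAbs) ^ 6 ≤ max C 1 * (GG (Int.gcd u v)) ^ 6 * X := by
    intro α β hα hgcd heq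
    have h1 := h X α β hX hα (fun t ht => by rw [heq t]; exact hbd t ht)
    rw [hgcd] at h1
    have e : ∑ t ∈ Icc 1 X, (GG ((α : ℤ) * t - β).natAbs) ^ 6 = ∑ t ∈ Icc 1 X, (GG (u * t + v).natAbs) ^ 6 :=
      sum_congr rfl fun t _ => by rw [heq t]
    rw [e] at h1
    refine h1.trans ?_
    gcongr
    exact le_max_left _ _
  rcases lt_trichotomy u 0 with hu | hu | hu
  · obtain ⟨α, rfl⟩ : ∃ α : ℕ, u = -(α : ℤ) := ⟨u.natAbs, by omega⟩
    apply fin α v (by omega)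
    · unfold Int.gcd
      rw [Int.natAbs_neg, Int.natAbs_natCast]
    · intro t
      have e : (α : ℤ) * t - v = -(-(α : ℤ) * t + v) := by ring
      rw [e, Int.natAbs_neg]
  · subst hu
    have hv : v ≠ 0 := by
      rcases hne with h1 | h1
      · exact absurd rfl h1
      · exact h1
    have e : ∀ t ∈ Icc 1 X, (GG (0 * ((t : ℕ) : ℤ) + v).natAbs) ^ 6 = GG (Int.gcd 0 v) ^ 6 := by
      intro t _
      rw [zero_mul, zero_add, Int.gcd_zero_left]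
    rw [sum_congr rfl e, sum_const, Nat.card_Icc, Nat.add_sub_cancel, nsmul_eq_mul]
    have h1 : (1:ℝ) ≤ max C 1 := le_max_right _ _
    have h2 : 0 ≤ (X:ℝ) * GG (Int.gcd 0 v) ^ 6 := by positivity
    nlinarith
  · obtain ⟨α, rfl⟩ : ∃ α : ℕ, u = (α : ℤ) := ⟨u.natAbs, by omega⟩
    apply fin α (-v) (by omega)
    · unfold Int.gcd
      rw [Int.natAbs_neg, Int.natAbs_natCast]
    · intro t
      rw [sub_neg_eq_add]

end Pool.Agent.Helper24K9.EL
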