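import Mathlib
import Pool.Agent.Helper24K9.EL.Mo

set_option autoImplicit false

/-! Second moment along a line of coefficients. -/

open Finset

namespace Pool.Agent.Helper24K9.EL

open Pool.Agent.Erdos456 Pool.Agent.Erdos456.Mert Pool.Agent.W218.HF

namespace Ln

variable (l : Ln)

/-- the coefficients of the bilinear form `(G₁H₂ - G₂H₁)/(t₁ - t₂)` -/
def A : ℤ := l.α * l.b - l.β * l.a
def B : ℤ := l.α * l.c - l.γ * l.a
def C : ℤ := l.β * l.c - l.γ * l.b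
/-- the resultant of `g` and `h` -/
def R : ℤ := l.B ^ 2 - l.A * l.C

lemma R_ne : l.R ≠ 0 := by
  have := l.hR
  unfold R A B C
  intro h
  apply this
  linarith

lemma key (s t : ℕ) : l.G s * l.H t - l.G t * l.H s =
    ((s : ℤ) - t) * (((l.A * s + l.B) * t) + (l.B * s + l.C)) := by
  unfold G H A B C; ring

lemma uv_ne (s : ℕ) : l.A * s + l.B ≠ 0 ∨ l.B * s + l.C ≠ 0 := by
  by_contra hcon
  push Not at hcon
  apply l.R_ne
  have h1 := hcon.1
  have h2 := hcon.2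
  unfold R
  have : l.B ^ 2 - l.A * l.C = l.B * (l.A * s + l.B) - l.A * (l.B * s + l.C) := by ring
  rw [this, h1, h2]; ring

lemma gcd_uv_dvd (s : ℕ) : Int.gcd (l.A * s + l.B) (l.B * s + l.C) ∣ l.R.natAbs := by
  have h1 : ((Int.gcd (l.A * s + l.B) (l.B * s + l.C) : ℕ) : ℤ) ∣ l.R := by
    have e : l.R = l.B * (l.A * s + l.B) - l.A * (l.B * s + l.C) := by unfold R; ring
    rw [e]
    exact dvd_sub ((Int.gcd_dvd_left _ _).mul_left _) ((Int.gcd_dvd_right _ _).mul_left _)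
  exact Int.natCast_dvd.1 h1

lemma g_eq {t : ℕ} (ht : l.t0 ≤ t) : l.g t = (l.G t).natAbs := by
  have := l.G_pos ht
  unfold g
  omega

lemma coef_ne : l.α ≠ 0 ∨ l.β ≠ 0 ∨ l.γ ≠ 0 := by
  rcases l.hg with h | ⟨_, h, _⟩
  · exact Or.inl h.ne'
  · exact Or.inr (Or.inl h.ne')

/-- the sixth moment of `g t / φ(g t)` -/
theorem momG : ∃ C : ℝ, 0 < C ∧ ∀ (X : ℕ) (T : Finset ℕ), T ⊆ Icc l.t0 X →
    ∑ t ∈ T, (GG (l.g t)) ^ 6 ≤ C * X := by
  obtain ⟨C, hC, h⟩ := momQ l.α l.β l.γ l.coef_ne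
  refine ⟨C, hC, fun X T hT => ?_⟩
  have hS0 : 1 ≤ l.t0 := by have := l.S_pos'; unfold t0; omega
  rcases Nat.eq_zero_or_pos X with hX | hX
  · have : T = ∅ := by
      apply Finset.eq_empty_of_forall_notMem
      intro t ht
      have := mem_Icc.1 (hT ht)
      omega
    rw [this, sum_empty, hX]; simp
  have h1 : ∑ t ∈ T, (GG (l.g t)) ^ 6 = ∑ t ∈ T, (GG (l.α * (t : ℤ) ^ 2 + l.β * t + l.γ).natAbs) ^ 6 := by
    apply sum_congr rfl
    intro t ht
    rw [l.g_eq (mem_Icc.1 (hT ht)).1]; rfl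
  rw [h1]
  refine le_trans ?_ (h X hX)
  apply sum_le_sum_of_subset_of_nonneg
  · intro t ht
    have := mem_Icc.1 (hT ht)
    exact mem_Icc.2 ⟨by omega, this.2⟩
  · intro t _ _
    have := GG_nonneg (l.α * (t : ℤ) ^ 2 + l.β * t + l.γ).natAbs
    positivity

theorem second : ∃ (C : ℝ) (K₁ : ℕ), 0 < C ∧ ∀ (K x : ℕ) (T : Finset ℕ), K₁ ≤ K →
    Real.log K ≤ x → T ⊆ Icc l.t0 x → (∀ t ∈ T, IsCoprime (l.G t) (l.H t)) →
    ∑ k ∈ Ioc l.k0 K, ((((T.filter (fun t : ℕ => ((k : ℤ) * l.G t + l.H t).toNat.Prime)).card :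
      ℕ)) : ℝ) ^ 2 ≤ C * (x ^ 2 * (K / Real.log K ^ 2)) := by
  classical
  obtain ⟨C₁, hC₁, h6⟩ := l.momG
  obtain ⟨C₂, hC₂, hmom⟩ := momL
  obtain ⟨C₃, hC₃, hsv⟩ := sieve_two'
  set ρ : ℝ := GG l.R.natAbs with hρ
  have hR0 : 0 < l.R.natAbs := Int.natAbs_pos.2 l.R_ne
  have hρ1 : 1 ≤ ρ := one_le_GG hR0
  set SQ : ℕ := l.A.natAbs + 2 * l.B.natAbs + l.C.natAbs + 1 with hSQ
  refine ⟨40 * C₁ + C₃ * (C₁ ^ 2 + C₂ + C₂ * ρ ^ 6) * 4, 4 + 2 * l.k0 + SQ, by positivity, ?_⟩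
  intro K x T hK hlog hT hTc
  have hB : 4 ≤ K := by omega
  have hb0 : 2 * l.k0 ≤ K := by omega
  have hSQK : SQ ≤ K := by omega
  set B := K with hBK
  set b0 := l.k0 with hbk
  have hBr : (4 : ℝ) ≤ B := by exact_mod_cast hB
  have hlB : 0 < Real.log B := Real.log_pos (by linarith)
  have hx0 : 0 < (x : ℝ) := lt_of_lt_of_le hlB hlog
  have hx1 : 1 ≤ x := by
    have : 0 < x := by exact_mod_cast hx0
    omega
  have hx1r : (1:ℝ) ≤ x := by exact_mod_cast hx1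
  set N := B - b0 with hN
  have hN2 : 2 ≤ N := by omega
  have hNB : (N : ℝ) ≤ B := by
    have : N ≤ B := by omega
    exact_mod_cast this
  have hNhalf : (B : ℝ) ≤ 2 * N := by
    have : B ≤ 2 * N := by omega
    exact_mod_cast this
  have hN0 : (0 : ℝ) < N := by linarith
  have hlN : Real.log B / 2 ≤ Real.log N := by
    have h1 : Real.log B ≤ Real.log ((N : ℝ) ^ 2) := by
      apply Real.log_le_log (by linarith)
      nlinarith
    rw [Real.log_pow] at h1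
    push_cast at h1
    linarith
  have hlN0 : 0 < Real.log N := by linarith
  have hNl : (N : ℝ) / Real.log N ≤ 2 * (B / Real.log B) := by
    rw [div_le_iff₀ hlN0]
    have : (2 : ℝ) * (B / Real.log B) * Real.log N = (B / Real.log B) * (2 * Real.log N) := by ring
    rw [this]
    have h2 : (B : ℝ) / Real.log B * (2 * Real.log N) ≥ (B / Real.log B) * Real.log B := by
      apply mul_le_mul_of_nonneg_left _ (by positivity)
      linarith
    rw [div_mul_cancel₀ _ hlB.ne'] at h2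
    linarith
  have hNl2 : (N : ℝ) / Real.log N ^ 2 ≤ 4 * (B / Real.log B ^ 2) := by
    rw [div_le_iff₀ (by positivity)]
    have : (4 : ℝ) * (B / Real.log B ^ 2) * Real.log N ^ 2 =
      (B / Real.log B ^ 2) * (2 * Real.log N) ^ 2 := by ring
    rw [this]
    have h2 : (B : ℝ) / Real.log B ^ 2 * (2 * Real.log N) ^ 2 ≥
        (B / Real.log B ^ 2) * Real.log B ^ 2 := by
      apply mul_le_mul_of_nonneg_left _ (by positivity)
      exact pow_le_pow_left₀ hlB.le (by linarith) 2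
    rw [div_mul_cancel₀ _ (by positivity)] at h2
    linarith
  -- the shifts
  set e : ℕ → ℕ := fun t => ((b0 : ℤ) * l.G t + l.H t).toNat with he
  have hecast : ∀ t ∈ T, ((e t : ℕ) : ℤ) = (b0 : ℤ) * l.G t + l.H t := by
    intro t ht
    exact Int.toNat_of_nonneg (l.k0_spec (mem_Icc.1 (hT ht)).1)
  have hgcast : ∀ t ∈ T, ((l.g t : ℕ) : ℤ) = l.G t := fun t ht => l.g_cast (mem_Icc.1 (hT ht)).1
  have hgpos : ∀ t ∈ T, 1 ≤ l.g t := fun t ht => l.g_pos (mem_Icc.1 (hT ht)).1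
  have heq : ∀ t ∈ T, ∀ n : ℕ, (((b0 + n : ℕ) : ℤ) * l.G t + l.H t).toNat = l.g t * n + e t := by
    intro t ht n
    have h1 := hecast t ht
    have h3 := hgcast t ht
    have h2 : ((b0 + n : ℕ) : ℤ) * l.G t + l.H t = ((l.g t * n + e t : ℕ) : ℤ) := by
      push_cast
      rw [h1, h3]; ring
    rw [h2, Int.toNat_natCast]
  -- rewrite the sum
  have hsum : ∑ b ∈ Ioc b0 B, ((((T.filter (fun t : ℕ =>
      ((b : ℤ) * l.G t + l.H t).toNat.Prime)).card : ℕ)) : ℝ) ^ 2 =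
      ∑ t₁ ∈ T, ∑ t₂ ∈ T, ((((Icc 1 N).filter (fun n =>
        (l.g t₁ * n + e t₁).Prime ∧ (l.g t₂ * n + e t₂).Prime)).card : ℕ) : ℝ) := by
    have h1 : Ioc b0 B = (Icc 1 N).image (fun n => b0 + n) := by
      ext b
      simp only [mem_Ioc, mem_image, mem_Icc]
      constructor
      · intro h; exact ⟨b - b0, by omega, by omega⟩
      · rintro ⟨n, hn, rfl⟩; omega
    rw [h1, sum_image (fun n _ m _ h => by
      have h' : b0 + n = b0 + m := h
      omega)]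
    have h2 : ∀ n ∈ Icc 1 N, ((((T.filter (fun t : ℕ =>
        (((b0 + n : ℕ) : ℤ) * l.G t + l.H t).toNat.Prime)).card : ℕ)) : ℝ) ^ 2 =
        ∑ t₁ ∈ T, ∑ t₂ ∈ T, (if (l.g t₁ * n + e t₁).Prime ∧ (l.g t₂ * n + e t₂).Prime then (1 : ℝ) else 0) := by
      intro n _
      have h3 : T.filter (fun t : ℕ => (((b0 + n : ℕ) : ℤ) * l.G t + l.H t).toNat.Prime) =
          T.filter (fun t => (l.g t * n + e t).Prime) := by
        apply filter_congr
        intro t ht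
        rw [heq t ht n]
      rw [h3, card_filter]
      push_cast
      rw [sq, sum_mul_sum]
      apply sum_congr rfl
      intro t₁ _
      apply sum_congr rfl
      intro t₂ _
      by_cases h4 : (l.g t₁ * n + e t₁).Prime <;> by_cases h5 : (l.g t₂ * n + e t₂).Prime <;> simp [h4, h5]
    rw [sum_congr rfl h2, sum_comm]
    apply sum_congr rfl
    intro t₁ _
    rw [sum_comm]
    apply sum_congr rfl
    intro t₂ _
    rw [card_filter]
    push_cast
    rfl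
  rw [hsum]
  -- bound for each pair
  set uu : ℕ → ℕ → ℕ := fun t₁ t₂ => ((((1 : ℕ) : ℤ) * t₂ - (t₁ : ℤ)).natAbs) with huu
  set vv : ℕ → ℕ → ℕ := fun t₁ t₂ => ((l.A * t₁ + l.B) * t₂ + (l.B * t₁ + l.C)).natAbs with hvv
  have hpair : ∀ t₁ ∈ T, ∀ t₂ ∈ T, ((((Icc 1 N).filter (fun n =>
        (l.g t₁ * n + e t₁).Prime ∧ (l.g t₂ * n + e t₂).Prime)).card : ℕ) : ℝ) ≤
      (if t₁ = t₂ then 40 * GG (l.g t₁) ^ 6 * (B / Real.log B) else 0) +
      C₃ * ((GG (l.g t₁) ^ 6 * GG (l.g t₂) ^ 6) + GG (uu t₁ t₂) ^ 6 +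
        GG (vv t₁ t₂) ^ 6) * (4 * (B / Real.log B ^ 2)) := by
    intro t₁ h₁ t₂ h₂
    have hp1 := mem_Icc.1 (hT h₁)
    have hp2 := mem_Icc.1 (hT h₂)
    have hoff0 : 0 ≤ C₃ * ((GG (l.g t₁) ^ 6 * GG (l.g t₂) ^ 6) + GG (uu t₁ t₂) ^ 6 +
        GG (vv t₁ t₂) ^ 6) * (4 * (B / Real.log B ^ 2)) := by
      have := GG_nonneg (l.g t₁)
      have := GG_nonneg (l.g t₂)
      have := GG_nonneg (uu t₁ t₂)
      have := GG_nonneg (vv t₁ t₂)
      positivity
    by_cases h12 : t₁ = t₂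
    · subst h12
      rw [if_pos rfl]
      have h3 := one_form (t := l.g t₁) (e := e t₁) (N := N) (hgpos t₁ h₁) hN2
      have h4 : (((Icc 1 N).filter (fun n =>
        (l.g t₁ * n + e t₁).Prime ∧ (l.g t₁ * n + e t₁).Prime)).card : ℝ) =
        (((Icc 1 N).filter (fun n => (l.g t₁ * n + e t₁).Prime)).card : ℝ) := by
        simp only [and_self]
      rw [h4]
      have h5 : 20 * GG (l.g t₁) * (N / Real.log N) ≤ 40 * GG (l.g t₁) ^ 6 * (B / Real.log B) := by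
        have h6' := GG_le_six (n := l.g t₁) (hgpos t₁ h₁)
        have h7 := GG_nonneg (l.g t₁)
        calc 20 * GG (l.g t₁) * (N / Real.log N) ≤ 20 * GG (l.g t₁) * (2 * (B / Real.log B)) := by gcongr
          _ ≤ 20 * GG (l.g t₁) ^ 6 * (2 * (B / Real.log B)) := by gcongr
          _ = _ := by ring
      linarith
    · rw [if_neg h12, zero_add]
      have hcop : ∀ t ∈ T, Nat.Coprime (l.g t) (e t) := by
        intro t ht
        have h1 := hecast t ht
        have h3 : IsCoprime ((l.g t : ℕ) : ℤ) ((e t : ℕ) : ℤ) := by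
          rw [h1, hgcast t ht]
          have := (hTc t ht).add_mul_left_right (b0 : ℤ)
          have e3 : l.H t + l.G t * (b0 : ℤ) = (b0 : ℤ) * l.G t + l.H t := by ring
          rwa [e3] at this
        exact Nat.isCoprime_iff_coprime.1 h3
      have hkey : ((l.g t₁ * e t₂ : ℕ) : ℤ) - ((l.g t₂ * e t₁ : ℕ) : ℤ) =
          -((((1 : ℕ) : ℤ) * t₂ - (t₁ : ℤ)) * ((l.A * t₁ + l.B) * t₂ + (l.B * t₁ + l.C))) := by
        have h1 := hecast t₁ h₁
        have h2 := hecast t₂ h₂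
        have h3 := hgcast t₁ h₁
        have h4 := hgcast t₂ h₂
        have h5 := l.key t₁ t₂
        push_cast
        rw [h1, h2, h3, h4]
        linear_combination h5
      have hne : l.g t₁ * e t₂ ≠ l.g t₂ * e t₁ := by
        intro h
        have h3 : l.g t₁ ∣ l.g t₂ := by
          have h4 : l.g t₁ ∣ l.g t₂ * e t₁ := ⟨e t₂, h.symm⟩
          exact (hcop t₁ h₁).dvd_of_dvd_mul_right h4
        have h4 : l.g t₂ ∣ l.g t₁ := by
          have h5 : l.g t₂ ∣ l.g t₁ * e t₂ := ⟨e t₁, h⟩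
          exact (hcop t₂ h₂).dvd_of_dvd_mul_right h5
        have h5 := Nat.dvd_antisymm h3 h4
        have h6 : l.G t₁ = l.G t₂ := by
          rw [← hgcast t₁ h₁, ← hgcast t₂ h₂, h5]
        rcases lt_or_gt_of_ne h12 with h7 | h7
        · have := l.G_lt hp1.1 h7; linarith
        · have := l.G_lt hp2.1 h7; linarith
      have h3 := hsv (l.g t₁) (e t₁) (l.g t₂) (e t₂) N (hgpos t₁ h₁) (hgpos t₂ h₂) (hcop t₁ h₁) (hcop t₂ h₂) hne hN2
      rw [hkey, Int.natAbs_neg, Int.natAbs_mul] at h3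
      set u := uu t₁ t₂ with hu
      set v := vv t₁ t₂ with hv
      have h3' : ((((Icc 1 N).filter (fun n =>
        (l.g t₁ * n + e t₁).Prime ∧ (l.g t₂ * n + e t₂).Prime)).card : ℕ) : ℝ) ≤
          C₃ * GG (l.g t₁ * l.g t₂ * (u * v)) ^ 2 * N / Real.log N ^ 2 := h3
      have h4 : GG (l.g t₁ * l.g t₂ * (u * v)) ≤ GG (l.g t₁) * GG (l.g t₂) * (GG u) * GG v := by
        calc GG (l.g t₁ * l.g t₂ * (u * v)) ≤ GG (l.g t₁ * l.g t₂) * GG (u * v) := GG_mul_le _ _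
          _ ≤ (GG (l.g t₁) * GG (l.g t₂)) * (GG u * GG v) := by
              apply mul_le_mul (GG_mul_le _ _) (GG_mul_le _ _) (GG_nonneg _)
              exact mul_nonneg (GG_nonneg _) (GG_nonneg _)
          _ = _ := by ring
      have h5 : GG (l.g t₁ * l.g t₂ * (u * v)) ^ 2 ≤ GG (l.g t₁) ^ 6 * GG (l.g t₂) ^ 6 + GG u ^ 6 + GG v ^ 6 := by
        have key : ∀ p q r : ℝ, 0 ≤ p → 0 ≤ q → 0 ≤ r → (p * q * r) ^ 2 ≤ p ^ 6 + q ^ 6 + r ^ 6 := by
          intro p q r hp hq hr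
          have key : ∀ u v w : ℝ, 0 ≤ u → 0 ≤ v → 0 ≤ w → u * v * w ≤ u ^ 3 + v ^ 3 + w ^ 3 := by
            intro u v w hu hv hw
            set m := max u (max v w) with hm
            have h1 : u ≤ m := le_max_left _ _
            have h2 : v ≤ m := (le_max_left _ _).trans (le_max_right _ _)
            have h3 : w ≤ m := (le_max_right _ _).trans (le_max_right _ _)
            have hm0 : 0 ≤ m := hu.trans h1
            have h4 : u * v * w ≤ m ^ 3 := by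
              calc u * v * w ≤ m * m * m := by gcongr
                _ = m ^ 3 := by ring
            have hu3 : 0 ≤ u ^ 3 := by positivity
            have hv3 : 0 ≤ v ^ 3 := by positivity
            have hw3 : 0 ≤ w ^ 3 := by positivity
            have h5 : m ^ 3 ≤ u ^ 3 + v ^ 3 + w ^ 3 := by
              rcases max_choice u (max v w) with h | h
              · rw [hm, h]; linarith
              · rcases max_choice v w with h' | h'
                · rw [hm, h, h']; linarith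
                · rw [hm, h, h']; linarith
            exact h4.trans h5
          have := key (p ^ 2) (q ^ 2) (r ^ 2) (by positivity) (by positivity) (by positivity)
          calc (p * q * r) ^ 2 = p ^ 2 * q ^ 2 * r ^ 2 := by ring
            _ ≤ (p ^ 2) ^ 3 + (q ^ 2) ^ 3 + (r ^ 2) ^ 3 := this
            _ = _ := by ring
        have h7 := key (GG (l.g t₁) * GG (l.g t₂)) (GG u) (GG v) (mul_nonneg (GG_nonneg _) (GG_nonneg _))
          (GG_nonneg _) (GG_nonneg _)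
        calc GG (l.g t₁ * l.g t₂ * (u * v)) ^ 2 ≤ (GG (l.g t₁) * GG (l.g t₂) * (GG u) * GG v) ^ 2 :=
              pow_le_pow_left₀ (GG_nonneg _) h4 2
          _ ≤ (GG (l.g t₁) * GG (l.g t₂)) ^ 6 + GG u ^ 6 + GG v ^ 6 := h7
          _ = _ := by rw [mul_pow]
      have hG2 : 0 ≤ GG (l.g t₁ * l.g t₂ * (u * v)) ^ 2 := by positivity
      calc _ ≤ C₃ * GG (l.g t₁ * l.g t₂ * (u * v)) ^ 2 * N / Real.log N ^ 2 := h3'
        _ = C₃ * GG (l.g t₁ * l.g t₂ * (u * v)) ^ 2 * (N / Real.log N ^ 2) := by ring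
        _ ≤ C₃ * (GG (l.g t₁) ^ 6 * GG (l.g t₂) ^ 6 + GG u ^ 6 + GG v ^ 6) * (4 * (B / Real.log B ^ 2)) := by
            gcongr
  -- exponential bounds
  have hBx : (B : ℝ) ≤ Real.exp x := by
    have := Real.exp_le_exp.2 hlog
    rwa [Real.exp_log (by linarith)] at this
  have hxe : (x : ℝ) + 1 ≤ Real.exp x := Real.add_one_le_exp _
  have hm1 : ∀ t₁ ∈ Icc 1 x, ∑ t₂ ∈ Icc 1 x, GG (uu t₁ t₂) ^ 6 ≤
      C₂ * x := by
    intro t₁ h₁
    rw [mem_Icc] at h₁
    have h := hmom x 1 (-(t₁ : ℤ)) hx1 (Or.inl one_ne_zero) (by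
      intro t ht
      rw [mem_Icc] at ht
      have h2 : (1 * (t : ℤ) + -(t₁ : ℤ)).natAbs ≤ x := by omega
      have h3 : ((((1 * (t : ℤ) + -(t₁ : ℤ)).natAbs : ℕ)) : ℝ) ≤ x := by exact_mod_cast h2
      have h4 : Real.exp x ≤ Real.exp (4 * x) := Real.exp_le_exp.2 (by linarith)
      linarith)
    have e1 : Int.gcd 1 (-(t₁ : ℤ)) = 1 := Int.one_gcd
    have e2 : GG 1 = 1 := by simp [GG]
    rw [e1, e2, one_pow, mul_one] at h
    refine le_trans (le_of_eq ?_) h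
    apply sum_congr rfl
    intro t _
    simp only [huu, Nat.cast_one]
    rw [sub_eq_add_neg]
  have hm2 : ∀ t₁ ∈ Icc 1 x, ∑ t₂ ∈ Icc 1 x, GG (vv t₁ t₂) ^ 6 ≤
      C₂ * ρ ^ 6 * x := by
    intro t₁ h₁
    rw [mem_Icc] at h₁
    have h := hmom x (l.A * t₁ + l.B) (l.B * t₁ + l.C) hx1 (l.uv_ne t₁) (by
      intro t ht
      rw [mem_Icc] at ht
      have h2 : ((l.A * t₁ + l.B) * t + (l.B * t₁ + l.C)).natAbs ≤ SQ * x ^ 2 := by
        have h3 : ((l.A * t₁ + l.B) * t + (l.B * t₁ + l.C)).natAbs ≤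
            (l.A.natAbs * t₁ + l.B.natAbs) * t + (l.B.natAbs * t₁ + l.C.natAbs) := by
          calc ((l.A * t₁ + l.B) * t + (l.B * t₁ + l.C)).natAbs
              ≤ ((l.A * t₁ + l.B) * t).natAbs + (l.B * t₁ + l.C).natAbs := Int.natAbs_add_le _ _
            _ = (l.A * t₁ + l.B).natAbs * t + (l.B * t₁ + l.C).natAbs := by
                rw [Int.natAbs_mul, Int.natAbs_natCast]
            _ ≤ ((l.A * t₁).natAbs + l.B.natAbs) * t + ((l.B * t₁).natAbs + l.C.natAbs) := by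
                apply Nat.add_le_add
                · exact Nat.mul_le_mul_right _ (Int.natAbs_add_le _ _)
                · exact Int.natAbs_add_le _ _
            _ = _ := by rw [Int.natAbs_mul, Int.natAbs_mul, Int.natAbs_natCast]
        refine h3.trans ?_
        have h4 : t₁ * t ≤ x ^ 2 := by
          rw [sq]; exact Nat.mul_le_mul h₁.2 ht.2
        have h5 : t ≤ x ^ 2 := by nlinarith [ht.2]
        have h6 : t₁ ≤ x ^ 2 := by nlinarith [h₁.2]
        have h7 : 1 ≤ x ^ 2 := Nat.one_le_pow _ _ (by omega)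
        calc (l.A.natAbs * t₁ + l.B.natAbs) * t + (l.B.natAbs * t₁ + l.C.natAbs)
            = l.A.natAbs * (t₁ * t) + l.B.natAbs * t + l.B.natAbs * t₁ + l.C.natAbs * 1 := by ring
          _ ≤ l.A.natAbs * x ^ 2 + l.B.natAbs * x ^ 2 + l.B.natAbs * x ^ 2 + l.C.natAbs * x ^ 2 := by gcongr
          _ ≤ SQ * x ^ 2 := by rw [hSQ]; nlinarith
      have h3 : (((((l.A * t₁ + l.B) * t + (l.B * t₁ + l.C)).natAbs : ℕ)) : ℝ) ≤ SQ * (x : ℝ) ^ 2 := by exact_mod_cast h2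
      have h4 : (SQ : ℝ) ≤ Real.exp x := by
        have : (SQ : ℝ) ≤ B := by exact_mod_cast hSQK
        linarith
      calc (((((l.A * t₁ + l.B) * t + (l.B * t₁ + l.C)).natAbs : ℕ)) : ℝ) ≤ SQ * (x : ℝ) ^ 2 := h3
        _ ≤ Real.exp x * (Real.exp x) ^ 2 := by
            gcongr
            linarith
        _ ≤ Real.exp (4 * x) := by
            rw [← Real.exp_nat_mul, ← Real.exp_add]
            apply Real.exp_le_exp.2
            push_cast
            linarith)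
    refine h.trans ?_
    have h1 : GG (Int.gcd (l.A * t₁ + l.B) (l.B * t₁ + l.C)) ≤ ρ := GG_mono_dvd hR0 (l.gcd_uv_dvd t₁)
    have h2 := GG_nonneg (Int.gcd (l.A * t₁ + l.B) (l.B * t₁ + l.C))
    gcongr
  have h6x := h6 x T hT
  -- sum up
  have hL : 0 ≤ (4 : ℝ) * (B / Real.log B ^ 2) := by positivity
  have hTI : T ⊆ Icc 1 x := by
    intro t ht
    have h1 := mem_Icc.1 (hT ht)
    have hS0 : 1 ≤ l.t0 := by have := l.S_pos'; unfold t0; omega
    exact mem_Icc.2 ⟨by omega, h1.2⟩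
  have hTc' : (T.card : ℝ) ≤ x := by
    have := card_le_card hTI
    rw [Nat.card_Icc, Nat.add_sub_cancel] at this
    exact_mod_cast this
  have hall : ∑ t₁ ∈ T, ∑ t₂ ∈ T, ((((Icc 1 N).filter (fun n =>
        (l.g t₁ * n + e t₁).Prime ∧ (l.g t₂ * n + e t₂).Prime)).card : ℕ) : ℝ) ≤
      ∑ t₁ ∈ T, (40 * GG (l.g t₁) ^ 6 * (B / Real.log B)) +
      ∑ t₁ ∈ T, ∑ t₂ ∈ T,
        C₃ * ((GG (l.g t₁) ^ 6 * GG (l.g t₂) ^ 6) + GG (uu t₁ t₂) ^ 6 +
        GG (vv t₁ t₂) ^ 6) * (4 * (B / Real.log B ^ 2)) := by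
    have h1 := sum_le_sum fun t₁ h₁ => sum_le_sum fun t₂ h₂ => hpair t₁ h₁ t₂ h₂
    refine h1.trans ?_
    simp only [sum_add_distrib]
    apply add_le_add
    · have h2 : ∀ t₁ ∈ T, ∑ t₂ ∈ T, (if t₁ = t₂ then 40 * GG (l.g t₁) ^ 6 * (B / Real.log B) else 0) =
          40 * GG (l.g t₁) ^ 6 * (B / Real.log B) := by
        intro t₁ h₁
        rw [sum_ite_eq, if_pos h₁]
      rw [sum_congr rfl h2]
    · exact le_rfl
  have hdiag : ∑ t₁ ∈ T, (40 * GG (l.g t₁) ^ 6 * (B / Real.log B)) ≤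
      40 * C₁ * (x ^ 2 * (B / Real.log B ^ 2)) := by
    rw [← sum_mul, ← mul_sum]
    have h1 : (B : ℝ) / Real.log B ≤ x * (B / Real.log B ^ 2) := by
      have e1 : (B : ℝ) / Real.log B = Real.log B * (B / Real.log B ^ 2) := by
        field_simp
      rw [e1]
      gcongr
    calc (40 * ∑ t₁ ∈ T, GG (l.g t₁) ^ 6) * (B / Real.log B)
        ≤ 40 * (C₁ * x) * (B / Real.log B) := by gcongr
      _ ≤ 40 * (C₁ * x) * (x * (B / Real.log B ^ 2)) := by gcongr
      _ = _ := by ring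
  have hoff : ∑ t₁ ∈ T, ∑ t₂ ∈ T,
        C₃ * ((GG (l.g t₁) ^ 6 * GG (l.g t₂) ^ 6) + GG (uu t₁ t₂) ^ 6 +
        GG (vv t₁ t₂) ^ 6) * (4 * (B / Real.log B ^ 2)) ≤
      C₃ * (C₁ ^ 2 + C₂ + C₂ * ρ ^ 6) * 4 * (x ^ 2 * (B / Real.log B ^ 2)) := by
    have h1 : ∀ t₁ ∈ T, ∑ t₂ ∈ T,
        C₃ * ((GG (l.g t₁) ^ 6 * GG (l.g t₂) ^ 6) + GG (uu t₁ t₂) ^ 6 +
        GG (vv t₁ t₂) ^ 6) * (4 * (B / Real.log B ^ 2)) ≤
        C₃ * (GG (l.g t₁) ^ 6 * (C₁ * x) + C₂ * x + C₂ * ρ ^ 6 * x) * (4 * (B / Real.log B ^ 2)) := by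
      intro t₁ h₁
      rw [← sum_mul, ← mul_sum, sum_add_distrib, sum_add_distrib, ← mul_sum]
      have := GG_nonneg (l.g t₁)
      have a1 : ∑ t₂ ∈ T, GG (uu t₁ t₂) ^ 6 ≤ C₂ * x := by
        refine le_trans ?_ (hm1 t₁ (hTI h₁))
        exact sum_le_sum_of_subset_of_nonneg hTI fun t _ _ => by
          have := GG_nonneg (uu t₁ t)
          positivity
      have a2 : ∑ t₂ ∈ T, GG (vv t₁ t₂) ^ 6 ≤ C₂ * ρ ^ 6 * x := by
        refine le_trans ?_ (hm2 t₁ (hTI h₁))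
        exact sum_le_sum_of_subset_of_nonneg hTI fun t _ _ => by
          have := GG_nonneg (vv t₁ t)
          positivity
      gcongr
    refine (sum_le_sum h1).trans ?_
    rw [← sum_mul, ← mul_sum, sum_add_distrib, sum_add_distrib, ← sum_mul, sum_const, sum_const,
      nsmul_eq_mul, nsmul_eq_mul]
    calc _ ≤ C₃ * ((C₁ * x) * (C₁ * x) + x * (C₂ * x) + x * (C₂ * ρ ^ 6 * x)) *
          (4 * (B / Real.log B ^ 2)) := by gcongr
      _ = _ := by ring
  calc _ ≤ 40 * C₁ * (x ^ 2 * (B / Real.log B ^ 2)) +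
        C₃ * (C₁ ^ 2 + C₂ + C₂ * ρ ^ 6) * 4 * (x ^ 2 * (B / Real.log B ^ 2)) :=
        hall.trans (add_le_add hdiag hoff)
    _ = _ := by ring

end Ln

end Pool.Agent.Helper24K9.EL
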