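import Mathlib
import Pool.Agent.Helper24K9.EL.Ln

set_option autoImplicit false

/-! The weights `∑_{f ∣ g(t)} 1/φ(g(t))`. -/

open Finset Filter Topology

namespace Pool.Agent.Helper24K9.EL

open Pool.Agent.Erdos456

namespace Ln

variable (l : Ln)

/-- the number of `t ≤ n` with `f ∣ g t` -/
theorem card_dvd (e : ℝ) (he : 0 < e) : ∃ C : ℝ, 0 < C ∧ ∀ (n f : ℕ), 2 ≤ f → ∀ T : Finset ℕ,
    T ⊆ Icc l.t0 n → (∃ t ∈ T, f ∣ l.g t) →
    ((T.filter (fun t => f ∣ l.g t)).card : ℝ) ≤ C * n * (f:ℝ) ^ (e - 1 / 2) := by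
  classical
  obtain ⟨C1, hC1, hdiv⟩ := Pool.Agent.H373R2.T4.DivB.div_bound he
  have hS1 : (1:ℝ) ≤ l.S := by exact_mod_cast l.S_pos'
  have hSle : |l.α| + |l.β| + |l.γ| + |l.a| + |l.b| + |l.c| + 1 = (l.S : ℤ) := l.abs_le_S
  refine ⟨C1 * (2 * l.S * (1 + l.S)), by positivity, ?_⟩
  intro n f hf T hT hex
  obtain ⟨t, ht, hft⟩ := hex
  have htI := mem_Icc.1 (hT ht)
  have ht0 : l.t0 ≤ t := htI.1
  have hS0 : 1 ≤ l.t0 := by have := l.S_pos'; unfold t0; omega
  have hn1 : 1 ≤ n := by omega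
  have hnr : (1:ℝ) ≤ n := by exact_mod_cast hn1
  have hf0 : (0:ℝ) < f := by exact_mod_cast (by omega : 0 < f)
  have hf1 : (1:ℝ) ≤ f := by exact_mod_cast (by omega : 1 ≤ f)
  have hfg : f ≤ l.g t := Nat.le_of_dvd (l.g_pos ht0) hft
  have hfG : (f : ℤ) ≤ l.G n := by
    calc (f : ℤ) ≤ (l.g t : ℤ) := by exact_mod_cast hfg
      _ = l.G t := l.g_cast ht0
      _ ≤ l.G n := l.G_le ht0 htI.2
  have hsub : T.filter (fun t => f ∣ l.g t) ⊆ (Icc 1 n).filter (fun t : ℕ => (f : ℤ) ∣ l.G t) := by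
    intro s hs
    rw [mem_filter] at hs ⊢
    have hsI := mem_Icc.1 (hT hs.1)
    refine ⟨mem_Icc.2 ⟨by omega, hsI.2⟩, ?_⟩
    rw [← l.g_cast hsI.1]
    exact_mod_cast hs.2
  have hcard : ((T.filter (fun t => f ∣ l.g t)).card : ℝ) ≤
      (((Icc 1 n).filter (fun t : ℕ => (f : ℤ) ∣ l.G t)).card : ℝ) := by
    exact_mod_cast card_le_card hsub
  refine hcard.trans ?_
  have hfe : (1:ℝ) ≤ (f:ℝ) ^ e := Real.one_le_rpow hf1 he.le
  rcases l.hg with h | ⟨h2, h3, h4⟩
  · have h1 := card_quad n f (by omega) l.α l.β l.γ h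
    have h2 : (f:ℝ) ≤ l.S * (n:ℝ) ^ 2 := by
      have := hfG.trans (l.G_le_sq hn1)
      exact_mod_cast this
    have hsf : 0 < Real.sqrt f := Real.sqrt_pos.2 hf0
    have h3 : 1 ≤ (l.S : ℝ) * (n / Real.sqrt f) := by
      rw [← mul_div_assoc, one_le_div hsf]
      apply Real.sqrt_le_iff.2
      refine ⟨by positivity, h2.trans ?_⟩
      rw [mul_pow]
      apply mul_le_mul_of_nonneg_right _ (by positivity)
      nlinarith
    have hα0 : (0:ℝ) < l.α := by exact_mod_cast h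
    have hαS : (l.α : ℝ) ≤ l.S := by
      have : l.α ≤ (l.S : ℤ) := by
        rw [← hSle]
        have := le_abs_self l.α
        have := abs_nonneg l.β
        have := abs_nonneg l.γ
        have := abs_nonneg l.a
        have := abs_nonneg l.b
        have := abs_nonneg l.c
        linarith
      exact_mod_cast this
    have hd := hdiv f (by omega)
    have e1 : (f:ℝ) ^ (e - 1 / 2) = (f:ℝ) ^ e * (1 / Real.sqrt f) := by
      rw [Real.sqrt_eq_rpow, mul_one_div, ← Real.rpow_sub hf0]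
    calc (((Icc 1 n).filter (fun t : ℕ => (f : ℤ) ∣ l.G t)).card : ℝ) ≤
        f.divisors.card * (2 * l.α * ((n : ℝ) / Real.sqrt f + 1)) := h1
      _ ≤ (C1 * (f:ℝ) ^ e) * (2 * l.S * ((n : ℝ) / Real.sqrt f + l.S * (n / Real.sqrt f))) := by
          gcongr
      _ = C1 * (2 * l.S * (1 + l.S)) * n * ((f:ℝ) ^ e * (1 / Real.sqrt f)) := by ring
      _ = _ := by rw [e1]
  · have h1 := card_lin n f (by omega) l.β l.γ h3
    have hset : (Icc 1 n).filter (fun t : ℕ => (f : ℤ) ∣ l.G t) =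
        (Icc 1 n).filter (fun t : ℕ => (f : ℤ) ∣ l.β * t + l.γ) := by
      apply filter_congr
      intro s _
      unfold G
      rw [h2, zero_mul, zero_add]
    rw [hset]
    have h5 : (f:ℝ) ≤ l.S * n := by
      have h6 : l.G n ≤ l.S * (n : ℤ) := by
        unfold G
        rw [h2, ← hSle]
        have hn' : (1:ℤ) ≤ n := by exact_mod_cast hn1
        have := le_abs_self l.γ
        have := le_abs_self l.β
        have := abs_nonneg l.α
        have := abs_nonneg l.β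
        have := abs_nonneg l.γ
        have := abs_nonneg l.a
        have := abs_nonneg l.b
        have := abs_nonneg l.c
        nlinarith
      exact_mod_cast hfG.trans h6
    have h6 : 1 ≤ (l.S : ℝ) * (n / f) := by
      rw [← mul_div_assoc, one_le_div hf0]; exact h5
    have hβS : (l.β : ℝ) ≤ l.S := by
      have : l.β ≤ (l.S : ℤ) := by
        rw [← hSle]
        have := le_abs_self l.β
        have := abs_nonneg l.α
        have := abs_nonneg l.γ
        have := abs_nonneg l.a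
        have := abs_nonneg l.b
        have := abs_nonneg l.c
        linarith
      exact_mod_cast this
    have hβ0 : (0:ℝ) < l.β := by exact_mod_cast h3
    have h7 : 1 / (f:ℝ) ≤ (f:ℝ) ^ (e - 1 / 2) := by
      rw [one_div, ← Real.rpow_neg_one]
      exact Real.rpow_le_rpow_of_exponent_le hf1 (by linarith)
    calc (((Icc 1 n).filter (fun t : ℕ => (f : ℤ) ∣ l.β * t + l.γ)).card : ℝ) ≤
        l.β * ((n : ℝ) / f + 1) := h1
      _ ≤ l.S * ((n : ℝ) / f + l.S * (n / f)) := by gcongr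
      _ = (l.S * (1 + l.S)) * n * (1 / f) := by ring
      _ ≤ (l.S * (1 + l.S)) * n * (f:ℝ) ^ (e - 1 / 2) := by gcongr
      _ ≤ C1 * (2 * l.S * (1 + l.S)) * n * (f:ℝ) ^ (e - 1 / 2) := by
          apply mul_le_mul_of_nonneg_right _ (by positivity)
          apply mul_le_mul_of_nonneg_right _ (by positivity)
          have : 0 < (l.S:ℝ) * (1 + l.S) := by positivity
          nlinarith

theorem weight (e : ℝ) (he : 0 < e) : ∃ C : ℝ, 0 < C ∧ ∀ (n' n : ℕ), l.t0 ≤ n' → n' ≤ n →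
    ∀ T : Finset ℕ, T ⊆ Ioc n' n → ∀ f : ℕ, 2 ≤ f → (∃ t ∈ T, f ∣ l.g t) →
    ∑ t ∈ T.filter (fun t => f ∣ l.g t), 1 / (Nat.totient (l.g t) : ℝ) ≤
      (C * n * ((1 + 2 * Real.log (l.g n)) / l.g n')) * (f:ℝ) ^ (e - 1 / 2) := by
  obtain ⟨C, hC, h⟩ := l.card_dvd e he
  refine ⟨C, hC, ?_⟩
  intro n' n hn' hnn T hT f hf hex
  have h1 := h n f hf T (by
    intro t ht
    have := mem_Ioc.1 (hT ht)
    exact mem_Icc.2 ⟨by omega, this.2⟩) hex
  have hg' : (0:ℝ) < l.g n' := by exact_mod_cast l.g_pos hn'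
  have hgn : 1 ≤ l.g n := l.g_pos (hn'.trans hnn)
  have hlog0 : 0 ≤ Real.log (l.g n) := Real.log_natCast_nonneg _
  calc ∑ t ∈ T.filter (fun t => f ∣ l.g t), 1 / (Nat.totient (l.g t) : ℝ) ≤
      ∑ t ∈ T.filter (fun t => f ∣ l.g t), (1 + 2 * Real.log (l.g n)) / l.g n' := by
        apply sum_le_sum
        intro t ht
        have ht' := mem_Ioc.1 (hT (mem_filter.1 ht).1)
        have ht0 : l.t0 ≤ t := by omega
        have hgt := l.g_pos ht0
        refine (one_div_totient_le_log hgt).trans ?_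
        have h2 : Real.log (l.g t) ≤ Real.log (l.g n) :=
          Real.log_le_log (by exact_mod_cast hgt) (by exact_mod_cast l.g_le ht0 ht'.2)
        have h3 : (l.g n' : ℝ) ≤ l.g t := by exact_mod_cast l.g_le hn' ht'.1.le
        exact div_le_div₀ (by linarith) (by linarith) hg' h3
    _ = ((T.filter (fun t => f ∣ l.g t)).card : ℝ) * ((1 + 2 * Real.log (l.g n)) / l.g n') := by
        rw [sum_const, nsmul_eq_mul]
    _ ≤ (C * n * (f:ℝ) ^ (e - 1 / 2)) * ((1 + 2 * Real.log (l.g n)) / l.g n') := by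
        apply mul_le_mul_of_nonneg_right h1 (by positivity)
    _ = _ := by ring

end Ln

end Pool.Agent.Helper24K9.EL
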