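import Mathlib
import Pool.Agent.Helper24K9.EL.Fi

set_option autoImplicit false

/-! First moment along a line of coefficients: all `t`. -/

open Finset Filter Topology

namespace Pool.Agent.Helper24K9.EL

open Pool.Agent.Erdos456 H343E Pool.Agent.W218.HF

namespace Ln

variable (l : Ln)

/-- the endpoints of the blocks -/
noncomputable def ep (η : ℝ) (x : ℕ) : ℕ → ℕ
  | 0 => x
  | j + 1 => ⌊(1 - η) * (ep η x j : ℝ)⌋₊

lemma ep_le (η : ℝ) (hη : 0 < η) (hη1 : η < 1) (x j : ℕ) : (ep η x j : ℝ) ≤ (1 - η) ^ j * x := by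
  induction j with
  | zero => simp [ep]
  | succ j ih =>
    have h1 : ((ep η x (j + 1) : ℕ) : ℝ) ≤ (1 - η) * (ep η x j : ℝ) := by
      rw [ep]
      exact Nat.floor_le (mul_nonneg (by linarith) (Nat.cast_nonneg _))
    calc ((ep η x (j + 1) : ℕ) : ℝ) ≤ (1 - η) * (ep η x j : ℝ) := h1
      _ ≤ (1 - η) * ((1 - η) ^ j * x) := mul_le_mul_of_nonneg_left ih (by linarith)
      _ = _ := by ring

lemma ep_ge (η : ℝ) (hη : 0 < η) (hη1 : η < 1) (x j : ℕ) : (1 - η) ^ j * x - j ≤ ep η x j := by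
  induction j with
  | zero => simp [ep]
  | succ j ih =>
    have h1 : (1 - η) * (ep η x j : ℝ) < ep η x (j + 1) + 1 := by
      rw [ep]
      exact Nat.lt_floor_add_one _
    have h2 : (1 - η) * ((1 - η) ^ j * x - j) ≤ (1 - η) * (ep η x j : ℝ) :=
      mul_le_mul_of_nonneg_left ih (by linarith)
    have h3 : (1 - η) * ((1 - η) ^ j * x - j) = (1 - η) ^ (j + 1) * x - j + η * j := by ring
    have h4 : 0 ≤ η * (j:ℝ) := by positivity
    push_cast
    linarith

lemma ep_succ_le (η : ℝ) (hη : 0 < η) (hη1 : η < 1) (x j : ℕ) : ep η x (j + 1) ≤ ep η x j := by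
  have h1 : ((ep η x (j + 1) : ℕ) : ℝ) ≤ (1 - η) * (ep η x j : ℝ) := by
    rw [ep]
    exact Nat.floor_le (mul_nonneg (by linarith) (Nat.cast_nonneg _))
  have h2 : (0:ℝ) ≤ ep η x j := Nat.cast_nonneg _
  have h3 : ((ep η x (j + 1) : ℕ) : ℝ) ≤ ep η x j := by nlinarith
  exact_mod_cast h3

lemma ep_le_x (η : ℝ) (hη : 0 < η) (hη1 : η < 1) (x j : ℕ) : ep η x j ≤ x := by
  induction j with
  | zero => simp [ep]
  | succ j ih => exact (ep_succ_le η hη hη1 x j).trans ih

/-- a range of `x` in which the first moment is known -/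
structure Rng (Rg : ℕ → ℕ → Prop) : Prop where
  block : ∃ C₀ : ℝ, 0 < C₀ ∧ ∀ η : ℝ, 0 < η → η ≤ 1 / 20 → ∃ K₁ n₁ : ℕ,
    l.t0 ≤ n₁ ∧ ∀ K : ℕ, K₁ ≤ K → ∀ (n' n : ℕ) (T : Finset ℕ), n₁ ≤ n' → n' ≤ n →
    (1 - η) * n - 1 ≤ n' → Rg K n → T ⊆ Ioc n' n →
    (∀ t ∈ T, IsCoprime (l.G t) (l.H t)) →
    (1 - 9 * η) * (K / Real.log (K * l.g n)) * (∑ t ∈ T, GG (l.g t)) - C₀ * (n * (K / Real.log K ^ 2)) ≤
      ∑ t ∈ T, l.ck K t
  mono : ∀ K n x : ℕ, l.t0 ≤ n → n ≤ x → Rg K x → Rg K n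
  le : ∃ K₄ : ℕ, ∀ K : ℕ, K₄ ≤ K → ∀ x : ℕ, Rg K x → (l.g x : ℝ) ≤ K

theorem first_total (Rg : ℕ → ℕ → Prop) (hR : l.Rng Rg) (η : ℝ) (hη : 0 < η) (hη2 : η ≤ 1 / 20) (δ : ℝ) (hδ : 0 < δ) :
    ∃ K₁ : ℕ, ∀ K : ℕ, K₁ ≤ K → ∀ (x : ℕ) (T : Finset ℕ), Real.log K ≤ x →
    Rg K x → T ⊆ Icc l.t0 x → (∀ t ∈ T, IsCoprime (l.G t) (l.H t)) →
    δ * x ≤ T.card →
    (1 - 11 * η) * (K / Real.log (K * l.g x)) * (∑ t ∈ T, GG (l.g t)) ≤ ∑ t ∈ T, l.ck K t := by
  classical
  obtain ⟨C₀, hC₀, hblock⟩ := hR.block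
  obtain ⟨K₄, hK₄⟩ := hR.le
  obtain ⟨K₁, n₁, hn₁t, hblock⟩ := hblock η hη hη2
  obtain ⟨C₁, hC₁, h6⟩ := l.momG
  set ρ : ℝ := 1 - η with hρ
  have hρ0 : 0 < ρ := by rw [hρ]; linarith
  have hρ1 : ρ < 1 := by rw [hρ]; linarith
  obtain ⟨J, hJ⟩ := exists_pow_lt_of_lt_one (show 0 < η * δ / C₁ by positivity) hρ1
  have hρJ : 0 < ρ ^ J := by positivity
  refine ⟨max (max (max K₁ K₄) 3) ⌈Real.exp ((n₁ + J) / ρ ^ J + (2 * J * C₀) / (η * δ) + 1)⌉₊, ?_⟩
  intro K hK x T hlog hgx hT hTc hTcard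
  have hK1 : K₁ ≤ K := (le_max_left _ _).trans ((le_max_left _ _).trans ((le_max_left _ _).trans hK))
  have hK4 : K₄ ≤ K := (le_max_right _ _).trans ((le_max_left _ _).trans ((le_max_left _ _).trans hK))
  have hK3 : 3 ≤ K := (le_max_right _ _).trans ((le_max_left _ _).trans hK)
  have hKe : Real.exp ((n₁ + J) / ρ ^ J + (2 * J * C₀) / (η * δ) + 1) ≤ K :=
    (Nat.le_ceil _).trans (by exact_mod_cast (le_max_right _ _).trans hK)
  have hKr : (3 : ℝ) ≤ K := by exact_mod_cast hK3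
  have hK0 : (0 : ℝ) < K := by linarith
  have hl : (n₁ + J) / ρ ^ J + (2 * J * C₀) / (η * δ) + 1 ≤ Real.log K := by
    rw [Real.le_log_iff_exp_le hK0]; exact hKe
  have p1 : 0 ≤ ((n₁:ℝ) + J) / ρ ^ J := by positivity
  have p2 : 0 ≤ (2 * J * C₀ : ℝ) / (η * δ) := by positivity
  have hl1 : (n₁:ℝ) + J ≤ ρ ^ J * Real.log K := by
    have : ((n₁:ℝ) + J) / ρ ^ J ≤ Real.log K := by linarith
    rw [div_le_iff₀ hρJ] at this
    linarith
  have hl2 : 2 * J * C₀ ≤ η * δ * Real.log K := by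
    have : (2 * J * C₀ : ℝ) / (η * δ) ≤ Real.log K := by linarith
    rw [div_le_iff₀ (by positivity)] at this
    linarith
  have hlK1 : 1 ≤ Real.log K := by linarith
  have hlK0 : 0 < Real.log K := by linarith
  have hx0 : 0 < (x : ℝ) := by linarith
  have hepJ : (n₁ : ℝ) ≤ ep η x J := by
    have h1 := ep_ge η hη (by linarith) x J
    have h2 : ρ ^ J * Real.log K ≤ ρ ^ J * x := by gcongr
    linarith
  have hepj : ∀ j ≤ J, n₁ ≤ ep η x j := by
    intro j hj
    have h1 : ep η x J ≤ ep η x j := by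
      induction J with
      | zero => 
        have : j = 0 := by omega
        rw [this]
      | succ J _ => 
        exact antitone_nat_of_succ_le (ep_succ_le η hη (by linarith) x) hj
    have h2 : n₁ ≤ ep η x J := by exact_mod_cast hepJ
    omega
  have ht0x : l.t0 ≤ x := (hn₁t.trans (hepj 0 (Nat.zero_le _))).trans (ep_le_x η hη (by linarith) x 0)
  have hgx1 : 1 ≤ l.g x := l.g_pos ht0x
  have hgx0 : (0:ℝ) < l.g x := by exact_mod_cast hgx1
  have hK1r : (1:ℝ) ≤ K := by linarith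
  have hgxK : (l.g x : ℝ) ≤ K := hK₄ K hK4 x hgx
  set L : ℝ := Real.log (K * l.g x) with hL
  have hgx1r : (1:ℝ) ≤ l.g x := by exact_mod_cast hgx1
  have hL1 : Real.log K ≤ L := by
    apply Real.log_le_log hK0
    have := mul_le_mul_of_nonneg_left hgx1r hK0.le
    linarith
  have hL2 : L ≤ 2 * Real.log K := by
    rw [hL, Real.log_mul hK0.ne' hgx0.ne']
    have := Real.log_le_log hgx0 hgxK
    linarith
  have hL0 : 0 < L := by linarith
  -- induction over blocks
  have hind : ∀ j : ℕ, j ≤ J →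
      (1 - 9 * η) * (K / L) *
        ∑ t ∈ T.filter (fun t : ℕ => ep η x j < t), GG (l.g t) - j * (C₀ * (x * (K / Real.log K ^ 2))) ≤
      ∑ t ∈ T.filter (fun t : ℕ => ep η x j < t), l.ck K t := by
    intro j
    induction j with
    | zero =>
      intro _
      have h0 : T.filter (fun t : ℕ => ep η x 0 < t) = ∅ := by
        apply filter_eq_empty_iff.2
        intro t ht h
        have h1 := (mem_Icc.1 (hT ht)).2
        have h2 : ep η x 0 = x := rfl
        rw [h2] at h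
        omega
      rw [h0]
      simp
    | succ j ih =>
      intro hj
      have ih' := ih (by omega)
      have hle := ep_succ_le η hη (by linarith) x j
      have hsplit : T.filter (fun t : ℕ => ep η x (j + 1) < t) =
          T.filter (fun t : ℕ => ep η x j < t) ∪
          T.filter (fun t : ℕ => ep η x (j + 1) < t ∧ t ≤ ep η x j) := by
        ext t
        simp only [mem_filter, mem_union]
        constructor
        · rintro ⟨h1, h2⟩
          by_cases h3 : ep η x j < t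
          · exact Or.inl ⟨h1, h3⟩
          · exact Or.inr ⟨h1, h2, not_lt.1 h3⟩
        · rintro (⟨h1, h2⟩ | ⟨h1, h2, h3⟩)
          · exact ⟨h1, by omega⟩
          · exact ⟨h1, h2⟩
      have hdisj : Disjoint (T.filter (fun t : ℕ => ep η x j < t))
          (T.filter (fun t : ℕ => ep η x (j + 1) < t ∧ t ≤ ep η x j)) := by
        rw [disjoint_left]
        intro t h1 h2
        rw [mem_filter] at h1 h2
        omega
      have hnj := hepj j (by omega)
      have hnj1 := hepj (j + 1) hj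
      have hjx := ep_le_x η hη (by linarith) x j
      have ht0j : l.t0 ≤ ep η x j := hn₁t.trans hnj
      have hgle : (l.g (ep η x j) : ℝ) ≤ l.g x := by exact_mod_cast l.g_le ht0j hjx
      have hb := hblock K hK1 (ep η x (j + 1)) (ep η x j)
        (T.filter (fun t : ℕ => ep η x (j + 1) < t ∧ t ≤ ep η x j)) hnj1 hle (by
          have : (1 - η) * (ep η x j : ℝ) < ep η x (j + 1) + 1 := by
            rw [ep]
            exact Nat.lt_floor_add_one _
          linarith) (hR.mono K _ x ht0j hjx hgx) (by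
          intro t ht
          rw [mem_filter] at ht
          exact mem_Ioc.2 ht.2) (by
          intro t ht
          rw [mem_filter] at ht
          exact hTc t ht.1)
      rw [hsplit, sum_union hdisj, sum_union hdisj]
      have herr : C₀ * ((ep η x j : ℝ) * (K / Real.log K ^ 2)) ≤ C₀ * (x * (K / Real.log K ^ 2)) := by
        have : (ep η x j : ℝ) ≤ x := by exact_mod_cast hjx
        gcongr
      have hS0 : 0 ≤ ∑ t ∈ T.filter (fun t : ℕ => ep η x (j + 1) < t ∧ t ≤ ep η x j), GG (l.g t) :=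
        sum_nonneg fun t _ => GG_nonneg _
      have hgj1 : (1:ℝ) ≤ l.g (ep η x j) := by exact_mod_cast l.g_pos ht0j
      have hlogs : (K:ℝ) / L ≤ K / Real.log (K * l.g (ep η x j)) := by
        apply div_le_div_of_nonneg_left hK0.le
        · apply Real.log_pos
          nlinarith
        · apply Real.log_le_log (by positivity)
          exact mul_le_mul_of_nonneg_left hgle hK0.le
      have hmul := mul_le_mul_of_nonneg_right
        (mul_le_mul_of_nonneg_left hlogs (show 0 ≤ 1 - 9 * η by linarith)) hS0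
      push_cast
      rw [mul_add]
      linarith
  have hmain := hind J le_rfl
  set m : ℝ := ∑ t ∈ T, GG (l.g t) with hm
  have hTt0 : ∀ t ∈ T, l.t0 ≤ t := fun t ht => (mem_Icc.1 (hT ht)).1
  -- small t
  have hsm : ∑ t ∈ T.filter (fun t : ℕ => ¬ ep η x J < t), GG (l.g t) ≤ η * (δ * x) := by
    have h1 : T.filter (fun t : ℕ => ¬ ep η x J < t) ⊆ Icc l.t0 (ep η x J) := by
      intro t ht
      rw [mem_filter] at ht
      rw [mem_Icc]
      exact ⟨hTt0 t ht.1, not_lt.1 ht.2⟩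
    have h2 : ∑ t ∈ T.filter (fun t : ℕ => ¬ ep η x J < t), GG (l.g t) ≤
        ∑ t ∈ T.filter (fun t : ℕ => ¬ ep η x J < t), GG (l.g t) ^ 6 := by
      apply sum_le_sum
      intro t ht
      exact GG_le_six (l.g_pos (hTt0 t (mem_filter.1 ht).1))
    have h3 : (ep η x J : ℝ) ≤ ρ ^ J * x := ep_le η hη (by linarith) x J
    have h4 : C₁ * ρ ^ J ≤ η * δ := by
      rw [lt_div_iff₀ hC₁] at hJ
      linarith
    calc _ ≤ C₁ * (ep η x J : ℝ) := h2.trans (h6 _ _ h1)
      _ ≤ C₁ * (ρ ^ J * x) := by gcongr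
      _ = (C₁ * ρ ^ J) * x := by ring
      _ ≤ (η * δ) * x := by gcongr
      _ = _ := by ring
  have hmcard : δ * x ≤ m := by
    refine hTcard.trans ?_
    rw [hm, card_eq_sum_ones]
    push_cast
    apply sum_le_sum
    intro t ht
    exact one_le_GG (l.g_pos (hTt0 t ht))
  have hbig : (1 - η) * m ≤ ∑ t ∈ T.filter (fun t : ℕ => ep η x J < t), GG (l.g t) := by
    have h1 := sum_filter_add_sum_filter_not T (fun t : ℕ => ep η x J < t) (fun t => GG (l.g t))
    rw [← hm] at h1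
    have h2 : η * (δ * x) ≤ η * m := by gcongr
    linarith
  have hm0 : 0 ≤ m := sum_nonneg fun t _ => GG_nonneg _
  have hcksub : ∑ t ∈ T.filter (fun t : ℕ => ep η x J < t), l.ck K t ≤ ∑ t ∈ T, l.ck K t :=
    sum_le_sum_of_subset_of_nonneg (filter_subset _ _) fun t _ _ => l.ck_nonneg K t
  set Q : ℝ := K / L with hQ
  have hQ0 : 0 < Q := by positivity
  have herr : (J : ℝ) * (C₀ * (x * (K / Real.log K ^ 2))) ≤ η * (Q * (δ * x)) := by
    rw [hQ]
    have h1 : (K:ℝ) / Real.log K ^ 2 * (2 * J * C₀) ≤ K / Real.log K ^ 2 * (η * δ * Real.log K) := by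
      gcongr
    have h2 : (K : ℝ) / Real.log K ^ 2 * (η * δ * Real.log K) = η * δ * (K / Real.log K) := by field_simp
    have h3 : (K : ℝ) / Real.log K ≤ 2 * (K / L) := by
      rw [div_le_iff₀ hlK0]
      have : 2 * (K / L) * Real.log K = (K / L) * (2 * Real.log K) := by ring
      rw [this]
      calc (K : ℝ) = (K / L) * L := by field_simp
        _ ≤ _ := by gcongr
    have h5 : (η * δ * x) * (K / Real.log K) ≤ (η * δ * x) * (2 * (K / L)) := by
      gcongr
    have h6 := mul_le_mul_of_nonneg_right h1 hx0.le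
    rw [h2] at h6
    linarith
  have h7 : (1 - 9 * η) * Q * ((1 - η) * m) ≤ (1 - 9 * η) * Q *
      ∑ t ∈ T.filter (fun t : ℕ => ep η x J < t), GG (l.g t) :=
    mul_le_mul_of_nonneg_left hbig (mul_nonneg (by linarith) hQ0.le)
  have h8 : (1 - 10 * η) * Q * m ≤ (1 - 9 * η) * Q * ((1 - η) * m) := by
    have e1 : (1 - 9 * η) * Q * ((1 - η) * m) = (1 - 10 * η) * Q * m + 9 * η ^ 2 * (Q * m) := by ring
    rw [e1]
    have : 0 ≤ 9 * η ^ 2 * (Q * m) := by positivity
    linarith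
  have h12 : η * (Q * (δ * x)) ≤ η * Q * m := by
    have := mul_le_mul_of_nonneg_left hmcard (mul_nonneg hη.le hQ0.le)
    linarith
  have e3 : (1 - 11 * η) * Q * m = (1 - 10 * η) * Q * m - η * Q * m := by ring
  rw [e3]
  linarith

end Ln

end Pool.Agent.Helper24K9.EL
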