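import Mathlib
import Pool.Agent.Helper24K9.EL.Ma
import Pool.Agent.W218.HF.QRough

set_option autoImplicit false

/-! Values `t` with `g(t)`, `h(t)` coprime; admissibility; sums of `1/log`. -/

open Finset Filter Topology

namespace Pool.Agent.Helper24K9.EL

open Pool.Agent.Erdos456 Pool.Agent.W218.HF Pool.Agent.W468.ConjF

namespace Ln

variable (l : Ln)

lemma R_comb (t : ℕ) : l.R = l.B * (l.α * l.H t - l.a * l.G t) -
    l.A * ((l.β + l.α * t) * l.H t - (l.b + l.a * t) * l.G t) := by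
  unfold R A B C G H; ring

lemma dvd_R {d : ℤ} {t : ℕ} (h1 : d ∣ l.G t) (h2 : d ∣ l.H t) : d ∣ l.R := by
  rw [l.R_comb t]
  exact dvd_sub (Dvd.dvd.mul_left (dvd_sub (h2.mul_left _) (h1.mul_left _)) _)
    (Dvd.dvd.mul_left (dvd_sub (h2.mul_left _) (h1.mul_left _)) _)

lemma coprime_of {t : ℕ} (h : ∀ p : ℕ, p.Prime → (p : ℤ) ∣ l.R → ¬ ((p : ℤ) ∣ l.G t ∧ (p : ℤ) ∣ l.H t)) :
    IsCoprime (l.G t) (l.H t) := by
  rw [Int.isCoprime_iff_gcd_eq_one]
  by_contra hcon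
  obtain ⟨p, hp, hpd⟩ := Nat.exists_prime_and_dvd hcon
  have h1 : (p : ℤ) ∣ (Int.gcd (l.G t) (l.H t) : ℤ) := by exact_mod_cast hpd
  have h2 := h1.trans (Int.gcd_dvd_left _ _)
  have h3 := h1.trans (Int.gcd_dvd_right _ _)
  exact h p hp (l.dvd_R h2 h3) ⟨h2, h3⟩

/-- no prime divides all values -/
def Adm : Prop := ∀ p : ℕ, p.Prime → ∃ k t : ℤ,
  ¬ (p : ℤ) ∣ k * (l.α * t ^ 2 + l.β * t + l.γ) + (l.a * t ^ 2 + l.b * t + l.c)

lemma dens (hadm : l.Adm) : ∃ δ : ℝ, 0 < δ ∧ ∃ x₀ : ℕ, ∀ x : ℕ, x₀ ≤ x → ∃ T : Finset ℕ, T ⊆ Ioc l.t0 x ∧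
    (∀ t ∈ T, IsCoprime (l.G t) (l.H t)) ∧ δ * x ≤ T.card ∧
    ∀ t ∈ Ioc l.t0 x, IsCoprime (l.G t) (l.H t) → t ∈ T := by
  classical
  set P := l.R.natAbs.primeFactors with hP
  have hPp : ∀ p ∈ P, p.Prime := fun p hp => Nat.prime_of_mem_primeFactors hp
  set M := ∏ p ∈ P, p with hM
  have hM0 : 0 < M := prod_pos fun p hp => (hPp p hp).pos
  set Q : ℕ → Prop := fun t => ∀ p ∈ P, ¬ ((p : ℤ) ∣ l.G t ∧ (p : ℤ) ∣ l.H t) with hQ
  have hmodG : ∀ p t : ℕ, (p : ℤ) ∣ l.G (t % p) ↔ (p : ℤ) ∣ l.G t := fun p t => dvd_mod_iff l.α l.β l.γ p t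
  have hmodH : ∀ p t : ℕ, (p : ℤ) ∣ l.H (t % p) ↔ (p : ℤ) ∣ l.H t := fun p t => dvd_mod_iff l.a l.b l.c p t
  have hper : Function.Periodic Q M := by
    intro t
    simp only [hQ, eq_iff_iff]
    apply forall_congr'
    intro p
    apply forall_congr'
    intro hp
    have : (t + M) % p = t % p := by
      obtain ⟨k, hk⟩ := dvd_prod_of_mem (fun p => p) hp
      rw [hM, hk, Nat.add_mul_mod_self_left]
    rw [not_iff_not, ← hmodG, ← hmodH, ← hmodG p t, ← hmodH p t, this]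
  have hone : 1 ≤ #((range M).filter Q) := by
    have h2 := Pool.Agent.H373R2.BH.crt_count P hPp (fun p r => ¬ ((p : ℤ) ∣ l.G r ∧ (p : ℤ) ∣ l.H r))
    have h3 : #((range M).filter Q) = #((range (∏ p ∈ P, p)).filter (fun r : ℕ => ∀ p ∈ P,
        ¬ ((p : ℤ) ∣ l.G (r % p) ∧ (p : ℤ) ∣ l.H (r % p)))) := by
      rw [← hM]
      congr 1
      apply filter_congr
      intro u _
      simp only [hQ, hmodG, hmodH]
    rw [h3, h2]
    apply Nat.succ_le_of_lt
    apply prod_pos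
    intro p hp
    rw [card_pos]
    obtain ⟨k, t, hkt⟩ := hadm p (hPp p hp)
    have hp0 : (0:ℤ) < p := by exact_mod_cast (hPp p hp).pos
    have hr0 := Int.emod_nonneg t hp0.ne'
    have hr1 := Int.emod_lt_of_pos t hp0
    set r := (t % (p:ℤ)).toNat with hr
    have hrc : (r : ℤ) = t % p := Int.toNat_of_nonneg hr0
    refine ⟨r, ?_⟩
    rw [mem_filter, mem_range]
    refine ⟨by omega, ?_⟩
    rintro ⟨h4, h5⟩
    apply hkt
    have e : t = p * (t / p) + r := by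
      rw [hrc]; exact (Int.mul_ediv_add_emod t p).symm
    set q := t / (p : ℤ) with hq
    have e1 : l.α * t ^ 2 + l.β * t + l.γ = p * (l.α * (p * q ^ 2 + 2 * q * r) + l.β * q) + l.G r := by
      rw [e]; unfold G; ring
    have e2 : l.a * t ^ 2 + l.b * t + l.c = p * (l.a * (p * q ^ 2 + 2 * q * r) + l.b * q) + l.H r := by
      rw [e]; unfold H; ring
    rw [e1, e2]
    exact dvd_add (Dvd.dvd.mul_left (dvd_add (dvd_mul_right _ _) h4) _) (dvd_add (dvd_mul_right _ _) h5)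
  have hM0r : (0:ℝ) < M := by exact_mod_cast hM0
  refine ⟨1 / (2 * M), by positivity, 2 * M * (1 + l.t0), fun x hx => ?_⟩
  refine ⟨(Ioc l.t0 x).filter (fun t => IsCoprime (l.G t) (l.H t)), filter_subset _ _,
    fun t ht => (mem_filter.1 ht).2, ?_, fun t ht h => mem_filter.2 ⟨ht, h⟩⟩
  have h1 := count_low_real M hM0 Q hper x
  have h2 : ((Icc 1 x).filter Q) ⊆ (Icc 1 l.t0) ∪ ((Ioc l.t0 x).filter (fun t => IsCoprime (l.G t) (l.H t))) := by
    intro t ht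
    rw [mem_filter, mem_Icc] at ht
    rw [mem_union, mem_Icc, mem_filter, mem_Ioc]
    by_cases h : t ≤ l.t0
    · exact Or.inl ⟨ht.1.1, h⟩
    · right
      refine ⟨⟨by omega, ht.1.2⟩, ?_⟩
      apply l.coprime_of
      intro p hp hpR
      apply ht.2 p
      rw [hP, Nat.mem_primeFactors]
      exact ⟨hp, Int.natCast_dvd.1 hpR, (Int.natAbs_pos.2 l.R_ne).ne'⟩
  have h3 : (#((Icc 1 x).filter Q) : ℝ) ≤ l.t0 + #((Ioc l.t0 x).filter (fun t => IsCoprime (l.G t) (l.H t))) := by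
    have := (card_le_card h2).trans (card_union_le _ _)
    rw [Nat.card_Icc, Nat.add_sub_cancel] at this
    exact_mod_cast this
  have h4 : (1:ℝ) / M ≤ (#((range M).filter Q) : ℝ) / M := by
    apply div_le_div_of_nonneg_right _ hM0r.le
    exact_mod_cast hone
  have hxr : 2 * (M:ℝ) * (1 + l.t0) ≤ x := by exact_mod_cast hx
  have h5 : 0 ≤ (x:ℝ) - M := by
    have : 0 ≤ (M:ℝ) * l.t0 := by positivity
    nlinarith
  have h6 : ((x:ℝ) - M) * (1 / M) ≤ #((Icc 1 x).filter Q) := by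
    refine le_trans ?_ h1
    exact mul_le_mul_of_nonneg_left h4 h5
  have h7 : ((x:ℝ) - M) * (1 / M) = x / M - 1 := by field_simp
  have h8 : 1 + (l.t0 : ℝ) ≤ x / (2 * M) := by
    rw [le_div_iff₀ (by positivity)]; linarith
  have h9 : (x:ℝ) / M = x / (2 * M) + x / (2 * M) := by field_simp; ring
  have h10 : 1 / (2 * (M:ℝ)) * x = x / (2 * M) := by ring
  rw [h10]
  linarith

lemma S_ge2 : (2 : ℤ) ≤ l.S := by
  have hS := l.abs_le_S
  have := abs_nonneg l.α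
  have := abs_nonneg l.β
  have := abs_nonneg l.γ
  have := abs_nonneg l.a
  have := abs_nonneg l.b
  have := abs_nonneg l.c
  rcases l.hg with h | ⟨_, h, _⟩
  · have := le_abs_self l.α; linarith
  · have := le_abs_self l.β; linarith

/-- the values for large `k` -/
lemma val_ge {k t : ℕ} (hk : 2 * l.k0 ≤ k) (ht : l.t0 ≤ t) : (k : ℤ) * l.G t ≤ 2 * ((k : ℤ) * l.G t + l.H t) := by
  have h1 := l.k0_spec ht
  have h2 := l.G_pos ht
  have h3 : (2 : ℤ) * l.k0 ≤ k := by exact_mod_cast hk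
  nlinarith

/-- a prime value forces admissibility -/
lemma adm_of {k t : ℕ} (hk : 2 * l.k0 ≤ k) (ht : l.t0 ≤ t)
    (hp : ((k : ℤ) * l.G t + l.H t).toNat.Prime)
    (hpos : 0 < l.a + l.α * k)
    (hsq : ¬ IsSquare ((l.b + l.β * k) ^ 2 - 4 * (l.a + l.α * k) * (l.c + l.γ * k))) :
    Admissible (l.a + l.α * k) (l.b + l.β * k) (l.c + l.γ * k) := by
  set v : ℤ := (k : ℤ) * l.G t + l.H t with hv
  have hval := l.val_ge hk ht
  rw [← hv] at hval
  have hG := l.G_pos ht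
  have hS2 := l.S_ge2
  have hk0 : (l.k0 : ℤ) = 2 * l.S := by unfold k0; push_cast; ring
  have hkr : (4 : ℤ) * l.S ≤ k := by
    have : (2 : ℤ) * l.k0 ≤ k := by exact_mod_cast hk
    rw [hk0] at this; linarith
  have ht0 : (2 : ℤ) * l.S ≤ t := by
    have : (l.t0 : ℤ) ≤ t := by exact_mod_cast ht
    unfold t0 at this
    push_cast at this
    exact this
  have hSabs := l.abs_le_S
  have n1 := abs_nonneg l.α
  have n2 := abs_nonneg l.β
  have n3 := abs_nonneg l.γ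
  have n4 := abs_nonneg l.a
  have n5 := abs_nonneg l.b
  have n6 := abs_nonneg l.c
  have n7 := le_abs_self l.α
  have n8 := le_abs_self l.a
  have hv4 : 4 ≤ v := by nlinarith
  have hvA : l.a + l.α * k < v := by
    rcases l.hg with h | ⟨h1, h2, h3⟩
    · have h4 := l.two_G_ge_sq h ht
      have h5 : (l.S : ℤ) ^ 2 * 4 ≤ (t : ℤ) ^ 2 := by nlinarith
      have h6 : 2 * (l.S : ℤ) ^ 2 ≤ l.G t := by linarith
      have h7 : (k : ℤ) * (2 * (l.S : ℤ) ^ 2) ≤ k * l.G t := mul_le_mul_of_nonneg_left h6 (by positivity)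
      have h8 : (l.S : ℤ) ≤ (l.S : ℤ) ^ 2 := by nlinarith
      have h9 : l.a + l.α * k ≤ (|l.a| + |l.α|) * k := by
        have hk1 : (1 : ℤ) ≤ k := by linarith
        nlinarith
      have h10 : (|l.a| + |l.α|) * (k : ℤ) ≤ (l.S - 1) * k := mul_le_mul_of_nonneg_right (by linarith) (by positivity)
      nlinarith
    · rw [h1, zero_mul, add_zero]
      have h4 := l.two_G_ge ht
      have h5 : (l.S : ℤ) ≤ l.G t := by linarith
      nlinarith
  have hv0 : (v.toNat : ℤ) = v := Int.toNat_of_nonneg (by linarith)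
  have hvf : v = (l.a + l.α * k) * (t : ℤ) ^ 2 + (l.b + l.β * k) * t + (l.c + l.γ * k) := by
    rw [hv]; unfold G H; ring
  refine ⟨hpos, ?_, ?_, hsq⟩
  · intro d h1 h2 h3
    have h4 : d ∣ v := by
      rw [hvf]
      exact dvd_add (dvd_add (Dvd.dvd.mul_right h1 _) (Dvd.dvd.mul_right h2 _)) h3
    rw [← hv0] at h4
    have h5 : d.natAbs ∣ v.toNat := by
      have := Int.natAbs_dvd_natAbs.2 h4
      rwa [Int.natAbs_natCast] at this
    rcases (Nat.dvd_prime hp).1 h5 with h6 | h6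
    · exact Int.isUnit_iff_natAbs_eq.2 h6
    · exfalso
      have h7 : |d| ≤ l.a + l.α * k := by
        have := Int.le_of_dvd (abs_pos.2 hpos.ne') ((abs_dvd_abs _ _).2 h1)
        rwa [abs_of_pos hpos] at this
      have h8 : |d| = v := by rw [← hv0, ← h6]; exact (Int.natCast_natAbs d).symm
      linarith
  · rintro ⟨h1, h2⟩
    have h3 : (2 : ℤ) ∣ v := by
      have h5 : v = ((l.a + l.α * k) + (l.b + l.β * k)) * t + (l.c + l.γ * k) + (l.a + l.α * k) * ((t : ℤ) ^ 2 - t) := by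
        rw [hvf]; ring
      rw [h5]
      refine dvd_add (dvd_add (Dvd.dvd.mul_right h1 _) h2) (Dvd.dvd.mul_left ?_ _)
      have h6 : (t : ℤ) ^ 2 - t = t * (t - 1) := by ring
      rw [h6]
      rcases Int.even_or_odd (t : ℤ) with ⟨k, hk⟩ | ⟨k, hk⟩
      · exact Dvd.dvd.mul_right ⟨k, by rw [hk]; ring⟩ _
      · exact Dvd.dvd.mul_left ⟨k, by rw [hk]; ring⟩ _
    rw [← hv0] at h3
    have h4 : 2 ∣ v.toNat := by exact_mod_cast h3
    have h5 := (Nat.prime_dvd_prime_iff_eq Nat.prime_two hp).1 h4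
    have h6 : v = 2 := by rw [← hv0, ← h5]; rfl
    linarith

/-- `G t ≫ G x` for `t ≫ x` -/
lemma G_comp {t x : ℕ} (ht : l.t0 ≤ t) (htx : t ≤ x) (κ : ℝ) (hκ : 0 < κ) (hκ1 : κ ≤ 1) (h : κ * x ≤ t) :
    κ ^ 2 / (2 * l.S) * (l.G x : ℝ) ≤ l.G t := by
  have hx1 : 1 ≤ x := (l.one_le_of_t0 ht).trans htx
  have hS0 : (0:ℝ) < l.S := by exact_mod_cast l.S_pos'
  have hx1r : (1:ℝ) ≤ x := by exact_mod_cast hx1
  have hx0 : (0:ℝ) < x := by linarith
  rw [div_mul_eq_mul_div, div_le_iff₀ (by positivity)]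
  rcases l.hg with h' | ⟨h1, h2, h3⟩
  · have h4 : ((t : ℝ)) ^ 2 ≤ 2 * l.G t := by exact_mod_cast l.two_G_ge_sq h' ht
    have h5 : (l.G x : ℝ) ≤ l.S * (x:ℝ) ^ 2 := by exact_mod_cast l.G_le_sq hx1
    have h6 : (κ * x) ^ 2 ≤ (t:ℝ) ^ 2 := pow_le_pow_left₀ (by positivity) h 2
    calc κ ^ 2 * (l.G x : ℝ) ≤ κ ^ 2 * (l.S * (x:ℝ) ^ 2) := by gcongr
      _ = l.S * (κ * x) ^ 2 := by ring
      _ ≤ l.S * (2 * l.G t) := by
          apply mul_le_mul_of_nonneg_left _ hS0.le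
          linarith
      _ = _ := by ring
  · have h4 : ((t : ℝ)) ≤ 2 * l.G t := by exact_mod_cast l.two_G_ge ht
    have h5 : (l.G x : ℝ) ≤ l.S * (x:ℝ) := by
      have hSabs := l.abs_le_S
      have n1 := abs_nonneg l.α
      have n2 := le_abs_self l.β
      have n3 := le_abs_self l.γ
      have n4 := abs_nonneg l.a
      have n5 := abs_nonneg l.b
      have n6 := abs_nonneg l.c
      have n7 := abs_nonneg l.γ
      have hx1z : (1:ℤ) ≤ x := by exact_mod_cast hx1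
      have : l.G x ≤ l.S * (x:ℤ) := by
        unfold G
        rw [h1, ← hSabs]
        nlinarith
      exact_mod_cast this
    have h6 : κ ^ 2 ≤ κ := by nlinarith
    have hG0 : (0:ℝ) ≤ l.G x := by
      have := l.G_pos (ht.trans htx)
      exact_mod_cast (by linarith : (0:ℤ) ≤ l.G x)
    calc κ ^ 2 * (l.G x : ℝ) ≤ κ * (l.G x : ℝ) := by gcongr
      _ ≤ κ * (l.S * (x:ℝ)) := by gcongr
      _ = l.S * (κ * x) := by ring
      _ ≤ l.S * (2 * l.G t) := by
          apply mul_le_mul_of_nonneg_left _ hS0.le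
          linarith
      _ = _ := by ring

/-- the sum of `1 / log` -/
noncomputable def LS (k x : ℕ) : ℝ :=
  ∑ t ∈ (Ioc l.t0 x).filter (fun t : ℕ => 2 ≤ (k : ℤ) * l.G t + l.H t), 1 / Real.log (((k : ℤ) * l.G t + l.H t : ℤ) : ℝ)

/-- the sum of `1 / log` is at most `(1 + ε) x / log (K g x)` -/
lemma LS_le (ε : ℝ) (hε : 0 < ε) (hε1 : ε ≤ 1) (κ : ℝ) (hκ : 0 < κ) (hκ1 : κ ≤ ε / 8) : ∃ K₀ : ℕ, ∀ K : ℕ, K₀ ≤ K →
    ∀ x k : ℕ, l.t0 ≤ x → (l.g x : ℝ) ≤ K → 2 * l.k0 ≤ k → κ * K ≤ k →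
    l.LS k x ≤ (1 + ε) * x / Real.log (K * l.g x) := by
  classical
  have hS0 : (0:ℝ) < l.S := by exact_mod_cast l.S_pos'
  set c : ℝ := κ / 2 * (κ ^ 2 / (2 * l.S)) with hc
  have hc0 : 0 < c := by rw [hc]; positivity
  have hlogt : Tendsto (fun n : ℕ => Real.log n) atTop atTop := Real.tendsto_log_atTop.comp tendsto_natCast_atTop_atTop
  have hev : ∀ᶠ K : ℕ in atTop, 4 * |Real.log c| / ε ≤ Real.log K ∧ 4 * |Real.log (κ / 2)| ≤ Real.log K ∧
      1 ≤ Real.log K ∧ 1 ≤ K := by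
    filter_upwards [hlogt.eventually_ge_atTop _, hlogt.eventually_ge_atTop _, hlogt.eventually_ge_atTop 1,
      eventually_ge_atTop 1] with K h1 h2 h3 h4
    exact ⟨h1, h2, h3, h4⟩
  obtain ⟨K₀, hK₀⟩ := eventually_atTop.1 hev
  refine ⟨K₀, fun K hK x k hx hgx hk hkK => ?_⟩
  obtain ⟨e1, e2, e3, e4⟩ := hK₀ K hK
  have hK0 : (0:ℝ) < K := by exact_mod_cast e4
  have hgx1 : (1:ℝ) ≤ l.g x := by exact_mod_cast l.g_pos hx
  have hgx0 : (0:ℝ) < l.g x := by linarith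
  have hgG : ((l.g x : ℕ) : ℝ) = (l.G x : ℝ) := by
    have := l.g_cast hx
    exact_mod_cast congrArg (fun z : ℤ => (z : ℝ)) this
  set L : ℝ := Real.log (K * l.g x) with hL
  have hL1 : Real.log K ≤ L := by
    apply Real.log_le_log hK0
    have := mul_le_mul_of_nonneg_left hgx1 hK0.le
    linarith
  have hL2 : L ≤ 2 * Real.log K := by
    rw [hL, Real.log_mul hK0.ne' hgx0.ne']
    have := Real.log_le_log hgx0 hgx
    linarith
  have hL0 : 0 < L := by linarith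
  have hval : ∀ t ∈ Ioc l.t0 x, (κ / 2 * K) * (l.G t : ℝ) ≤ (((k : ℤ) * l.G t + l.H t : ℤ) : ℝ) := by
    intro t ht
    have ht0 : l.t0 ≤ t := (mem_Ioc.1 ht).1.le
    have h1 := l.val_ge hk ht0
    have h1r : (k : ℝ) * l.G t ≤ 2 * (((k : ℤ) * l.G t + l.H t : ℤ) : ℝ) := by exact_mod_cast h1
    have hG1 : (1:ℝ) ≤ l.G t := by exact_mod_cast l.G_pos ht0
    have h2 : (κ * K) * (l.G t : ℝ) ≤ k * l.G t := by gcongr
    linarith
  have hbig : ∀ t ∈ Ioc l.t0 x, κ * x ≤ t → 1 / Real.log (((k : ℤ) * l.G t + l.H t : ℤ) : ℝ) ≤ (1 + ε / 2) / L := by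
    intro t ht htx
    have ht0 : l.t0 ≤ t := (mem_Ioc.1 ht).1.le
    have h1 := l.G_comp ht0 (mem_Ioc.1 ht).2 κ hκ (by linarith) htx
    have h2 : c * (K * l.g x) ≤ (((k : ℤ) * l.G t + l.H t : ℤ) : ℝ) := by
      refine le_trans ?_ (hval t ht)
      rw [hgG, hc]
      calc κ / 2 * (κ ^ 2 / (2 * l.S)) * (K * (l.G x : ℝ)) = (κ / 2 * K) * (κ ^ 2 / (2 * l.S) * (l.G x : ℝ)) := by ring
        _ ≤ _ := by gcongr
    have h3 : Real.log c + L ≤ Real.log (((k : ℤ) * l.G t + l.H t : ℤ) : ℝ) := by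
      rw [hL, ← Real.log_mul hc0.ne' (by positivity)]
      exact Real.log_le_log (by positivity) h2
    have h4 : -(ε / 4 * L) ≤ Real.log c := by
      have h5 := neg_abs_le (Real.log c)
      rw [div_le_iff₀ hε] at e1
      nlinarith
    have h5 : (1 - ε / 4) * L ≤ Real.log (((k : ℤ) * l.G t + l.H t : ℤ) : ℝ) := by linarith
    have h6 : 0 < (1 - ε / 4) * L := mul_pos (by linarith) hL0
    calc 1 / Real.log (((k : ℤ) * l.G t + l.H t : ℤ) : ℝ) ≤ 1 / ((1 - ε / 4) * L) :=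
          one_div_le_one_div_of_le h6 h5
      _ ≤ (1 + ε / 2) / L := by
          rw [div_le_div_iff₀ h6 hL0, one_mul]
          have h7 : 1 ≤ (1 + ε / 2) * (1 - ε / 4) := by nlinarith
          calc L = 1 * L := (one_mul L).symm
            _ ≤ ((1 + ε / 2) * (1 - ε / 4)) * L := mul_le_mul_of_nonneg_right h7 hL0.le
            _ = _ := by ring
  have hsmall : ∀ t ∈ Ioc l.t0 x, 1 / Real.log (((k : ℤ) * l.G t + l.H t : ℤ) : ℝ) ≤ 4 / L := by
    intro t ht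
    have ht0 : l.t0 ≤ t := (mem_Ioc.1 ht).1.le
    have hG1 : (1:ℝ) ≤ l.G t := by exact_mod_cast l.G_pos ht0
    have h2 : (κ / 2) * K ≤ (((k : ℤ) * l.G t + l.H t : ℤ) : ℝ) := by
      refine le_trans ?_ (hval t ht)
      exact le_mul_of_one_le_right (by positivity) hG1
    have h3 : Real.log (κ / 2) + Real.log K ≤ Real.log (((k : ℤ) * l.G t + l.H t : ℤ) : ℝ) := by
      rw [← Real.log_mul (by positivity) (by positivity)]
      exact Real.log_le_log (by positivity) h2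
    have h4 := neg_abs_le (Real.log (κ / 2))
    have h5 : L / 4 ≤ Real.log (((k : ℤ) * l.G t + l.H t : ℤ) : ℝ) := by linarith
    calc 1 / Real.log (((k : ℤ) * l.G t + l.H t : ℤ) : ℝ) ≤ 1 / (L / 4) :=
          one_div_le_one_div_of_le (by positivity) h5
      _ = 4 / L := by field_simp
  have hpt : ∀ t ∈ Ioc l.t0 x, 1 / Real.log (((k : ℤ) * l.G t + l.H t : ℤ) : ℝ) ≤
      (1 + ε / 2) / L + (if (t:ℝ) < κ * x then 4 / L else 0) := by
    intro t ht
    split_ifs with h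
    · have h1 := hsmall t ht
      have h2 : 0 ≤ (1 + ε / 2) / L := by positivity
      linarith
    · rw [add_zero]
      exact hbig t ht (not_lt.1 h)
  have hnn : ∀ t ∈ Ioc l.t0 x, 0 ≤ 1 / Real.log (((k : ℤ) * l.G t + l.H t : ℤ) : ℝ) := by
    intro t ht
    have ht0 : l.t0 ≤ t := (mem_Ioc.1 ht).1.le
    apply one_div_nonneg.2
    apply Real.log_nonneg
    have h1 := l.val_ge hk ht0
    have h2 := l.G_pos ht0
    have h3 : (2 : ℤ) * l.k0 ≤ k := by exact_mod_cast hk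
    have h4 : (l.k0 : ℤ) = 2 * l.S := by unfold k0; push_cast; ring
    have h5 := l.S_ge2
    have h6 : (1:ℤ) ≤ (k : ℤ) * l.G t + l.H t := by nlinarith
    exact_mod_cast h6
  unfold LS
  have hx0 : (0:ℝ) ≤ x := Nat.cast_nonneg x
  calc ∑ t ∈ (Ioc l.t0 x).filter (fun t : ℕ => 2 ≤ (k : ℤ) * l.G t + l.H t), 1 / Real.log (((k : ℤ) * l.G t + l.H t : ℤ) : ℝ)
      ≤ ∑ t ∈ Ioc l.t0 x, 1 / Real.log (((k : ℤ) * l.G t + l.H t : ℤ) : ℝ) :=
        sum_le_sum_of_subset_of_nonneg (filter_subset _ _) fun t ht _ => hnn t ht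
    _ ≤ ∑ t ∈ Ioc l.t0 x, ((1 + ε / 2) / L + (if (t:ℝ) < κ * x then 4 / L else 0)) := sum_le_sum hpt
    _ ≤ x * ((1 + ε / 2) / L) + (κ * x) * (4 / L) := by
        rw [sum_add_distrib, sum_const, nsmul_eq_mul, ← sum_filter, sum_const, nsmul_eq_mul]
        apply add_le_add
        · apply mul_le_mul_of_nonneg_right _ (by positivity)
          rw [Nat.card_Ioc]
          exact_mod_cast Nat.sub_le _ _
        · apply mul_le_mul_of_nonneg_right _ (by positivity)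
          have h1 : (Ioc l.t0 x).filter (fun t : ℕ => (t:ℝ) < κ * x) ⊆ Icc 1 ⌊κ * (x:ℝ)⌋₊ := by
            intro t ht
            rw [mem_filter, mem_Ioc] at ht
            rw [mem_Icc]
            exact ⟨by omega, Nat.le_floor ht.2.le⟩
          have h2 := card_le_card h1
          rw [Nat.card_Icc, Nat.add_sub_cancel] at h2
          calc (((Ioc l.t0 x).filter (fun t : ℕ => (t:ℝ) < κ * x)).card : ℝ) ≤ (⌊κ * (x:ℝ)⌋₊ : ℝ) := by exact_mod_cast h2
            _ ≤ κ * x := Nat.floor_le (by positivity)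
    _ = (1 + ε / 2 + 4 * κ) * x / L := by ring
    _ ≤ (1 + ε) * x / L := by
        apply div_le_div_of_nonneg_right _ hL0.le
        apply mul_le_mul_of_nonneg_right _ hx0
        linarith

end Ln

end Pool.Agent.Helper24K9.EL
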