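import Mathlib
import Pool.Agent.W468.CFMost
import Pool.Agent.W218.HF.QLow
import Pool.Agent.W218.HF.QMid

set_option autoImplicit false

/-!
The tails of the products `∏ (1 - (D/p)/(p-1))` for `D = U k² + V k + W`: second moments and exceptional sets.
-/

namespace Pool.Agent.Helper24K9.EL
open Finset Filter Topology
open Pool.Agent.W468.ConjF
open Pool.Agent.W218.HF (quad_sum periodic_sum' pell_count)
open Pool.Agent.H307R2.OP (J PB)

/-- the value of the complete sum -/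
noncomputable def sg (U : ℤ) (q : ℕ) : ℤ := if (q : ℤ) ∣ U then 0 else - jacobiSym (4 * U) q

lemma sg_abs (U : ℤ) (q : ℕ) : |(sg U q : ℝ)| ≤ 1 := by
  unfold sg
  split_ifs
  · simp
  · push_cast
    rw [abs_neg]
    exact js_abs _ _

/-- a quadratic polynomial -/
def QD (U V W : ℤ) (k : ℤ) : ℤ := U * k ^ 2 + V * k + W

lemma comp_sum (q : ℕ) (hqp : q.Prime) (hq : q ≠ 2) (U V W u p : ℤ) (hp : ¬ (q : ℤ) ∣ p)
    (hn : ¬ (q : ℤ) ∣ V ^ 2 - 4 * U * W) :
    ∑ v ∈ range q, jacobiSym (QD U V W (u + p * v)) q = sg U q := by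
  have hqz : Prime (q : ℤ) := Nat.prime_iff_prime_int.1 hqp
  have h2 : ¬ (q : ℤ) ∣ 2 := by
    intro h
    have h3 : q ∣ 2 := by exact_mod_cast h
    exact hq ((Nat.prime_dvd_prime_iff_eq hqp Nat.prime_two).1 h3)
  unfold sg QD
  split_ifs with hU
  · have hV : ¬ (q : ℤ) ∣ V := by
      intro hV
      apply hn
      exact dvd_sub (Dvd.dvd.pow hV (by norm_num)) ((Dvd.dvd.mul_left hU 4).mul_right W)
    obtain ⟨U', rfl⟩ := hU
    have h1 : ∀ v ∈ range q, jacobiSym (q * U' * (u + p * (v : ℤ)) ^ 2 + V * (u + p * v) + W) q =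
        jacobiSym ((W + V * u) + (V * p) * v) q := by
      intro v _
      have e : (q : ℤ) * U' * (u + p * (v : ℤ)) ^ 2 + V * (u + p * v) + W =
        ((W + V * u) + (V * p) * v) + q * (U' * (u + p * v) ^ 2) := by ring
      rw [e, js_per]
    rw [sum_congr rfl h1, lin_sum q hqp hq]
    intro h
    rcases hqz.dvd_or_dvd h with h3 | h3
    · exact hV h3
    · exact hp h3
  · have h4U : ¬ (q : ℤ) ∣ 4 * U := by
      intro h
      have e : (4 : ℤ) * U = 2 * (2 * U) := by ring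
      rw [e] at h
      rcases hqz.dvd_or_dvd h with h3 | h3
      · exact h2 h3
      · rcases hqz.dvd_or_dvd h3 with h4 | h4
        · exact h2 h4
        · exact hU h4
    have hsq : jacobiSym (4 * U) q ^ 2 = 1 := by
      apply jacobiSym.sq_one
      have := (Nat.Prime.coprime_iff_not_dvd hqp).2 (fun h => h4U (Int.natCast_dvd.2 h))
      rw [Int.gcd_comm]
      exact this
    have h1 : ∀ v ∈ range q, jacobiSym (U * (u + p * (v : ℤ)) ^ 2 + V * (u + p * v) + W) q =
        jacobiSym (4 * U) q * jacobiSym (((2 * U * u + V) + (2 * U * p) * v) ^ 2 - (V ^ 2 - 4 * U * W)) q := by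
      intro v _
      have e : ((2 * U * u + V) + (2 * U * p) * (v : ℤ)) ^ 2 - (V ^ 2 - 4 * U * W) =
        (4 * U) * (U * (u + p * (v : ℤ)) ^ 2 + V * (u + p * v) + W) := by ring
      rw [e, jacobiSym.mul_left (4 * U), ← mul_assoc, ← sq, hsq, one_mul]
    rw [sum_congr rfl h1, ← mul_sum, quad_sum q hqp hq _ _ _ _ hn]
    · ring
    · intro h
      rcases hqz.dvd_or_dvd h with h3 | h3
      · rcases hqz.dvd_or_dvd h3 with h4 | h4
        · exact h2 h4
        · exact hU h4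
      · exact hp h3

/-- the complete sum for two primes -/
lemma comp_pair (p q : ℕ) (hp : p.Prime) (hq : q.Prime) (hp2 : p ≠ 2) (hq2 : q ≠ 2) (hpq : p ≠ q) (U V W : ℤ)
    (hpn : ¬ (p : ℤ) ∣ V ^ 2 - 4 * U * W) (hqn : ¬ (q : ℤ) ∣ V ^ 2 - 4 * U * W) :
    ∑ c ∈ range (p * q), jacobiSym (QD U V W (c : ℤ)) p * jacobiSym (QD U V W (c : ℤ)) q = sg U p * sg U q := by
  rw [sum_range_mul' (fun c => jacobiSym (QD U V W (c : ℤ)) p * jacobiSym (QD U V W (c : ℤ)) q), sum_comm]
  have h0 : ∀ u ∈ range p, ∑ v ∈ range q, jacobiSym (QD U V W ((p * v + u : ℕ) : ℤ)) p *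
      jacobiSym (QD U V W ((p * v + u : ℕ) : ℤ)) q = sg U q * jacobiSym (QD U V W (0 + 1 * (u : ℤ))) p := by
    intro u _
    have h1 : ∀ v ∈ range q, jacobiSym (QD U V W ((p * v + u : ℕ) : ℤ)) p * jacobiSym (QD U V W ((p * v + u : ℕ) : ℤ)) q =
        jacobiSym (QD U V W (u : ℤ)) p * jacobiSym (QD U V W ((u : ℤ) + p * v)) q := by
      intro v _
      have e1 : QD U V W ((p * v + u : ℕ) : ℤ) = QD U V W (u : ℤ) + p * (U * (p * v ^ 2 + 2 * u * v) + V * v) := by
        unfold QD; push_cast; ring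
      have e2 : QD U V W ((p * v + u : ℕ) : ℤ) = QD U V W ((u : ℤ) + p * v) := by
        unfold QD; push_cast; ring
      rw [← e2, e1, js_per]
    rw [sum_congr rfl h1, ← mul_sum, comp_sum q hq hq2 U V W _ _ _ hqn]
    · rw [zero_add, one_mul]; ring
    · intro h2
      have := (Nat.prime_dvd_prime_iff_eq hq hp).1 (by exact_mod_cast h2)
      exact hpq this.symm
  rw [sum_congr rfl h0, ← mul_sum, comp_sum p hp hp2 U V W 0 1 _ hpn]
  · ring
  · intro h
    have := Int.le_of_dvd (by norm_num) h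
    have := hp.two_le
    omega

theorem second_momentD (U V W : ℤ) (P : Finset ℕ) (z Z H : ℕ) (hz : 1 ≤ z)
    (hP : ∀ p ∈ P, p.Prime ∧ p ≠ 2 ∧ z < p ∧ p ≤ Z ∧ ¬ (p : ℤ) ∣ V ^ 2 - 4 * U * W) :
    ∑ c ∈ range H, (∑ p ∈ P, (jacobiSym (QD U V W (c : ℤ)) p : ℝ) / p) ^ 2 ≤ 2 * (H / z) + (Z : ℝ) ^ 2 := by
  classical
  have h1 : ∑ c ∈ range H, (∑ p ∈ P, (jacobiSym (QD U V W (c : ℤ)) p : ℝ) / p) ^ 2 =
      ∑ p ∈ P, ∑ q ∈ P, (∑ c ∈ range H, (jacobiSym (QD U V W (c : ℤ)) p : ℝ) * (jacobiSym (QD U V W (c : ℤ)) q : ℝ)) / (p * q) := by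
    simp_rw [sq (∑ p ∈ P, _), sum_mul_sum]
    rw [sum_comm]
    apply sum_congr rfl
    intro p _
    rw [sum_comm]
    apply sum_congr rfl
    intro q _
    rw [sum_div]
    apply sum_congr rfl
    intro c _
    rw [div_mul_div_comm]
  rw [h1]
  have h2 : ∀ p ∈ P, ∀ q ∈ P, (∑ c ∈ range H, (jacobiSym (QD U V W (c : ℤ)) p : ℝ) * (jacobiSym (QD U V W (c : ℤ)) q : ℝ)) / (p * q) ≤
      (if p = q then (H : ℝ) * (1 / (p : ℝ) ^ 2) else 0) + ((H : ℝ) * ((1 / (p : ℝ) ^ 2) * (1 / (q : ℝ) ^ 2)) + 1) := by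
    intro p hp q hq
    obtain ⟨hpp, hp2, hzp, hpZ, hpβ⟩ := hP p hp
    obtain ⟨hqp, hq2, hzq, hqZ, hqβ⟩ := hP q hq
    have hp0 : (0 : ℝ) < p := by exact_mod_cast hpp.pos
    have hq0 : (0 : ℝ) < q := by exact_mod_cast hqp.pos
    by_cases hpq : p = q
    · subst hpq
      rw [if_pos rfl]
      have h3 : ∑ c ∈ range H, (jacobiSym (QD U V W (c : ℤ)) p : ℝ) * (jacobiSym (QD U V W (c : ℤ)) p : ℝ) ≤ H := by
        calc ∑ c ∈ range H, (jacobiSym (QD U V W (c : ℤ)) p : ℝ) * (jacobiSym (QD U V W (c : ℤ)) p : ℝ) ≤ ∑ c ∈ range H, (1 : ℝ) := by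
              apply sum_le_sum
              intro c _
              rw [← sq, sq_le_one_iff_abs_le_one]
              exact js_abs _ _
          _ = H := by simp
      have h4 : (∑ c ∈ range H, (jacobiSym (QD U V W (c : ℤ)) p : ℝ) * (jacobiSym (QD U V W (c : ℤ)) p : ℝ)) / (p * p) ≤
          (H : ℝ) * (1 / (p : ℝ) ^ 2) := by
        rw [mul_one_div, sq]
        exact div_le_div_of_nonneg_right h3 (by positivity)
      have h5 : 0 ≤ (H : ℝ) * ((1 / (p : ℝ) ^ 2) * (1 / (p : ℝ) ^ 2)) := by positivity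
      linarith
    · rw [if_neg hpq, zero_add]
      have h3 := periodic_sum' (fun c => (jacobiSym (QD U V W (c : ℤ)) p : ℝ) * (jacobiSym (QD U V W (c : ℤ)) q : ℝ)) (p * q)
        (Nat.mul_pos hpp.pos hqp.pos) ?_ ?_ ((sg U p : ℝ) * (sg U q : ℝ)) ?_ ?_ H
      · push_cast at h3
        rw [div_le_iff₀ (by positivity)]
        refine (le_abs_self _).trans (h3.trans (le_of_eq ?_))
        field_simp
      · intro x
        rw [abs_mul]
        exact mul_le_one₀ (js_abs _ _) (abs_nonneg _) (js_abs _ _)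
      · intro x
        have e1 : QD U V W ((x + p * q : ℕ) : ℤ) = QD U V W (x : ℤ) + p * (q * (U * (2 * x + p * q) + V)) := by
          unfold QD; push_cast; ring
        have e2 : QD U V W ((x + p * q : ℕ) : ℤ) = QD U V W (x : ℤ) + q * (p * (U * (2 * x + p * q) + V)) := by
          unfold QD; push_cast; ring
        have e3 : jacobiSym (QD U V W ((x + p * q : ℕ) : ℤ)) p = jacobiSym (QD U V W (x : ℤ)) p := by rw [e1, js_per]
        have e4 : jacobiSym (QD U V W ((x + p * q : ℕ) : ℤ)) q = jacobiSym (QD U V W (x : ℤ)) q := by rw [e2, js_per]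
        simp only [e3, e4]
      · have h4 := comp_pair p q hpp hqp hp2 hq2 hpq U V W hpβ hqβ
        exact_mod_cast h4
      · rw [abs_mul]
        exact mul_le_one₀ (sg_abs _ _) (abs_nonneg _) (sg_abs _ _)
  calc ∑ p ∈ P, ∑ q ∈ P, (∑ c ∈ range H, (jacobiSym (QD U V W (c : ℤ)) p : ℝ) * (jacobiSym (QD U V W (c : ℤ)) q : ℝ)) / (p * q)
      ≤ ∑ p ∈ P, ∑ q ∈ P, ((if p = q then (H : ℝ) * (1 / (p : ℝ) ^ 2) else 0) +
          ((H : ℝ) * ((1 / (p : ℝ) ^ 2) * (1 / (q : ℝ) ^ 2)) + 1)) :=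
        sum_le_sum fun p hp => sum_le_sum fun q hq => h2 p hp q hq
    _ = (H : ℝ) * ∑ p ∈ P, 1 / (p : ℝ) ^ 2 + ((H : ℝ) * (∑ p ∈ P, 1 / (p : ℝ) ^ 2) ^ 2 + (#P : ℝ) ^ 2) := by
        simp_rw [sum_add_distrib]
        congr 1
        · rw [mul_sum]
          apply sum_congr rfl
          intro p hp
          rw [sum_ite_eq, if_pos hp]
        · congr 1
          · rw [sq (∑ p ∈ P, _), sum_mul_sum, mul_sum]
            apply sum_congr rfl
            intro p _
            rw [mul_sum]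
          · simp [sq]
    _ ≤ 2 * (H / z) + (Z : ℝ) ^ 2 := by
        have hsub : P ⊆ Ioc z Z := by
          intro p hp
          rw [mem_Ioc]
          exact ⟨(hP p hp).2.2.1, (hP p hp).2.2.2.1⟩
        have hcard : (#P : ℝ) ≤ Z := by
          have := card_le_card hsub
          rw [Nat.card_Ioc] at this
          exact_mod_cast this.trans (Nat.sub_le _ _)
        have hz1 : (1 : ℝ) ≤ z := by exact_mod_cast hz
        have h5 : ∑ p ∈ P, 1 / (p : ℝ) ^ 2 ≤ 1 / (z : ℝ) := by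
          rcases P.eq_empty_or_nonempty with h | ⟨p, hp⟩
          · rw [h, sum_empty]; positivity
          · have hzZ : z ≤ Z := by
              have := hP p hp
              omega
            calc ∑ p ∈ P, 1 / (p : ℝ) ^ 2 ≤ ∑ n ∈ Ioc z Z, 1 / (n : ℝ) ^ 2 :=
                  sum_le_sum_of_subset_of_nonneg hsub (fun _ _ _ => by positivity)
              _ ≤ 1 / (z : ℝ) - 1 / (Z : ℝ) := sum_inv_sq z Z hz hzZ
              _ ≤ 1 / (z : ℝ) := by
                  have : (0 : ℝ) ≤ 1 / (Z : ℝ) := by positivity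
                  linarith
        have h50 : 0 ≤ ∑ p ∈ P, 1 / (p : ℝ) ^ 2 := sum_nonneg fun _ _ => by positivity
        have h51 : 1 / (z : ℝ) ≤ 1 := by rw [div_le_one (by linarith)]; exact hz1
        have h6 : (H : ℝ) * ∑ p ∈ P, 1 / (p : ℝ) ^ 2 ≤ H * (1 / (z : ℝ)) := mul_le_mul_of_nonneg_left h5 (by positivity)
        have h8 : (∑ p ∈ P, 1 / (p : ℝ) ^ 2) ^ 2 ≤ 1 / (z : ℝ) := by
          calc (∑ p ∈ P, 1 / (p : ℝ) ^ 2) ^ 2 = (∑ p ∈ P, 1 / (p : ℝ) ^ 2) * (∑ p ∈ P, 1 / (p : ℝ) ^ 2) := sq _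
            _ ≤ (1 / (z : ℝ)) * 1 := mul_le_mul h5 (h5.trans h51) h50 (by positivity)
            _ = 1 / (z : ℝ) := mul_one _
        have h9 : (H : ℝ) * (∑ p ∈ P, 1 / (p : ℝ) ^ 2) ^ 2 ≤ H * (1 / (z : ℝ)) := mul_le_mul_of_nonneg_left h8 (by positivity)
        have h7 : (#P : ℝ) ^ 2 ≤ (Z : ℝ) ^ 2 := pow_le_pow_left₀ (by positivity) hcard 2
        rw [mul_one_div] at h6 h9
        linarith

/-- few `k` with a large sum -/
theorem low_countD (U V W : ℤ) (P : Finset ℕ) (z Z H : ℕ) (hz : 1 ≤ z)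
    (hP : ∀ p ∈ P, p.Prime ∧ p ≠ 2 ∧ z < p ∧ p ≤ Z ∧ ¬ (p : ℤ) ∣ V ^ 2 - 4 * U * W) (τ : ℝ) (hτ : 0 < τ) :
    (#((range H).filter (fun c : ℕ => τ < |∑ p ∈ P, (jacobiSym (QD U V W (c : ℤ)) p : ℝ) / p|)) : ℝ) ≤
      (2 * (H / z) + (Z : ℝ) ^ 2) / τ ^ 2 := by
  rw [le_div_iff₀ (by positivity)]
  refine le_trans ?_ (second_momentD U V W P z Z H hz hP)
  calc (#((range H).filter (fun c : ℕ => τ < |∑ p ∈ P, (jacobiSym (QD U V W (c : ℤ)) p : ℝ) / p|)) : ℝ) * τ ^ 2
      = ∑ c ∈ (range H).filter (fun c : ℕ => τ < |∑ p ∈ P, (jacobiSym (QD U V W (c : ℤ)) p : ℝ) / p|), τ ^ 2 := by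
        rw [sum_const, nsmul_eq_mul]
    _ ≤ ∑ c ∈ (range H).filter (fun c : ℕ => τ < |∑ p ∈ P, (jacobiSym (QD U V W (c : ℤ)) p : ℝ) / p|),
        (∑ p ∈ P, (jacobiSym (QD U V W (c : ℤ)) p : ℝ) / p) ^ 2 := by
        apply sum_le_sum
        intro c hc
        rw [mem_filter] at hc
        rw [← sq_abs (∑ p ∈ P, (jacobiSym (QD U V W (c : ℤ)) p : ℝ) / p)]
        exact pow_le_pow_left₀ hτ.le hc.2.le 2
    _ ≤ _ := sum_le_sum_of_subset_of_nonneg (filter_subset _ _) (fun _ _ _ => sq_nonneg _)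

open Classical in
/-- few `k` for which `U k² + V k + W` has a given kernel -/
lemma sol_count (U V W : ℤ) (hR : V ^ 2 - 4 * U * W ≠ 0) : ∃ C₀ : ℝ, 0 < C₀ ∧ ∀ H : ℕ, 1 ≤ H → ∀ d : ℤ, d ≠ 0 →
    (#((Icc 1 H).filter (fun k : ℕ => ∃ s : ℕ, QD U V W (k : ℤ) = d * (s : ℤ) ^ 2)) : ℝ) ≤ C₀ * Real.sqrt H := by
  by_cases hU : U = 0
  · -- linear case
    have hV : V ≠ 0 := by
      rintro rfl
      apply hR; rw [hU]; ring
    set K : ℕ := V.natAbs + W.natAbs with hK
    have hK1 : 1 ≤ K := by have := Int.natAbs_pos.2 hV; omega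
    refine ⟨Real.sqrt K + 1, by positivity, fun H hH d hd => ?_⟩
    have hHr : (1:ℝ) ≤ H := by exact_mod_cast hH
    have hsH : 1 ≤ Real.sqrt H := Real.one_le_sqrt.2 hHr
    set S := (Icc 1 H).filter (fun k : ℕ => ∃ s : ℕ, QD U V W (k : ℤ) = d * (s : ℤ) ^ 2) with hS
    have hch : ∀ k : ℕ, ∃ s : ℕ, k ∈ S → QD U V W (k : ℤ) = d * (s : ℤ) ^ 2 := by
      intro k
      by_cases h : k ∈ S
      · rw [hS, mem_filter] at h
        obtain ⟨s, hs⟩ := h.2
        exact ⟨s, fun _ => hs⟩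
      · exact ⟨0, fun h' => absurd h' h⟩
    choose σ hσ using hch
    have hc : #S ≤ #(range (Nat.sqrt (K * H) + 1)) := by
      apply card_le_card_of_injOn σ
      · intro k hk
        have h1 := hσ k hk
        have hkI := mem_Icc.1 (mem_filter.1 (mem_coe.1 hk)).1
        rw [mem_coe, mem_range, Nat.lt_succ_iff, Nat.le_sqrt]
        have h2 : (QD U V W (k : ℤ)).natAbs ≤ K * H := by
          unfold QD
          rw [hU, zero_mul, zero_add]
          calc (V * (k : ℤ) + W).natAbs ≤ (V * (k : ℤ)).natAbs + W.natAbs := Int.natAbs_add_le _ _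
            _ = V.natAbs * k + W.natAbs := by rw [Int.natAbs_mul, Int.natAbs_natCast]
            _ ≤ V.natAbs * H + W.natAbs * H := by
                apply Nat.add_le_add
                · exact Nat.mul_le_mul_left _ hkI.2
                · exact Nat.le_mul_of_pos_right _ (by omega)
            _ = K * H := by rw [hK]; ring
        rw [h1, Int.natAbs_mul, Int.natAbs_pow, Int.natAbs_natCast] at h2
        have h3 : 1 ≤ d.natAbs := Int.natAbs_pos.2 hd
        calc σ k * σ k = 1 * σ k ^ 2 := by ring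
          _ ≤ d.natAbs * σ k ^ 2 := Nat.mul_le_mul_right _ h3
          _ ≤ _ := h2
      · intro k hk k' hk' h
        have h1 := hσ k hk
        have h2 := hσ k' hk'
        have h' : σ k = σ k' := h
        rw [h', ← h2] at h1
        unfold QD at h1
        rw [hU, zero_mul, zero_mul, zero_add, zero_add] at h1
        have h3 : V * ((k : ℤ) - k') = 0 := by linarith
        rcases mul_eq_zero.1 h3 with h4 | h4
        · exact absurd h4 hV
        · have : (k : ℤ) = k' := by linarith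
          exact_mod_cast this
    rw [card_range] at hc
    have h1 : (#S : ℝ) ≤ (Nat.sqrt (K * H) : ℝ) + 1 := by exact_mod_cast hc
    have h2 : (Nat.sqrt (K * H) : ℝ) ≤ Real.sqrt ((K * H : ℕ) : ℝ) := Real.nat_sqrt_le_real_sqrt
    have h3 : Real.sqrt ((K * H : ℕ) : ℝ) = Real.sqrt K * Real.sqrt H := by
      push_cast
      exact Real.sqrt_mul (by positivity) _
    rw [h3] at h2
    nlinarith
  · -- quadratic case
    set n : ℤ := V ^ 2 - 4 * U * W with hn
    set M : ℕ := 2 * U.natAbs + V.natAbs with hM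
    have hM1 : 1 ≤ M := by have := Int.natAbs_pos.2 hU; omega
    -- the bound `2 (|n| + n² (2 (log M H + 1))) + 1`
    refine ⟨2 * (n.natAbs + (n.natAbs : ℝ) ^ 2 * (2 * (3 * M + 5))) + 1, by positivity, fun H hH d hd => ?_⟩
    have hHr : (1:ℝ) ≤ H := by exact_mod_cast hH
    have hsH : 1 ≤ Real.sqrt H := Real.one_le_sqrt.2 hHr
    set S := (Icc 1 H).filter (fun k : ℕ => ∃ s : ℕ, QD U V W (k : ℤ) = d * (s : ℤ) ^ 2) with hS
    set B := (Icc 1 (M * H)).filter (fun b : ℕ => ∃ s : ℕ, (b : ℤ) ^ 2 - n = (4 * U * d) * (s : ℤ) ^ 2) with hB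
    have hpell := pell_count n (4 * U * d) hR (M * H)
    rw [← hB] at hpell
    set φ : ℕ → ℕ := fun k => (2 * U * (k : ℤ) + V).natAbs with hφ
    -- fibres of φ have at most two elements
    have hmaps : ∀ k ∈ S, φ k ∈ insert 0 B := by
      intro k hk
      rw [hS, mem_filter, mem_Icc] at hk
      obtain ⟨s, hs⟩ := hk.2
      rw [mem_insert]
      by_cases h0 : φ k = 0
      · exact Or.inl h0
      right
      rw [hB, mem_filter, mem_Icc]
      refine ⟨⟨by omega, ?_⟩, s, ?_⟩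
      · calc φ k ≤ (2 * U * (k : ℤ)).natAbs + V.natAbs := Int.natAbs_add_le _ _
          _ = 2 * U.natAbs * k + V.natAbs := by
              rw [Int.natAbs_mul, Int.natAbs_mul, Int.natAbs_natCast]; rfl
          _ ≤ 2 * U.natAbs * H + V.natAbs * H := by
              apply Nat.add_le_add
              · exact Nat.mul_le_mul_left _ hk.1.2
              · exact Nat.le_mul_of_pos_right _ (by omega)
          _ = M * H := by rw [hM]; ring
      · have e1 : ((φ k : ℕ) : ℤ) ^ 2 = (2 * U * (k : ℤ) + V) ^ 2 := by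
          rw [hφ]; simp only [Int.natCast_natAbs, sq_abs]
        rw [e1]
        unfold QD at hs
        rw [hn]
        linear_combination (4 * U) * hs
    have hfib : ∀ b ∈ insert 0 B, #(S.filter (fun k => φ k = b)) ≤ 2 := by
      intro b _
      have hsub : S.filter (fun k => φ k = b) ⊆ (S.filter (fun k : ℕ => 2 * U * (k : ℤ) + V = b)) ∪
          (S.filter (fun k : ℕ => 2 * U * (k : ℤ) + V = -b)) := by
        intro k hk
        have hk' := mem_filter.1 hk
        have h1 : (2 * U * (k : ℤ) + V).natAbs = b := hk'.2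
        rcases Int.natAbs_eq (2 * U * (k : ℤ) + V) with h2 | h2
        · exact mem_union.2 (Or.inl (mem_filter.2 ⟨hk'.1, by rw [h1] at h2; exact h2⟩))
        · exact mem_union.2 (Or.inr (mem_filter.2 ⟨hk'.1, by rw [h1] at h2; exact h2⟩))
      have hone : ∀ c : ℤ, #(S.filter (fun k : ℕ => 2 * U * (k : ℤ) + V = c)) ≤ 1 := by
        intro c
        rw [card_le_one]
        intro k hk k' hk'
        rw [mem_filter] at hk hk'
        have h1 : 2 * U * ((k : ℤ) - k') = 0 := by linarith [hk.2, hk'.2]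
        rcases mul_eq_zero.1 h1 with h2 | h2
        · exact absurd h2 (mul_ne_zero two_ne_zero hU)
        · have : (k : ℤ) = k' := by linarith
          exact_mod_cast this
      have := (card_le_card hsub).trans (card_union_le _ _)
      have h1 := hone b
      have h2 := hone (-b)
      omega
    have h1 : #S ≤ 2 * #(insert 0 B) := by
      rw [Finset.card_eq_sum_card_fiberwise hmaps]
      refine (sum_le_sum hfib).trans (le_of_eq ?_)
      rw [sum_const, smul_eq_mul, mul_comm]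
    have h2 : #(insert 0 B) ≤ #B + 1 := card_insert_le _ _
    have h3 : (Nat.log 2 (M * H) : ℝ) + 1 ≤ (3 * M + 4) * Real.sqrt H := by
      have h4 : Nat.log 2 (M * H) ≤ Nat.log 2 M + Nat.log 2 H + 1 := by
        apply Nat.le_of_lt_succ
        apply Nat.log_lt_of_lt_pow (by positivity)
        have a1 : M < 2 ^ (Nat.log 2 M + 1) := Nat.lt_pow_succ_log_self (by norm_num) M
        have a2 : H < 2 ^ (Nat.log 2 H + 1) := Nat.lt_pow_succ_log_self (by norm_num) H
        calc M * H < 2 ^ (Nat.log 2 M + 1) * 2 ^ (Nat.log 2 H + 1) := Nat.mul_lt_mul'' a1 a2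
          _ = 2 ^ (Nat.log 2 M + Nat.log 2 H + 1).succ := by rw [← pow_add]; congr 1; omega
      have h5 : Nat.log 2 M ≤ M := Nat.log_le_self 2 M
      have h6 : (Nat.log 2 H : ℝ) ≤ 3 * Real.sqrt H := by
        have a1 : (Nat.log 2 H : ℝ) * Real.log 2 ≤ Real.log H := by
          have : ((2 ^ Nat.log 2 H : ℕ) : ℝ) ≤ H := by exact_mod_cast Nat.pow_log_le_self 2 (by omega)
          have h7 := Real.log_le_log (by positivity) this
          push_cast at h7
          rw [Real.log_pow] at h7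
          exact h7
        have a2 : Real.log H ≤ 2 * (Real.sqrt H - 1) := by
          have h7 := Real.log_le_sub_one_of_pos (show 0 < Real.sqrt H by linarith)
          have h8 : Real.log H = 2 * Real.log (Real.sqrt H) := by
            rw [Real.log_sqrt (by positivity)]; ring
          rw [h8]; linarith
        have a3 := Real.log_two_gt_d9
        have a4 : (0:ℝ) ≤ Nat.log 2 H := Nat.cast_nonneg _
        nlinarith
      have h7 : (Nat.log 2 (M * H) : ℝ) ≤ M + 3 * Real.sqrt H + 1 := by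
        have : (Nat.log 2 (M * H) : ℝ) ≤ (Nat.log 2 M : ℝ) + Nat.log 2 H + 1 := by exact_mod_cast h4
        have h8 : (Nat.log 2 M : ℝ) ≤ M := by exact_mod_cast h5
        linarith
      have hM1r : (1:ℝ) ≤ M := by exact_mod_cast hM1
      nlinarith
    have h4 : (#B : ℝ) ≤ n.natAbs + (n.natAbs : ℝ) ^ 2 * (2 * (Nat.log 2 (M * H) + 1)) := by exact_mod_cast hpell
    have h5 : (#S : ℝ) ≤ 2 * (#B + 1) := by exact_mod_cast h1.trans (Nat.mul_le_mul_left 2 h2)
    have h6 : (#B : ℝ) ≤ (n.natAbs + (n.natAbs : ℝ) ^ 2 * (2 * (3 * M + 4))) * Real.sqrt H := by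
      refine h4.trans ?_
      have h7 : (n.natAbs : ℝ) ≤ n.natAbs * Real.sqrt H := le_mul_of_one_le_right (by positivity) hsH
      have h8 : (n.natAbs : ℝ) ^ 2 * (2 * (Nat.log 2 (M * H) + 1)) ≤ (n.natAbs : ℝ) ^ 2 * (2 * ((3 * M + 4) * Real.sqrt H)) := by
        gcongr
      nlinarith
    have hn1 : (1:ℝ) ≤ n.natAbs := by exact_mod_cast Int.natAbs_pos.2 hR
    have hn2 : (1:ℝ) ≤ (n.natAbs : ℝ) ^ 2 := one_le_pow₀ hn1
    calc (#S : ℝ) ≤ 2 * (#B + 1) := h5
      _ ≤ 2 * ((n.natAbs + (n.natAbs : ℝ) ^ 2 * (2 * (3 * M + 4))) * Real.sqrt H + 1 * Real.sqrt H) := by linarith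
      _ ≤ (2 * (n.natAbs + (n.natAbs : ℝ) ^ 2 * (2 * (3 * M + 5))) + 1) * Real.sqrt H := by
          nlinarith

end Pool.Agent.Helper24K9.EL
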