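import Mathlib
import Pool.Agent.TH892.CF2
import Pool.Agent.Helper24K9.EL.Tb
import Pool.Agent.Helper24K9.EL.Ln

set_option autoImplicit false

/-!
The cut product of Conjecture F against the full one, without a bound for the leading coefficient.
-/

namespace Pool.Agent.Helper24K9.EL
open Finset Filter Topology
open Pool.Agent.W468.ConjF
open Pool.Agent.TH892 (hh log_CF_sub log_factor)

/-- the sum of `1/p` over the primes `p ∈ (z, N]` dividing `a` -/
noncomputable def DS (a : ℤ) (z N : ℕ) : ℝ :=
  ∑ p ∈ (Ioc z N).filter (fun p : ℕ => p.Prime ∧ (p : ℤ) ∣ a), 1 / (p : ℝ)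

theorem CF_cmp (a b c : ℤ) (z N : ℕ) (hz : 2 ≤ z) (hzN : z ≤ N) :
    |Real.log (CF a b c N) - Real.log (CF a b c z)| ≤
      |SJ (b ^ 2 - 4 * a * c) z N| + 12 / z + 3 * DS a z N := by
  classical
  rw [log_CF_sub a b c z N hzN]
  set D := b ^ 2 - 4 * a * c with hD
  have hz0 : (0:ℝ) < z := by exact_mod_cast (by omega : 0 < z)
  -- pointwise
  have hpt : ∀ p ∈ Ioc z N, |hh a b c p + (if p.Prime then (jacobiSym D p : ℝ) / p else 0)| ≤
      12 * (1 / (p : ℝ) ^ 2) + (if p.Prime ∧ (p : ℤ) ∣ a then 3 * (1 / (p : ℝ)) else 0) := by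
    intro p hp
    rw [mem_Ioc] at hp
    have hp3 : 3 ≤ p := by omega
    have hpr : (3:ℝ) ≤ p := by exact_mod_cast hp3
    have hp0 : (0:ℝ) < p := by linarith
    have hpos : 0 ≤ 12 * (1 / (p : ℝ) ^ 2) := by positivity
    have hj : |(jacobiSym D p : ℝ) / p| ≤ 1 / (p : ℝ) := by
      rw [abs_div, Nat.abs_cast]
      exact div_le_div_of_nonneg_right (js_abs D p) hp0.le
    have h1p : 0 ≤ 1 / (p : ℝ) := by positivity
    unfold hh
    rw [← hD]
    by_cases hpp : p.Prime
    · rw [if_pos hpp]
      by_cases hpa : (p : ℤ) ∣ a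
      · rw [if_pos (show p.Prime ∧ (p : ℤ) ∣ a from ⟨hpp, hpa⟩)]
        by_cases hpb : (p : ℤ) ∣ b
        · rw [if_pos ⟨hpp, hp3, hpa, hpb⟩, if_neg (fun h => h.2.2 hpa), add_zero]
          have h1 : 0 ≤ Real.log ((p : ℝ) / (p - 1)) := by
            apply Real.log_nonneg
            rw [le_div_iff₀ (by linarith)]; linarith
          have h2 : Real.log ((p : ℝ) / (p - 1)) ≤ 2 * (1 / (p : ℝ)) := by
            have h3 := Real.log_le_sub_one_of_pos (show (0:ℝ) < (p : ℝ) / (p - 1) by
              apply div_pos <;> linarith)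
            refine h3.trans ?_
            have h4 : (p : ℝ) / (p - 1) - 1 = 1 / (p - 1) := by
              have : (p : ℝ) - 1 ≠ 0 := by linarith
              field_simp
              ring
            rw [h4, mul_one_div, div_le_div_iff₀ (by linarith) hp0]
            linarith
          refine (abs_add_le _ _).trans ?_
          rw [abs_of_nonneg h1]
          linarith
        · rw [if_neg (fun h => hpb h.2.2.2), if_neg (fun h => h.2.2 hpa), add_zero, zero_add]
          linarith
      · rw [if_neg (fun h => hpa h.2.2.1), if_pos ⟨hpp, hp3, hpa⟩,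
          if_neg (show ¬ (p.Prime ∧ (p : ℤ) ∣ a) from fun h => hpa h.2), add_zero, zero_add]
        refine (log_factor D p hp3).trans (le_of_eq ?_)
        ring
    · rw [if_neg (fun h => hpp h.1), if_neg (fun h => hpp h.1), if_neg hpp,
        if_neg (show ¬ (p.Prime ∧ (p : ℤ) ∣ a) from fun h => hpp h.1),
        add_zero, add_zero, abs_zero, add_zero]
      exact hpos
  have hS1 : |∑ p ∈ Ioc z N, (hh a b c p + (if p.Prime then (jacobiSym D p : ℝ) / p else 0))| ≤
      12 / z + 3 * DS a z N := by
    refine (abs_sum_le_sum_abs _ _).trans ((sum_le_sum hpt).trans ?_)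
    rw [sum_add_distrib, ← mul_sum, ← sum_filter]
    have h1 := sum_inv_sq z N (by omega) hzN
    have h2 : (0:ℝ) ≤ 1 / (N:ℝ) := by positivity
    have h4 : 12 * (∑ n ∈ Ioc z N, 1 / (n : ℝ) ^ 2) ≤ 12 / (z : ℝ) := by
      calc 12 * (∑ n ∈ Ioc z N, 1 / (n : ℝ) ^ 2) ≤ 12 * (1 / (z : ℝ)) := by linarith
        _ = 12 / (z : ℝ) := by ring
    have h5 : ∑ p ∈ (Ioc z N).filter (fun p : ℕ => p.Prime ∧ (p : ℤ) ∣ a), 3 * (1 / (p : ℝ)) = 3 * DS a z N := by
      unfold DS
      rw [mul_sum]
    linarith
  have hS2 : ∑ p ∈ Ioc z N, (if p.Prime then (jacobiSym D p : ℝ) / p else 0) = SJ D z N := by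
    unfold SJ
    rw [sum_filter]
  rw [sum_add_distrib, hS2] at hS1
  set X := ∑ p ∈ Ioc z N, hh a b c p with hX
  have e : X = (X + SJ D z N) - SJ D z N := by ring
  rw [e]
  refine (abs_sub _ _).trans ?_
  linarith

/-- the sum over the primes dividing the leading coefficient is small for most `k` -/
theorem DS_most (a α : ℤ) (hα : 0 < α ∨ (α = 0 ∧ 0 < a)) (ε η : ℝ) (hε : 0 < ε) (hη : 0 < η) :
    ∃ z₀ : ℕ, ∀ z : ℕ, z₀ ≤ z → ∃ H₀ : ℕ, ∀ H : ℕ, H₀ ≤ H → ∃ E : Finset ℕ, (#E : ℝ) ≤ η * H ∧
      ∀ k ∈ Icc 1 H, k ∉ E → 0 < a + α * k ∧ ∀ N : ℕ, DS (a + α * k) z N ≤ ε := by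
  classical
  rcases hα with hα | ⟨hα, ha⟩
  · set K : ℕ := a.natAbs + α.natAbs + 1 with hK
    refine ⟨max (max 2 K) ⌈4 / (η * ε)⌉₊, fun z hz => ?_⟩
    have hz2 : 2 ≤ z := ((le_max_left _ _).trans (le_max_left _ _)).trans hz
    have hzK : K ≤ z := ((le_max_right _ _).trans (le_max_left _ _)).trans hz
    have hzε : 4 / (η * ε) ≤ z := (Nat.le_ceil _).trans (by exact_mod_cast (le_max_right _ _).trans hz)
    have hz0 : (0 : ℝ) < z := by exact_mod_cast (by omega : 0 < z)
    have hev : ∀ᶠ H : ℕ in atTop, 1 ≤ H ∧ (1 + Real.log (K * H : ℝ)) ≤ η * ε / 4 * H ∧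
        (K : ℝ) ≤ η / 4 * H := by
      have h1 : Tendsto (fun x : ℝ => (1 + Real.log x) / x) atTop (𝓝 0) := by
        have h2 : Tendsto (fun x : ℝ => 1 / x) atTop (𝓝 0) := by
          simpa using tendsto_inv_atTop_zero (𝕜 := ℝ)
        have h3 : Tendsto (fun x : ℝ => Real.log x / x) atTop (𝓝 0) := by
          have := Real.isLittleO_log_id_atTop.tendsto_div_nhds_zero
          simpa using this
        have h4 := h2.add h3
        rw [add_zero] at h4
        refine h4.congr fun x => ?_
        rw [← add_div]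
      have hK0 : (0:ℝ) < K := by exact_mod_cast (by omega : 0 < K)
      have h2 : Tendsto (fun H : ℕ => (K:ℝ) * H) atTop atTop :=
        (tendsto_natCast_atTop_atTop (R := ℝ)).const_mul_atTop hK0
      have h3 := (h1.comp h2).eventually (ge_mem_nhds (show (0:ℝ) < η * ε / 4 / K by positivity))
      have h4 : ∀ᶠ H : ℕ in atTop, (K:ℝ) / (η / 4) ≤ H :=
        tendsto_natCast_atTop_atTop.eventually_ge_atTop _
      filter_upwards [eventually_ge_atTop 1, h3, h4] with H h5 h6 h7
      have hH0 : (0:ℝ) < H := by exact_mod_cast h5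
      refine ⟨h5, ?_, ?_⟩
      · simp only [Function.comp] at h6
        rw [div_le_iff₀ (by positivity)] at h6
        refine h6.trans (le_of_eq ?_)
        field_simp
      · rw [div_le_iff₀ (by positivity)] at h7
        linarith
    obtain ⟨H₀, hH₀⟩ := eventually_atTop.1 hev
    refine ⟨H₀, fun H hH => ?_⟩
    obtain ⟨hH1, hHlog, hHK⟩ := hH₀ H hH
    have hH0 : (0:ℝ) < H := by exact_mod_cast hH1
    set M : ℕ := K * H with hM
    have hM1 : 1 ≤ M := Nat.mul_pos (by omega) (by omega)
    set E1 := Icc 1 a.natAbs with hE1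
    set E2 := (Icc 1 H).filter (fun k : ℕ => ε < DS (a + α * k) z M) with hE2
    refine ⟨E1 ∪ E2, ?_, ?_⟩
    · have c1 : (#E1 : ℝ) ≤ η / 4 * H := by
        rw [hE1, Nat.card_Icc, Nat.add_sub_cancel]
        have : (a.natAbs : ℝ) ≤ K := by exact_mod_cast (by omega : a.natAbs ≤ K)
        linarith
      have c2 : (#E2 : ℝ) ≤ η / 2 * H := by
        have h1 : (#E2 : ℝ) * ε ≤ ∑ k ∈ Icc 1 H, DS (a + α * k) z M := by
          calc (#E2 : ℝ) * ε = ∑ k ∈ E2, ε := by rw [sum_const, nsmul_eq_mul]
            _ ≤ ∑ k ∈ E2, DS (a + α * k) z M := by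
                apply sum_le_sum
                intro k hk
                rw [hE2, mem_filter] at hk
                exact hk.2.le
            _ ≤ _ := sum_le_sum_of_subset_of_nonneg (filter_subset _ _) fun k _ _ => by
                unfold DS
                exact sum_nonneg fun _ _ => by positivity
        have h2 : ∑ k ∈ Icc 1 H, DS (a + α * k) z M ≤ H / z + (1 + Real.log M) := by
          have e1 : ∑ k ∈ Icc 1 H, DS (a + α * k) z M = ∑ p ∈ (Ioc z M).filter Nat.Prime,
              (#((Icc 1 H).filter (fun k : ℕ => (p : ℤ) ∣ a + α * k)) : ℝ) * (1 / (p : ℝ)) := by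
            unfold DS
            have e2 : ∀ k ∈ Icc 1 H, ∑ p ∈ (Ioc z M).filter (fun p : ℕ => p.Prime ∧ (p : ℤ) ∣ a + α * k), 1 / (p : ℝ) =
                ∑ p ∈ (Ioc z M).filter Nat.Prime, (if (p : ℤ) ∣ a + α * k then 1 / (p : ℝ) else 0) := by
              intro k _
              rw [← sum_filter, filter_filter]
            rw [sum_congr rfl e2, sum_comm]
            apply sum_congr rfl
            intro p _
            rw [← sum_filter, sum_const, nsmul_eq_mul]
          rw [e1]
          have h3 : ∀ p ∈ (Ioc z M).filter Nat.Prime,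
              (#((Icc 1 H).filter (fun k : ℕ => (p : ℤ) ∣ a + α * k)) : ℝ) * (1 / (p : ℝ)) ≤
              H * (1 / (p : ℝ) ^ 2) + 1 / (p : ℝ) := by
            intro p hp
            rw [mem_filter, mem_Ioc] at hp
            have hp0 : (0:ℝ) < p := by exact_mod_cast hp.2.pos
            have hpα : ¬ (p : ℤ) ∣ α := by
              intro h
              have h4 := Int.le_of_dvd hα h
              omega
            have h4 : (#((Icc 1 H).filter (fun k : ℕ => (p : ℤ) ∣ a + α * k)) : ℝ) ≤ (H : ℝ) / p + 1 := by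
              apply card_class _ H p hp.2.pos (filter_subset _ _)
              intro s hs t ht
              rw [mem_filter] at hs ht
              rw [Nat.modEq_iff_dvd]
              have h5 : (p : ℤ) ∣ α * ((t : ℤ) - s) := by
                have := dvd_sub ht.2 hs.2
                have e : a + α * (t : ℤ) - (a + α * s) = α * ((t : ℤ) - s) := by ring
                rwa [e] at this
              rcases (Nat.prime_iff_prime_int.1 hp.2).dvd_or_dvd h5 with h6 | h6
              · exact absurd h6 hpα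
              · exact h6
            calc (#((Icc 1 H).filter (fun k : ℕ => (p : ℤ) ∣ a + α * k)) : ℝ) * (1 / (p : ℝ)) ≤
                  ((H : ℝ) / p + 1) * (1 / (p : ℝ)) := by gcongr
              _ = _ := by field_simp
          refine (sum_le_sum h3).trans ?_
          rw [sum_add_distrib, ← mul_sum]
          have h4 : ∑ p ∈ (Ioc z M).filter Nat.Prime, 1 / (p : ℝ) ^ 2 ≤ 1 / (z : ℝ) := by
            rcases le_or_gt z M with h | h
            · have := sum_inv_sq z M (by omega) h
              have h2 : (0:ℝ) ≤ 1 / (M:ℝ) := by positivity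
              calc ∑ p ∈ (Ioc z M).filter Nat.Prime, 1 / (p : ℝ) ^ 2 ≤ ∑ p ∈ Ioc z M, 1 / (p : ℝ) ^ 2 :=
                    sum_le_sum_of_subset_of_nonneg (filter_subset _ _) fun _ _ _ => by positivity
                _ ≤ 1 / (z : ℝ) := by linarith
            · have : Ioc z M = ∅ := Ioc_eq_empty_of_le h.le
              rw [this, filter_empty, sum_empty]; positivity
          have h5 : ∑ p ∈ (Ioc z M).filter Nat.Prime, 1 / (p : ℝ) ≤ 1 + Real.log M := by
            have h6 : ∑ p ∈ (Ioc z M).filter Nat.Prime, 1 / (p : ℝ) ≤ ∑ n ∈ Icc 1 M, 1 / (n : ℝ) := by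
              apply sum_le_sum_of_subset_of_nonneg _ fun _ _ _ => by positivity
              intro p hp
              rw [mem_filter, mem_Ioc] at hp
              exact mem_Icc.2 ⟨by omega, hp.1.2⟩
            refine h6.trans ?_
            have h7 := harmonic_le_one_add_log M
            have h8 : ∑ n ∈ Icc 1 M, 1 / (n : ℝ) = ((harmonic M : ℚ) : ℝ) := by
              rw [harmonic_eq_sum_Icc]
              push_cast
              apply sum_congr rfl
              intro n _
              rw [one_div]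
            rw [h8]; exact h7
          calc (H:ℝ) * ∑ p ∈ (Ioc z M).filter Nat.Prime, 1 / (p : ℝ) ^ 2 + ∑ p ∈ (Ioc z M).filter Nat.Prime, 1 / (p : ℝ)
              ≤ H * (1 / z) + (1 + Real.log M) := by gcongr
            _ = _ := by ring
        have h3 : (H:ℝ) / z ≤ η * ε / 4 * H := by
          rw [div_le_iff₀ (by positivity)] at hzε
          rw [div_le_iff₀ hz0]
          nlinarith
        have h4 : 1 + Real.log M ≤ η * ε / 4 * H := by
          rw [hM]; push_cast; exact hHlog
        have h5 : (#E2 : ℝ) * ε ≤ (η / 2 * H) * ε := by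
          refine (h1.trans h2).trans ?_
          linarith
        exact le_of_mul_le_mul_right h5 hε
      calc (#(E1 ∪ E2) : ℝ) ≤ #E1 + #E2 := by exact_mod_cast card_union_le _ _
        _ ≤ η / 4 * H + η / 2 * H := add_le_add c1 c2
        _ ≤ η * H := by nlinarith
    · intro k hk hkE
      rw [mem_union, not_or] at hkE
      rw [mem_Icc] at hk
      have hka : a.natAbs < k := by
        by_contra hcon
        push Not at hcon
        exact hkE.1 (mem_Icc.2 ⟨hk.1, hcon⟩)
      have hpos : 0 < a + α * k := by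
        have h1 : -(a.natAbs : ℤ) ≤ a := by
          rw [Int.natCast_natAbs]; exact neg_abs_le a
        have h2 : (a.natAbs : ℤ) < k := by exact_mod_cast hka
        nlinarith
      refine ⟨hpos, fun N => ?_⟩
      have h1 : DS (a + α * k) z M ≤ ε := by
        by_contra hcon
        push Not at hcon
        exact hkE.2 (by rw [hE2, mem_filter, mem_Icc]; exact ⟨hk, hcon⟩)
      refine le_trans ?_ h1
      unfold DS
      apply sum_le_sum_of_subset_of_nonneg _ fun _ _ _ => by positivity
      intro p hp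
      rw [mem_filter, mem_Ioc] at hp ⊢
      refine ⟨⟨hp.1.1, ?_⟩, hp.2⟩
      have h2 := Int.le_of_dvd hpos hp.2.2
      have h3 : a + α * k ≤ (M : ℤ) := by
        rw [hM]
        push_cast
        have h4 : a ≤ (a.natAbs : ℤ) := by rw [Int.natCast_natAbs]; exact le_abs_self a
        have h5 : α ≤ (α.natAbs : ℤ) := by rw [Int.natCast_natAbs]; exact le_abs_self α
        have h6 : (k : ℤ) ≤ H := by exact_mod_cast hk.2
        have h7 : (1 : ℤ) ≤ H := by exact_mod_cast hH1
        have h8 : (0 : ℤ) ≤ (a.natAbs : ℤ) := Int.natCast_nonneg _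
        have h9 : α * k ≤ (α.natAbs : ℤ) * H := by
          apply mul_le_mul h5 h6 (Int.natCast_nonneg _) (Int.natCast_nonneg _)
        have h10 : (K : ℤ) = (a.natAbs : ℤ) + α.natAbs + 1 := by rw [hK]; push_cast; ring
        rw [h10]
        nlinarith
      have h5 : (p : ℤ) ≤ M := h2.trans h3
      exact_mod_cast h5
  · refine ⟨a.natAbs + 1, fun z hz => ⟨0, fun H _ => ⟨∅, by simp; positivity, ?_⟩⟩⟩
    intro k _ _
    rw [hα, zero_mul, add_zero]
    refine ⟨ha, fun N => ?_⟩
    unfold DS
    have : (Ioc z N).filter (fun p : ℕ => p.Prime ∧ (p : ℤ) ∣ a) = ∅ := by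
      apply filter_eq_empty_iff.2
      rintro p hp ⟨_, h2⟩
      rw [mem_Ioc] at hp
      have := Int.le_of_dvd ha h2
      omega
    rw [this, sum_empty]
    exact hε.le

end Pool.Agent.Helper24K9.EL
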