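import Mathlib
import Pool.Agent.Helper24K9.EL.Ft
import Pool.Agent.W218.HF.First

set_option autoImplicit false

/-! First moment along a line of coefficients: `g` linear. -/

open Finset Filter Topology

namespace Pool.Agent.Helper24K9.EL

open Pool.Agent.Erdos456 H343E Pool.Agent.W218.HF

/-- Bombieri-Vinogradov with one class for every modulus -/
theorem bv_lin : ∃ B X0 : ℕ, ∀ X : ℕ, X0 ≤ X → ∀ D : ℕ, (D : ℝ) ≤ X / Real.log X ^ B →
    (D : ℝ) ^ 2 ≤ X / Real.log X ^ B → ∀ (T : Finset ℕ) (m a : ℕ → ℕ),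
    (∀ t ∈ T, 1 ≤ m t ∧ m t ≤ D ∧ (a t).Coprime (m t)) → Set.InjOn m T →
    ∑ t ∈ T, |piAP X (m t) (a t) - pi1 X / (Nat.totient (m t) : ℝ)| ≤ X / Real.log X ^ 2 := by
  classical
  obtain ⟨B, X0, h⟩ := primes_of 2 (unsmoothed (2 + 2))
  refine ⟨B, X0, ?_⟩
  intro X hX D hD1 hD2 T m a hT hinj
  set L : ℕ → Finset ℕ := fun q => (T.filter (fun t => m t = q)).image (fun t => a t % q) with hL
  have hone : ∀ q, #(T.filter (fun t => m t = q)) ≤ 1 := by
    intro q
    rw [card_le_one]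
    intro s hs t ht
    rw [mem_filter] at hs ht
    exact hinj hs.1 ht.1 (hs.2.trans ht.2.symm)
  have hfam : Fam 1 L := by
    constructor
    · intro q r hr
      rw [hL] at hr
      simp only [mem_image, mem_filter] at hr
      obtain ⟨t, ⟨ht, htq⟩, rfl⟩ := hr
      obtain ⟨h1, h2, h3⟩ := hT t ht
      rw [htq] at h1 h3
      refine ⟨Nat.mod_lt _ (by omega), ?_⟩
      unfold Nat.Coprime at h3 ⊢
      rw [← Nat.gcd_rec, Nat.gcd_comm]
      exact h3
    · intro q
      have := card_image_le (s := T.filter (fun t => m t = q)) (f := fun t => a t % q)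
      have h1 := hone q
      have h2 : (L q).card ≤ 1 := this.trans h1
      exact_mod_cast h2
  have h1 := h X hX 1 le_rfl D hD1 (by rw [one_mul]; exact hD2) L hfam
  rw [one_mul] at h1
  refine le_trans (le_of_eq ?_) h1
  have hpi : ∀ q r : ℕ, piAP X q (r % q) = piAP X q r := by
    intro q r
    unfold piAP
    congr 2
    apply filter_congr
    intro p _
    unfold Nat.ModEq
    rw [Nat.mod_mod]
  rw [← sum_fiberwise_of_maps_to (s := T) (t := Icc 1 D) (g := m) (fun t ht => by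
    obtain ⟨h1, h2, h3⟩ := hT t ht
    exact mem_Icc.2 ⟨h1, h2⟩)]
  apply sum_congr rfl
  intro q _
  rw [hL]
  simp only
  rw [sum_image]
  · apply sum_congr rfl
    intro t ht
    rw [mem_filter] at ht
    rw [ht.2, hpi]
  · intro s hs t ht _
    exact card_le_one.1 (hone q) s hs t ht

theorem primes_low_lin : ∃ B : ℕ, ∀ η : ℝ, 0 < η → ∃ X₁ : ℕ, ∀ X : ℕ, X₁ ≤ X → ∀ D : ℕ, 
    (D : ℝ) ^ 2 ≤ X / Real.log X ^ B → ∀ (T : Finset ℕ) (m a : ℕ → ℕ),
    (∀ t ∈ T, 1 ≤ m t ∧ m t ≤ D ∧ (a t).Coprime (m t)) → Set.InjOn m T →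
    (1 - η) * (X / Real.log X) * (∑ t ∈ T, 1 / (Nat.totient (m t) : ℝ)) - X / Real.log X ^ 2 ≤
      ∑ t ∈ T, piAP X (m t) (a t) := by
  obtain ⟨B, X0, h⟩ := bv_lin
  refine ⟨B, fun η hη => ?_⟩
  obtain ⟨x₀, hpnt⟩ := Pool.Agent.H373R2.SH.pnt_windowB 4 (by norm_num) η hη
  refine ⟨max X0 x₀, fun X hX D hD T m a hT hinj => ?_⟩
  have hD1 : (D : ℝ) ≤ X / Real.log X ^ B := by
    refine le_trans ?_ hD
    have : D ≤ D ^ 2 := Nat.le_self_pow (by norm_num) D
    exact_mod_cast this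
  have h1 := h X ((le_max_left _ _).trans hX) D hD1 hD T m a hT hinj
  have h2 := hpnt X ((le_max_right _ _).trans hX) 0 (Nat.zero_le _)
  rw [Nat.add_zero, ← pi1_eq, ← pi1_eq] at h2
  have h3 : pi1 0 = 0 := by unfold pi1; simp
  rw [h3, sub_zero] at h2
  have h4 : ∑ t ∈ T, pi1 X / (Nat.totient (m t) : ℝ) - ∑ t ∈ T, piAP X (m t) (a t) ≤
      ∑ t ∈ T, |piAP X (m t) (a t) - pi1 X / (Nat.totient (m t) : ℝ)| := by
    rw [← sum_sub_distrib]
    apply sum_le_sum
    intro t _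
    rw [abs_sub_comm]
    exact le_abs_self _
  have h5 : (1 - η) * (X / Real.log X) * (∑ t ∈ T, 1 / (Nat.totient (m t) : ℝ)) ≤
      ∑ t ∈ T, pi1 X / (Nat.totient (m t) : ℝ) := by
    rw [mul_sum]
    apply sum_le_sum
    intro t _
    rw [mul_one_div]
    exact div_le_div_of_nonneg_right h2 (Nat.cast_nonneg _)
  linarith

namespace Ln

variable (l : Ln)

/-- one block, `g` linear -/
theorem block_lin (hα : l.α = 0) : ∃ B : ℕ, ∃ C₀ : ℝ, 0 < C₀ ∧ ∀ η : ℝ, 0 < η → η ≤ 1 / 20 → ∃ K₁ n₁ : ℕ,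
    l.t0 ≤ n₁ ∧ ∀ K : ℕ, K₁ ≤ K → ∀ (n' n : ℕ) (T : Finset ℕ), n₁ ≤ n' → n' ≤ n →
    (1 - η) * n - 1 ≤ n' → (l.g n : ℝ) * Real.log K ^ B ≤ K → T ⊆ Ioc n' n →
    (∀ t ∈ T, IsCoprime (l.G t) (l.H t)) →
    (1 - 9 * η) * (K / Real.log (K * l.g n)) * (∑ t ∈ T, GG (l.g t)) - C₀ * (n * (K / Real.log K ^ 2)) ≤
      ∑ t ∈ T, l.ck K t := by
  classical
  obtain ⟨B, hB⟩ := primes_low_lin
  have hS1 : (1:ℝ) ≤ l.S := by exact_mod_cast l.S_pos'
  refine ⟨B + 3, l.S + 1, by positivity, fun η hη hη2 => ?_⟩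
  obtain ⟨X₁, hPR⟩ := hB η hη
  obtain ⟨n₀, hn₀⟩ := l.ratio η hη (by linarith)
  refine ⟨max (max X₁ ⌈1/η⌉₊) ⌈Real.exp (2 ^ (B + 1) + 10 * l.S + 4 * l.S / η + 1)⌉₊, max n₀ (max l.t0 8),
    (le_max_left _ _).trans (le_max_right _ _), ?_⟩
  intro K hK n' n T hn' hnn hlow hgn hT hcop
  have hn0 : n₀ ≤ n := (le_max_left _ _).trans (hn'.trans hnn)
  have ht0 : l.t0 ≤ n' := ((le_max_left _ _).trans (le_max_right _ _)).trans hn'
  have hn8 : 8 ≤ n' := ((le_max_right _ _).trans (le_max_right _ _)).trans hn'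
  have ht0n : l.t0 ≤ n := ht0.trans hnn
  have hKX₁ : X₁ ≤ K := ((le_max_left _ _).trans (le_max_left _ _)).trans hK
  have hKη : (1/η : ℝ) ≤ K := (Nat.le_ceil _).trans (by exact_mod_cast ((le_max_right _ _).trans (le_max_left _ _)).trans hK)
  have hKe : Real.exp (2 ^ (B + 1) + 10 * l.S + 4 * l.S / η + 1) ≤ K :=
    (Nat.le_ceil _).trans (by exact_mod_cast (le_max_right _ _).trans hK)
  have hK0 : (0:ℝ) < K := lt_of_lt_of_le (Real.exp_pos _) hKe
  have hlK : 2 ^ (B + 1) + 10 * l.S + 4 * l.S / η + 1 ≤ Real.log K := by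
    rw [Real.le_log_iff_exp_le hK0]; exact hKe
  have p1 : (0:ℝ) ≤ 2 ^ (B + 1) := by positivity
  have p2 : (0:ℝ) ≤ 4 * l.S / η := by positivity
  have hl1 : 1 ≤ Real.log K := by linarith
  have hlB : 2 ^ (B + 1) ≤ Real.log K := by linarith
  have hl10 : 10 * (l.S:ℝ) ≤ Real.log K := by linarith
  have hl4 : 4 * (l.S:ℝ) / η ≤ Real.log K := by linarith
  have hlK0 : 0 < Real.log K := by linarith
  have hηK : 1 ≤ η * K := by
    rw [div_le_iff₀ hη] at hKη; linarith
  have hK1 : (1:ℝ) ≤ K := by nlinarith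
  have hLp : ∀ n : ℕ, 1 ≤ Real.log K ^ n := fun n => one_le_pow₀ hl1
  -- sizes of g
  have hgn'pos : 1 ≤ l.g n' := l.g_pos ht0
  have hgnpos : 1 ≤ l.g n := l.g_pos ht0n
  have hgG : ∀ m, l.t0 ≤ m → ((l.g m : ℕ) : ℝ) = (l.G m : ℝ) := fun m hm => by
    have := l.g_cast hm
    exact_mod_cast congrArg (fun z : ℤ => (z : ℝ)) this
  have hgn'4 : (4:ℝ) ≤ l.g n' := by
    have h1 := l.two_G_ge ht0
    rw [← l.g_cast ht0] at h1
    have h2 : (n' : ℝ) ≤ 2 * l.g n' := by exact_mod_cast h1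
    have h3 : (8:ℝ) ≤ n' := by exact_mod_cast hn8
    linarith
  have hn2g : (n : ℝ) ≤ 2 * l.g n := by
    have h1 := l.two_G_ge ht0n
    rw [← l.g_cast ht0n] at h1
    exact_mod_cast h1
  have hgnS : (l.g n : ℝ) ≤ l.S * n := by
    rw [hgG n ht0n]
    have hSabs := l.abs_le_S
    have n1 := abs_nonneg l.α
    have n2 := le_abs_self l.β
    have n3 := le_abs_self l.γ
    have n4 := abs_nonneg l.a
    have n5 := abs_nonneg l.b
    have n6 := abs_nonneg l.c
    have n7 := abs_nonneg l.γ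
    have hx1z : (1:ℤ) ≤ n := by exact_mod_cast l.one_le_of_t0 ht0n
    have : l.G n ≤ l.S * (n:ℤ) := by
      unfold G
      rw [hα, ← hSabs]
      nlinarith
    exact_mod_cast this
  have hgn0 : (0:ℝ) < l.g n := by exact_mod_cast hgnpos
  have hgn1 : (1:ℝ) ≤ l.g n := by exact_mod_cast hgnpos
  have hgn'0 : (0:ℝ) < l.g n' := by linarith
  have hgnK : (l.g n : ℝ) ≤ K := le_trans (le_mul_of_one_le_right hgn0.le (hLp _)) hgn
  -- `g n (log K)^3 ≤ K`
  have hgn3 : (l.g n : ℝ) * Real.log K ^ 3 ≤ K := by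
    refine le_trans ?_ hgn
    apply mul_le_mul_of_nonneg_left _ hgn0.le
    exact pow_le_pow_right₀ hl1 (by omega)
  have hratio : (1 - 4 * η) * (l.g n : ℝ) ≤ l.g n' := by
    rw [hgG n ht0n, hgG n' ht0]
    exact hn₀ n hn0 n' hlow hnn
  have hg'g : (l.g n' : ℝ) ≤ l.g n := by exact_mod_cast l.g_le ht0 hnn
  -- X
  set X : ℕ := ⌊(1 - η) * K * l.g n'⌋₊ with hX
  have hη1 : 0 < 1 - η := by linarith
  have hXle : (X : ℝ) ≤ (1 - η) * K * l.g n' := Nat.floor_le (by positivity)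
  have hXge : (1 - 2 * η) * (K * l.g n') ≤ X := by
    have h1 := Nat.lt_floor_add_one ((1 - η) * K * l.g n')
    rw [← hX] at h1
    have h2 : 1 ≤ η * (K * l.g n') := by
      calc (1:ℝ) ≤ η * K := hηK
        _ = η * K * 1 := by ring
        _ ≤ η * K * l.g n' := by
            apply mul_le_mul_of_nonneg_left _ (by positivity)
            linarith
        _ = _ := by ring
    linarith
  have hXK : (K:ℝ) ≤ X := by
    refine le_trans ?_ hXge
    have : (1:ℝ) ≤ (1 - 2 * η) * l.g n' := by nlinarith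
    calc (K:ℝ) = 1 * K := by ring
      _ ≤ ((1 - 2 * η) * l.g n') * K := mul_le_mul_of_nonneg_right this hK0.le
      _ = _ := by ring
  have hX0 : (0:ℝ) < X := by linarith
  have hX1 : X₁ ≤ X := by
    have : (X₁ : ℝ) ≤ X := le_trans (by exact_mod_cast hKX₁) hXK
    exact_mod_cast this
  have hXKg : (X:ℝ) ≤ K * l.g n' := by
    refine hXle.trans ?_
    have : 0 ≤ η * (K * l.g n') := by positivity
    linarith
  have hXup : (X:ℝ) ≤ K * l.g n := hXKg.trans (mul_le_mul_of_nonneg_left hg'g hK0.le)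
  have hlX : Real.log K ≤ Real.log X := Real.log_le_log hK0 hXK
  have hlX0 : 0 < Real.log X := by linarith
  set L : ℝ := Real.log (K * l.g n) with hL
  have hlXL : Real.log X ≤ L := Real.log_le_log hX0 hXup
  have hL2 : L ≤ 2 * Real.log K := by
    rw [hL, Real.log_mul hK0.ne' hgn0.ne']
    have := Real.log_le_log hgn0 hgnK
    linarith
  have hL0 : 0 < L := by linarith
  have hXlow : (1/2 : ℝ) * (K * l.g n) ≤ X := by
    refine le_trans ?_ hXge
    have h2 : (1/2 : ℝ) ≤ (1 - 2 * η) * (1 - 4 * η) := by nlinarith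
    calc (1/2 : ℝ) * (K * l.g n) ≤ ((1 - 2 * η) * (1 - 4 * η)) * (K * l.g n) := by gcongr
      _ = (1 - 2 * η) * (K * ((1 - 4 * η) * l.g n)) := by ring
      _ ≤ (1 - 2 * η) * (K * l.g n') := by
          apply mul_le_mul_of_nonneg_left _ (by linarith)
          exact mul_le_mul_of_nonneg_left hratio hK0.le
  -- level
  have hlev : ((l.g n : ℕ) : ℝ) ^ 2 ≤ X / Real.log X ^ B := by
    rw [le_div_iff₀ (by positivity)]
    have h1 : Real.log X ^ B ≤ (2 * Real.log K) ^ B := pow_le_pow_left₀ hlX0.le (hlXL.trans hL2) B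
    calc ((l.g n : ℕ) : ℝ) ^ 2 * Real.log X ^ B ≤ (l.g n : ℝ) ^ 2 * (2 * Real.log K) ^ B := by gcongr
      _ = (1/2) * ((l.g n : ℝ) * (2 ^ (B + 1) * Real.log K ^ B)) * l.g n := by
          rw [mul_pow, pow_succ]; ring
      _ ≤ (1/2) * ((l.g n : ℝ) * (Real.log K * Real.log K ^ B)) * l.g n := by gcongr
      _ ≤ (1/2) * ((l.g n : ℝ) * Real.log K ^ (B + 3)) * l.g n := by
          have h2 : Real.log K * Real.log K ^ B ≤ Real.log K ^ (B + 3) := by
            rw [← pow_succ']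
            exact pow_le_pow_right₀ hl1 (by omega)
          gcongr
      _ ≤ (1/2) * K * l.g n := by gcongr
      _ ≤ X := by linarith
  have hTt0 : ∀ t ∈ T, l.t0 ≤ t := fun t ht => by
    have := (mem_Ioc.1 (hT ht)).1; omega
  have hmain := hPR X hX1 (l.g n) hlev T (fun t => l.g t) (fun t => (l.H t % l.G t).toNat) (by
    intro t ht
    have h1 := mem_Ioc.1 (hT ht)
    exact ⟨l.g_pos (hTt0 t ht), l.g_le (hTt0 t ht) h1.2, l.res_coprime (hTt0 t ht) (hcop t ht)⟩) (by
    intro s hs t ht hst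
    have h1 : l.G s = l.G t := by
      rw [← l.g_cast (hTt0 s hs), ← l.g_cast (hTt0 t ht)]
      exact_mod_cast hst
    rcases lt_trichotomy s t with h | h | h
    · have := l.G_lt (hTt0 s hs) h; linarith
    · exact h
    · have := l.G_lt (hTt0 t ht) h; linarith)
  have hn0' : (0:ℝ) ≤ n := Nat.cast_nonneg n
  -- count
  have hcnt : ∑ t ∈ T, piAP X (l.g t) (l.H t % l.G t).toNat ≤ ∑ t ∈ T, l.ck K t + T.card * (5 * l.S * n) := by
    have h1 : ∀ t ∈ T, piAP X (l.g t) (l.H t % l.G t).toNat ≤ l.ck K t + 5 * l.S * n := by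
      intro t ht
      have h2 := mem_Ioc.1 (hT ht)
      have htr : (t:ℝ) ≤ n := by exact_mod_cast h2.2
      have h3 : (X : ℤ) ≤ (K : ℤ) * l.G t + l.H t := by
        have h4 := l.abs_H_le_G (hTt0 t ht)
        have h5 := neg_abs_le (l.H t)
        have h6 := l.G_pos (hTt0 t ht)
        have h7 : l.G n' ≤ l.G t := l.G_le ht0 h2.1.le
        have h4r : |(l.H t : ℝ)| ≤ 2 * l.S * t * l.G t := by exact_mod_cast h4
        have h5r := neg_abs_le (l.H t : ℝ)
        have h6r : (1:ℝ) ≤ l.G t := by exact_mod_cast h6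
        have h7r : (l.G n' : ℝ) ≤ l.G t := by exact_mod_cast h7
        have h8 : 2 * (l.S:ℝ) * t ≤ η * K := by
          rw [div_le_iff₀ hη] at hl4
          calc 2 * (l.S:ℝ) * t ≤ 2 * l.S * n := by gcongr
            _ ≤ 2 * l.S * (2 * l.g n) := by gcongr
            _ = (4 * l.S) * l.g n := by ring
            _ ≤ (Real.log K * η) * l.g n := by gcongr
            _ = η * (l.g n * Real.log K ^ 1) := by ring
            _ ≤ η * (l.g n * Real.log K ^ 3) := by
                apply mul_le_mul_of_nonneg_left _ hη.le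
                apply mul_le_mul_of_nonneg_left _ hgn0.le
                exact pow_le_pow_right₀ hl1 (by norm_num)
            _ ≤ η * K := by gcongr
        have h9 : (X : ℝ) ≤ (K : ℝ) * l.G t + l.H t := by
          calc (X : ℝ) ≤ (1 - η) * K * l.g n' := hXle
            _ = (1 - η) * K * l.G n' := by rw [hgG n' ht0]
            _ ≤ (1 - η) * K * l.G t := by gcongr
            _ = K * l.G t - (η * K) * l.G t := by ring
            _ ≤ K * l.G t - (2 * l.S * t) * l.G t := by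
                have := mul_le_mul_of_nonneg_right h8 (by linarith : (0:ℝ) ≤ l.G t)
                linarith
            _ ≤ _ := by linarith
        exact_mod_cast h9
      have h10 := l.piAP_le_ck (hTt0 t ht) h3
      have h11 : 5 * (l.S:ℝ) * t ≤ 5 * l.S * n := by gcongr
      linarith
    refine (sum_le_sum h1).trans (le_of_eq ?_)
    rw [sum_add_distrib, sum_const, nsmul_eq_mul]
  have hTcard : (T.card : ℝ) ≤ n := by
    have h1 := card_le_card hT
    rw [Nat.card_Ioc] at h1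
    have : T.card ≤ n := by omega
    exact_mod_cast this
  -- main term
  have hMT : (1 - 9 * η) * (K / L) * (∑ t ∈ T, GG (l.g t)) ≤
      (1 - η) * (X / Real.log X) * (∑ t ∈ T, 1 / (Nat.totient (l.g t) : ℝ)) := by
    have h1 : (∑ t ∈ T, GG (l.g t)) / l.g n ≤ ∑ t ∈ T, 1 / (Nat.totient (l.g t) : ℝ) := by
      rw [sum_div]
      apply sum_le_sum
      intro t ht
      have h2 := mem_Ioc.1 (hT ht)
      have h3 : (0:ℝ) < l.g t := by exact_mod_cast l.g_pos (hTt0 t ht)
      have h4 : (l.g t : ℝ) ≤ l.g n := by exact_mod_cast l.g_le (hTt0 t ht) h2.2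
      have h5 : (0:ℝ) < Nat.totient (l.g t) := by
        exact_mod_cast Nat.totient_pos.2 (l.g_pos (hTt0 t ht))
      unfold GG
      rw [div_div, div_le_div_iff₀ (by positivity) h5, one_mul]
      rw [mul_comm (Nat.totient (l.g t) : ℝ)]
      gcongr
    have hsg0 : 0 ≤ ∑ t ∈ T, GG (l.g t) := sum_nonneg fun t _ => GG_nonneg _
    have h2 : (1 - 2 * η) * (K * l.g n') / L ≤ X / Real.log X := by
      apply div_le_div₀ hX0.le hXge hlX0 hlXL
    calc (1 - 9 * η) * (K / L) * (∑ t ∈ T, GG (l.g t))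
        ≤ ((1 - η) * (1 - 2 * η) * (1 - 4 * η)) * (K / L) * (∑ t ∈ T, GG (l.g t)) := by
          apply mul_le_mul_of_nonneg_right _ hsg0
          apply mul_le_mul_of_nonneg_right _ (by positivity)
          nlinarith [mul_nonneg hη.le hη.le, mul_nonneg (mul_nonneg hη.le hη.le) (show (0:ℝ) ≤ 1 / 20 - η by linarith)]
      _ = (1 - η) * ((1 - 2 * η) * (K * ((1 - 4 * η) * l.g n)) / L) * ((∑ t ∈ T, GG (l.g t)) / l.g n) := by
          field_simp
      _ ≤ (1 - η) * ((1 - 2 * η) * (K * l.g n') / L) * ((∑ t ∈ T, GG (l.g t)) / l.g n) := by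
          apply mul_le_mul_of_nonneg_right _ (by positivity)
          apply mul_le_mul_of_nonneg_left _ (by linarith)
          apply div_le_div_of_nonneg_right _ hL0.le
          apply mul_le_mul_of_nonneg_left _ (by linarith)
          exact mul_le_mul_of_nonneg_left hratio hK0.le
      _ ≤ (1 - η) * (X / Real.log X) * (∑ t ∈ T, 1 / (Nat.totient (l.g t) : ℝ)) := by
          apply mul_le_mul _ h1 (by positivity) (by
            apply mul_nonneg (by linarith) (by positivity))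
          exact mul_le_mul_of_nonneg_left h2 (by linarith)
  -- errors
  have hE1 : (X:ℝ) / Real.log X ^ 2 ≤ l.S * (n * (K / Real.log K ^ 2)) := by
    calc (X:ℝ) / Real.log X ^ 2 ≤ K * l.g n / Real.log K ^ 2 := by gcongr
      _ ≤ K * (l.S * n) / Real.log K ^ 2 := by gcongr
      _ = _ := by ring
  have hE3 : T.card * (5 * l.S * (n:ℝ)) ≤ n * (K / Real.log K ^ 2) := by
    have h1 : 5 * l.S * (n:ℝ) ≤ K / Real.log K ^ 2 := by
      rw [le_div_iff₀ (by positivity)]
      calc 5 * l.S * (n:ℝ) * Real.log K ^ 2 ≤ 5 * l.S * (2 * (l.g n : ℝ)) * Real.log K ^ 2 := by gcongr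
        _ = (10 * l.S) * l.g n * Real.log K ^ 2 := by ring
        _ ≤ Real.log K * l.g n * Real.log K ^ 2 := by gcongr
        _ = l.g n * Real.log K ^ 3 := by ring
        _ ≤ K := hgn3
    have h2 : (0:ℝ) ≤ 5 * l.S * (n:ℝ) := by positivity
    exact mul_le_mul hTcard h1 h2 hn0'
  have e1 : ((l.S:ℝ) + 1) * (n * (K / Real.log K ^ 2)) =
      l.S * (n * (K / Real.log K ^ 2)) + n * (K / Real.log K ^ 2) := by ring
  rw [e1]
  linarith

/-- the range of `x` for general `g` -/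
theorem rng_quad (ε : ℝ) (hε : 0 < ε) : l.Rng (fun K x => (l.g x : ℝ) ≤ (K:ℝ) ^ (1 / 2 - ε)) where
  block := l.block ε hε
  mono := by
    intro K n x hn hnx h
    have : (l.g n : ℝ) ≤ l.g x := by exact_mod_cast l.g_le hn hnx
    exact this.trans h
  le := by
    refine ⟨1, fun K hK x h => h.trans ?_⟩
    have hK1r : (1:ℝ) ≤ K := by exact_mod_cast hK
    calc (K:ℝ) ^ (1/2 - ε) ≤ (K:ℝ) ^ (1:ℝ) := Real.rpow_le_rpow_of_exponent_le hK1r (by linarith)
      _ = K := Real.rpow_one _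

/-- the range of `x` for linear `g` -/
theorem rng_lin (hα : l.α = 0) : ∃ B : ℕ, l.Rng (fun K x => (l.g x : ℝ) * Real.log K ^ B ≤ K) := by
  obtain ⟨B, hB⟩ := l.block_lin hα
  refine ⟨B, hB, ?_, ?_⟩
  · intro K n x hn hnx h
    have : (l.g n : ℝ) ≤ l.g x := by exact_mod_cast l.g_le hn hnx
    refine le_trans ?_ h
    apply mul_le_mul_of_nonneg_right this
    have : 0 ≤ Real.log K := by
      rcases Nat.eq_zero_or_pos K with hK | hK
      · rw [hK]; simp
      · exact Real.log_nonneg (by exact_mod_cast hK)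
    positivity
  · refine ⟨3, fun K hK x h => le_trans ?_ h⟩
    have hK3 : (3:ℝ) ≤ K := by exact_mod_cast hK
    have hl : 1 ≤ Real.log K := by
      rw [Real.le_log_iff_exp_le (by linarith)]
      have := Real.exp_one_lt_d9
      linarith
    exact le_mul_of_one_le_right (Nat.cast_nonneg _) (one_le_pow₀ hl)

end Ln

end Pool.Agent.Helper24K9.EL
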